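import Mathlib
import Pool.Agent.BetaL.Spec

set_option autoImplicit false

namespace Pool.Agent.BY

open Finset Pool.Agent.BetaL Matrix

private lemma toF' {x w a : ℝ} {n : ℕ} (hn : 1 ≤ n) (hod : ∀ l < n, 0 < od x w a l)
    (hp : ∀ l < n, 0 < (x - (l : ℝ)) * (w - l)) {f : Fin (n + 1) → ℝ} {lam : ℝ}
    (hf : HM x w a n *ᵥ f = lam • f) (hne : f ≠ 0) {F : ℕ → ℝ}
    (hF : F = fun l => sc x w a l * xt f l) :
    F 0 ≠ 0 ∧
      (∀ l < n, (l : ℝ) * ((a + l) * F (l - 1) + (w - l + 1) * F l) +
        (x - l) * ((a + 1 + l) * F l + (w - l) * F (l + 1)) = lam * F l) ∧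
      (n : ℝ) * ((a + n) * F (n - 1) + (w - n + 1) * F n) +
        (x - n) * ((a + w + 1) * F n) = lam * F n := by
  subst hF
  have hrow : ∀ l (hl : l < n + 1), lam * xt f l = dg x w a n l * xt f l +
      (if l < n then √(od x w a l) * xt f (l + 1) else 0) +
      (if 0 < l then √(od x w a (l - 1)) * xt f (l - 1) else 0) := by
    intro l hl
    rw [← HM_mulVec x w a n f l hl, hf, xt, dif_pos hl]
    rfl
  refine ⟨?_, ?_, ?_⟩
  · have h := eig_ne hod hf hne
    simp only [sc, one_mul]
    simpa [xt] using h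
  · intro l hl
    have h1 := hrow l (by omega)
    rw [if_pos hl, dg, if_pos hl] at h1
    have h2 := sc_one (a := a) l (hp l hl).ne'
    rcases Nat.eq_zero_or_pos l with h | h
    · subst h
      simp only [lt_irrefl, if_false, add_zero] at h1
      simp only [sc, one_mul] at h2 ⊢
      push_cast at h1 h2 ⊢
      rw [h1]
      linear_combination (xt f 1) * h2
    · obtain ⟨m, rfl⟩ : ∃ m, l = m + 1 := ⟨l - 1, by omega⟩
      rw [if_pos h] at h1
      simp only [Nat.add_sub_cancel] at h1 ⊢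
      have h3 := sc_two (a := a) m (hp m (by omega)).ne' (hod m (by omega)).le
      push_cast at h1 h2 ⊢
      linear_combination (-sc x w a (m + 1)) * h1 + (xt f (m + 1 + 1)) * h2 - (xt f m) * h3
  · have h1 := hrow n (by omega)
    obtain ⟨m, rfl⟩ : ∃ m, n = m + 1 := ⟨n - 1, by omega⟩
    rw [if_neg (lt_irrefl _), if_pos (by omega : 0 < m + 1), dg, if_neg (lt_irrefl _)] at h1
    simp only [Nat.add_sub_cancel] at h1 ⊢
    have h3 := sc_two (a := a) m (hp m (by omega)).ne' (hod m (by omega)).le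
    push_cast at h1 ⊢
    linear_combination (-sc x w a (m + 1)) * h1 - (xt f m) * h3

/-- Decomposition of the level function `δ₀` into level eigenfunctions. -/
theorem spec_decomp {x w a : ℝ} {n : ℕ} (hn : 1 ≤ n) (hod : ∀ l < n, 0 < od x w a l)
    (hp : ∀ l < n, 0 < (x - (l : ℝ)) * (w - l)) :
    ∃ (F : Fin (n + 1) → ℕ → ℝ) (c : Fin (n + 1) → ℝ),
      (∀ j, F j 0 ≠ 0 ∧
        (∀ l < n, (l : ℝ) * ((a + l) * F j (l - 1) + (w - l + 1) * F j l) +
          (x - l) * ((a + 1 + l) * F j l + (w - l) * F j (l + 1)) =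
            (HM_herm x w a n).eigenvalues j * F j l) ∧
        (n : ℝ) * ((a + n) * F j (n - 1) + (w - n + 1) * F j n) +
          (x - n) * ((a + w + 1) * F j n) = (HM_herm x w a n).eigenvalues j * F j n) ∧
      ∀ l ≤ n, ∑ j, c j * F j l = if l = 0 then 1 else 0 := by
  set hH := HM_herm x w a n with hHdef
  refine ⟨fun j l => sc x w a l * xt (⇑(hH.eigenvectorBasis j)) l,
    fun j => hH.eigenvectorBasis j 0, fun j => ?_, ?_⟩
  · refine toF' hn hod hp (hH.mulVec_eigenvectorBasis j) ?_ rfl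
    intro h
    have h5 : hH.eigenvectorBasis j = 0 := by
      ext l
      exact congrFun h l
    exact hH.eigenvectorBasis.orthonormal.ne_zero j h5
  · intro l hl
    have h1 := hH.eigenvectorBasis.sum_repr (EuclideanSpace.single (0 : Fin (n + 1)) (1 : ℝ))
    have h2 := congrArg (fun z : EuclideanSpace ℝ (Fin (n + 1)) => z ⟨l, by omega⟩) h1
    have h3 : ∀ j, hH.eigenvectorBasis.repr (EuclideanSpace.single (0 : Fin (n + 1)) (1 : ℝ)) j =
        hH.eigenvectorBasis j 0 := by
      intro j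
      rw [OrthonormalBasis.repr_apply_apply]
      simp [EuclideanSpace.inner_single_right]
    simp only [h3] at h2
    have h4 : ∑ j, hH.eigenvectorBasis j 0 * hH.eigenvectorBasis j ⟨l, by omega⟩ =
        if l = 0 then 1 else 0 := by
      have e1 : (∑ j, hH.eigenvectorBasis j 0 • hH.eigenvectorBasis j) ⟨l, by omega⟩ =
          ∑ j, hH.eigenvectorBasis j 0 * hH.eigenvectorBasis j ⟨l, by omega⟩ := by
        simp
      rw [← e1, h2]
      simp only [EuclideanSpace.single_apply, Fin.ext_iff]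
      rfl
    have h5 : ∀ j, xt (⇑(hH.eigenvectorBasis j)) l = hH.eigenvectorBasis j ⟨l, by omega⟩ := by
      intro j
      rw [xt, dif_pos (by omega)]
    have h6 : ∑ j, hH.eigenvectorBasis j 0 * (sc x w a l * xt (⇑(hH.eigenvectorBasis j)) l) =
        sc x w a l * ∑ j, hH.eigenvectorBasis j 0 * hH.eigenvectorBasis j ⟨l, by omega⟩ := by
      rw [Finset.mul_sum]
      refine Finset.sum_congr rfl fun j _ => ?_
      rw [h5 j]
      ring
    rw [h6, h4]
    split_ifs with h
    · subst h
      simp [sc]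
    · simp

end Pool.Agent.BY
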