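import Mathlib

set_option autoImplicit false

namespace Pool.Agent.BY

open Finset

/-- `Θ = ∑_{l ≤ n} C(x, l) C(w + a, l + a)` -/
def Th (x w a n : ℕ) : ℕ := ∑ l ∈ range (n + 1), x.choose l * (w + a).choose (l + a)

/-- the number of blocks containing `S` and disjoint from `U` -/
def nb {Ω : Type*} [DecidableEq Ω] (Bs : Finset (Finset Ω)) (S U : Finset Ω) : ℕ :=
  (Bs.filter (fun B => S ⊆ B ∧ Disjoint U B)).card

/-- the number of blocks containing `S` -/
def nc {Ω : Type*} [DecidableEq Ω] (Bs : Finset (Finset Ω)) (S : Finset Ω) : ℕ :=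
  (Bs.filter (fun B => S ⊆ B)).card

/-- the sum of the reciprocals of the odd primes up to `Q` -/
noncomputable def SR (Q : ℕ) : ℝ := ∑ q ∈ (Finset.Icc 3 Q).filter Nat.Prime, (1 : ℝ) / q

end Pool.Agent.BY
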