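import Mathlib
import Pool.Agent.BetaL.Spec
import Pool.Agent.BetaL.Closed
import Pool.Agent.BY.Defs

set_option autoImplicit false

namespace Pool.Agent.BY

open Finset Pool.Agent.BetaL

/-- `F` is a level eigenfunction with eigenvalue `lam` (the hypotheses of `Pool.Agent.BetaL.lloyd`) -/
def EigF (v k d n : ℕ) (F : ℕ → ℝ) (lam : ℝ) : Prop :=
  F 0 ≠ 0 ∧
  (∀ l < n, (l : ℝ) * Ev v k (d + 2 * n + 1) F (l - 1) +
    (((d + 2 * n + 1 : ℕ) : ℝ) - l) * Ev v k (d + 2 * n + 1) F l = lam * F l) ∧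
  (n : ℝ) * Ev v k (d + 2 * n + 1) F (n - 1) +
    (((d + 2 * n + 1 : ℕ) : ℝ) - n) * (((v : ℝ) - (d + 2 * n + 1 : ℕ) + 1) * F n) = lam * F n

end Pool.Agent.BY
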