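import Mathlib
import Pool.Agent.BY.EDefs
import Pool.Agent.BY.A3

set_option autoImplicit false

namespace Pool.Agent.BY

open Finset Pool.Agent.BetaL Pool.Agent.MP_1e96f1_co

variable {Ω : Type*} [Fintype Ω] [DecidableEq Ω]

/-- **The level eigenfunctions of a `β(n + 1)` design.**

Proof. Follow the proof of `int_zeros` (`Pool/Agent/BetaL/Spec.lean`) with `x = d + 2 n + 1`,
`a = k - x ≥ 0`, `w = v - k ≥ n`, `L = v - 2 x + 1`: `hp`, `hod`, the matrix `hH = HM_herm x w a n`, now
with the `F j`, `c j` of `spec_decomp`; `hpos` (no eigenvalue is `0`); `lloyd` gives `T j ≤ d + 2 n + 1`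
(keep this bound) with `hH.eigenvalues j = T j (L + T j)`; so `EigF v k d n (F j) (T j (L + T j))` (the same
computation with `Ev` as in `int_zeros`); `T` is injective (`eig_inj`); `triv_mem` gives `j0` with
eigenvalue `x (a + w + 1) = x (L + x)`, so `T j0 = d + 2 n + 1` (`t ↦ t (L + t)` is strictly increasing on
the naturals, `L ≥ 0`). For `j ≠ j0`: `T j ≠ T j0` and `T j ≤ d + 2 n + 1` give `T j ≤ d + 2 n`; `T j ≥ 1`
because the eigenvalue is not `0`. -/
theorem level_eigen {Bs : Finset (Finset Ω)} {v k d n : ℕ} (hD : IsDesign Bs v k d)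
    (hB : IsBeta Bs v d (n + 1)) (hn : 1 ≤ n) (hk : d + 2 * n + 1 ≤ k) {L : ℝ}
    (hL : L = (v : ℝ) - 2 * (d + 2 * n + 1 : ℕ) + 1) (hL0 : 0 ≤ L) :
    ∃ (T : Fin (n + 1) → ℕ) (F : Fin (n + 1) → ℕ → ℝ) (c : Fin (n + 1) → ℝ) (j0 : Fin (n + 1)),
      Function.Injective T ∧ T j0 = d + 2 * n + 1 ∧ (∀ j, j ≠ j0 → 1 ≤ T j ∧ T j ≤ d + 2 * n) ∧
      (∀ j, EigF v k d n (F j) ((T j : ℝ) * (L + T j))) ∧
      ∀ l ≤ n, ∑ j, c j * F j l = if l = 0 then 1 else 0 := by
  obtain ⟨hdk, hkv⟩ := design_facts hD
  set x : ℝ := ((d + 2 * n + 1 : ℕ) : ℝ) with hx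
  set a : ℝ := (k : ℝ) - x with ha
  set w : ℝ := (v : ℝ) - k with hw
  have ha0 : 0 ≤ a := by
    have : ((d + 2 * n + 1 : ℕ) : ℝ) ≤ k := by exact_mod_cast hk
    rw [ha, hx]; linarith
  have hwn : (n : ℝ) ≤ w := by
    have : n + k ≤ v := by omega
    have : (n : ℝ) + k ≤ v := by exact_mod_cast this
    rw [hw]; linarith
  have hxn : (n : ℝ) + 1 ≤ x := by
    rw [hx]
    have : n + 1 ≤ d + 2 * n + 1 := by omega
    exact_mod_cast this
  have hkx : (k : ℝ) = x + a := by rw [ha]; ring
  have hvx : (v : ℝ) = x + a + w := by rw [ha, hw]; ring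
  have hLw : w = L + x - a - 1 := by rw [hL, hvx]; ring
  have hp : ∀ l < n, 0 < (x - (l : ℝ)) * (w - l) := by
    intro l hl
    have : (l : ℝ) < n := by exact_mod_cast hl
    exact mul_pos (by linarith) (by linarith)
  have hod : ∀ l < n, 0 < od x w a l := by
    intro l hl
    rw [od]
    exact mul_pos (hp l hl) (by positivity)
  obtain ⟨F, c, hF, hc⟩ := spec_decomp hn hod hp
  set hH := HM_herm x w a n with hHdef
  have heig : ∀ j, EigF v k d n (F j) (hH.eigenvalues j) := by
    intro j
    obtain ⟨hF0, hF1, hF2⟩ := hF j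
    refine ⟨hF0, ?_, ?_⟩
    · intro l hl
      rw [← hF1 l hl, ← hx]
      unfold Ev
      rw [hkx, hvx, ← hx]
      rcases Nat.eq_zero_or_pos l with h | h
      · subst h; push_cast; ring
      · obtain ⟨m, rfl⟩ : ∃ m, l = m + 1 := ⟨l - 1, by omega⟩
        simp only [Nat.add_sub_cancel]
        push_cast
        ring
    · rw [← hF2, ← hx]
      unfold Ev
      rw [hkx, hvx, ← hx]
      obtain ⟨m, rfl⟩ : ∃ m, n = m + 1 := ⟨n - 1, by omega⟩
      simp only [Nat.add_sub_cancel]
      push_cast
      ring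
  have hpos : ∀ j, hH.eigenvalues j ≠ 0 := by
    intro j hj
    obtain ⟨hF0, hF1, hF2⟩ := hF j
    have hj' : (HM_herm x w a n).eigenvalues j = 0 := hj
    rw [hj'] at hF1 hF2
    have hE : ∀ l < n, (a + 1 + l) * F j l + (w - l) * F j (l + 1) = 0 := by
      intro l
      induction l with
      | zero =>
        intro hl
        have := hF1 0 hl
        simp only [Nat.cast_zero, zero_mul, zero_add, sub_zero, add_zero] at this ⊢
        rcases mul_eq_zero.mp this with h | h
        · linarith
        · exact h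
      | succ l ih =>
        intro hl
        have h1 := hF1 (l + 1) hl
        have h2 := ih (by omega)
        simp only [Nat.add_sub_cancel] at h1
        push_cast at h1 ⊢
        have h3 : (x - (l + 1)) * ((a + 1 + (l + 1)) * F j (l + 1) +
            (w - (l + 1)) * F j (l + 1 + 1)) = 0 := by
          linear_combination h1 - (l + 1 : ℝ) * h2
        have h4 : (l : ℝ) + 1 < n := by exact_mod_cast hl
        rcases mul_eq_zero.mp h3 with h | h
        · linarith
        · exact h
    have hFne : ∀ l ≤ n, F j l ≠ 0 := by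
      intro l
      induction l with
      | zero => intro _; exact hF0
      | succ l ih =>
        intro hl h0
        have h1 := hE l (by omega)
        rw [h0, mul_zero, add_zero] at h1
        rcases mul_eq_zero.mp h1 with h | h
        · have : 0 < a + 1 + l := by positivity
          linarith
        · exact ih (by omega) h
    obtain ⟨m, rfl⟩ : ∃ m, n = m + 1 := ⟨n - 1, by omega⟩
    have h1 := hE m (by omega)
    simp only [Nat.add_sub_cancel] at hF2
    push_cast at hF2 hxn
    have h2 : (x - (m + 1)) * ((a + w + 1) * F j (m + 1)) = 0 := by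
      linear_combination hF2 - (m + 1 : ℝ) * h1
    rcases mul_eq_zero.mp h2 with h | h
    · linarith
    · rcases mul_eq_zero.mp h with h | h
      · have : (0 : ℝ) ≤ (m + 1 : ℕ) := by positivity
        linarith
      · exact hFne _ le_rfl h
  have hT : ∀ j, ∃ t : ℕ, t ≤ d + 2 * n + 1 ∧ hH.eigenvalues j = t * (L + t) := by
    intro j
    obtain ⟨h0, h1, h2⟩ := heig j
    obtain ⟨t, ht1, ht⟩ := lloyd hD hB hk (F j) (hH.eigenvalues j) h0 h1 h2
    refine ⟨t, ht1, ?_⟩
    rw [ht, hL, ← hx]
  choose T hTle hT using hT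
  have hTinj : Function.Injective T := by
    intro i j hij
    apply eig_inj hod
    show hH.eigenvalues i = hH.eigenvalues j
    rw [hT, hT, hij]
  obtain ⟨j0, hj0⟩ := triv_mem hn hod hp
  have hTj0 : (T j0 : ℝ) * (L + T j0) = x * (L + x) := by
    rw [← hT, hj0, hLw]
    ring
  have hx0 : 0 < x := by
    have : (0 : ℝ) ≤ n := Nat.cast_nonneg n
    linarith
  have hTx : T j0 = d + 2 * n + 1 := by
    have h1 : ((T j0 : ℝ) - x) * (L + x + T j0) = 0 := by linear_combination hTj0
    have h2 : L + x + T j0 ≠ 0 := by positivity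
    have h3 : (T j0 : ℝ) = x := by
      rcases mul_eq_zero.mp h1 with h | h
      · linarith
      · exact absurd h h2
    rw [hx] at h3
    exact_mod_cast h3
  refine ⟨T, F, c, j0, hTinj, hTx, ?_, ?_, hc⟩
  · intro j hj
    have h1 : T j ≠ T j0 := fun h => hj (hTinj h)
    have h2 := hTle j
    refine ⟨?_, by omega⟩
    by_contra hcon
    have h3 : T j = 0 := by omega
    exact hpos j (by rw [hT, h3]; simp)
  · intro j
    rw [← hT]
    exact heig j

end Pool.Agent.BY
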