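import Mathlib
import Pool.Agent.BetaL.Spec

set_option autoImplicit false

namespace Pool.Agent.BY

open Finset Pool.Agent.BetaL

variable {Ω : Type*} [Fintype Ω] [DecidableEq Ω]

/-- if `f` is an eigenfunction on `x`-sets, `dn f` is one on `(x-1)`-sets -/
private lemma dn_eig {x : ℕ} (hx : 1 ≤ x) {f : Finset Ω → ℝ} {μ : ℝ}
    (h : ∀ X : Finset Ω, X.card = x → up (dn f) X = μ * f X) (Y : Finset Ω) (hY : Y.card = x - 1) :
    up (dn (dn f)) Y = (μ - ((Fintype.card Ω : ℝ) - 2 * (x - 1 : ℕ))) * dn f Y := by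
  have h3 := dn_up (dn f) Y
  have h4 : dn (up (dn f)) Y = μ * dn f Y := by
    unfold dn
    rw [Finset.mul_sum]
    refine Finset.sum_congr rfl fun c hc => ?_
    exact h (insert c Y) (by rw [Finset.card_insert_of_notMem (Finset.mem_compl.mp hc), hY]; omega)
  rw [h4, hY] at h3
  linarith

/-- An eigenfunction of the up-down operator with the eigenvalue `T (L + T)` is killed by `dn^(T+1)`. -/
theorem dn_iter_zero (T : ℕ) : ∀ (x : ℕ) (f : Finset Ω → ℝ), T + 1 ≤ x → 2 * x ≤ Fintype.card Ω + 1 →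
    (∀ X : Finset Ω, X.card = x →
      up (dn f) X = ((T : ℝ) * ((Fintype.card Ω : ℝ) - 2 * x + 1 + T)) * f X) →
    ∀ Y : Finset Ω, Y.card = x - 1 - T → (dn^[T + 1]) f Y = 0 := by
  induction T with
  | zero =>
    intro x f hx h2x h Y hY
    have hcx : ((x - 1 : ℕ) : ℝ) = (x : ℝ) - 1 := by
      rw [Nat.cast_sub (by omega)]; push_cast; ring
    show dn f Y = 0
    by_contra hne
    obtain ⟨t, -, ht⟩ := up_dn_eigen (x - 1) (dn f)
      (0 - ((Fintype.card Ω : ℝ) - 2 * (x - 1 : ℕ))) (fun Z hZ => by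
        refine dn_eig (by omega) (μ := 0) ?_ Z hZ
        intro X hX
        rw [h X hX]
        push_cast
        ring) ⟨Y, by rw [hY]; rfl, hne⟩
    rw [hcx] at ht
    have h3 : (2 * x : ℝ) ≤ (Fintype.card Ω : ℝ) + 1 := by exact_mod_cast h2x
    have h4 : 0 ≤ (t : ℝ) * ((Fintype.card Ω : ℝ) - 2 * (x - 1) + 1 + t) := by
      apply mul_nonneg (by positivity)
      have : (0 : ℝ) ≤ t := by positivity
      linarith
    linarith
  | succ T ih =>
    intro x f hx h2x h Y hY
    have hcx : ((x - 1 : ℕ) : ℝ) = (x : ℝ) - 1 := by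
      rw [Nat.cast_sub (by omega)]; push_cast; ring
    rw [Function.iterate_succ_apply]
    refine ih (x - 1) (dn f) (by omega) (by omega) ?_ Y (by omega)
    intro X hX
    rw [dn_eig (by omega) h X hX, hcx]
    push_cast
    ring

end Pool.Agent.BY
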