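import Mathlib
import Pool.Agent.BetaL.Spec
import Pool.Agent.BY.Defs

set_option autoImplicit false

namespace Pool.Agent.BY

open Finset Pool.Agent.BetaL Pool.Agent.MP_1e96f1_co

variable {Ω : Type*} [Fintype Ω] [DecidableEq Ω]

private lemma dn_step (m : ℕ) (f : Finset Ω → ℝ) (Y : Finset Ω) :
    ∑ X ∈ (univ : Finset (Finset Ω)).filter (fun X => Y ⊆ X ∧ X.card = Y.card + m), dn f X =
      ((m + 1 : ℕ) : ℝ) * ∑ Z ∈ (univ : Finset (Finset Ω)).filter (fun X => Y ⊆ X ∧ X.card = Y.card + (m + 1)), f Z := by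
  have h1 : ((m + 1 : ℕ) : ℝ) * ∑ Z ∈ (univ : Finset (Finset Ω)).filter
      (fun X => Y ⊆ X ∧ X.card = Y.card + (m + 1)), f Z =
      ∑ Z ∈ (univ : Finset (Finset Ω)).filter (fun X => Y ⊆ X ∧ X.card = Y.card + (m + 1)),
        ∑ _c ∈ Z \ Y, f Z := by
    rw [Finset.mul_sum]
    refine Finset.sum_congr rfl fun Z hZ => ?_
    rw [Finset.mem_filter] at hZ
    rw [Finset.sum_const, nsmul_eq_mul, Finset.card_sdiff_of_subset hZ.2.1, hZ.2.2]
    congr 2
    omega
  rw [h1]
  simp only [dn]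
  rw [Finset.sum_sigma', Finset.sum_sigma']
  refine Finset.sum_nbij' (fun p => ⟨insert p.2 p.1, p.2⟩) (fun p => ⟨p.1.erase p.2, p.2⟩) ?_ ?_ ?_ ?_ ?_
  · rintro ⟨X, c⟩ h
    simp only [Finset.mem_sigma, Finset.mem_filter, Finset.mem_univ, true_and, Finset.mem_compl,
      Finset.mem_sdiff] at h ⊢
    obtain ⟨⟨h1, h2⟩, h3⟩ := h
    refine ⟨⟨h1.trans (Finset.subset_insert _ _), ?_⟩, Finset.mem_insert_self _ _, fun h => h3 (h1 h)⟩
    rw [Finset.card_insert_of_notMem h3, h2]
    omega
  · rintro ⟨Z, c⟩ h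
    simp only [Finset.mem_sigma, Finset.mem_filter, Finset.mem_univ, true_and, Finset.mem_compl,
      Finset.mem_sdiff] at h ⊢
    obtain ⟨⟨h1, h2⟩, h3, h4⟩ := h
    refine ⟨⟨?_, ?_⟩, Finset.notMem_erase _ _⟩
    · intro y hy
      refine Finset.mem_erase.2 ⟨?_, h1 hy⟩
      rintro rfl
      exact h4 hy
    · rw [Finset.card_erase_of_mem h3, h2]
      omega
  · rintro ⟨X, c⟩ h
    simp only [Finset.mem_sigma, Finset.mem_filter, Finset.mem_univ, true_and, Finset.mem_compl] at h
    simp only [Finset.erase_insert h.2]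
  · rintro ⟨Z, c⟩ h
    simp only [Finset.mem_sigma, Finset.mem_filter, Finset.mem_univ, true_and, Finset.mem_sdiff] at h
    simp only [Finset.insert_erase h.2.1]
  · rintro ⟨X, c⟩ _
    rfl

/-- Induction on `m` (for all `f`, `Y`): `dn^[m+1] f Y = dn^[m] (dn f) Y
= m! ∑_{X ⊇ Y, |X| = |Y| + m} ∑_{c ∉ X} f (insert c X)`, and each `Z ⊇ Y` with `|Z| = |Y| + m + 1` is
`insert c X` for exactly the `m + 1` pairs `(Z.erase c, c)`, `c ∈ Z \ Y` (sum over a sigma type /
`Finset.sum_sigma'` and `Finset.sum_bij'` or `sum_nbij'` with the map `(X, c) ↦ (insert c X, c)`). -/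
theorem dn_iter_sum (m : ℕ) : ∀ (f : Finset Ω → ℝ) (Y : Finset Ω),
    (dn^[m]) f Y = (m.factorial : ℝ) *
      ∑ X ∈ (univ : Finset (Finset Ω)).filter (fun X => Y ⊆ X ∧ X.card = Y.card + m), f X := by
  induction m with
  | zero =>
    intro f Y
    have : (univ : Finset (Finset Ω)).filter (fun X => Y ⊆ X ∧ X.card = Y.card + 0) = {Y} := by
      ext X
      simp only [Finset.mem_filter, Finset.mem_univ, true_and, Finset.mem_singleton, add_zero]
      constructor
      · rintro ⟨h1, h2⟩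
        exact (Finset.eq_of_subset_of_card_le h1 h2.le).symm
      · rintro rfl
        exact ⟨Finset.Subset.refl _, rfl⟩
    rw [this]
    simp
  | succ m ih =>
    intro f Y
    rw [Function.iterate_succ_apply, ih (dn f) Y, dn_step, Nat.factorial_succ]
    push_cast
    ring

/-- `lev Bs n δ₀ X` is the number of blocks containing `X` (in `lev` the terms with `(X \ B).card ≠ 0`
vanish; `(X \ B).card = 0 ↔ X ⊆ B`). Exchange the sums: for a block `B ⊇ S` the number of `X` with
`S ⊆ X ⊆ B`, `|X| = |S| + m` is `C(k - |S|, m)` (`card_supersets` of `Pool/Agent/MP_1e96f1_co/Count.lean`),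
for other blocks it is `0`. -/
theorem lev_delta_sum {Bs : Finset (Finset Ω)} {k n : ℕ} (hk : ∀ B ∈ Bs, B.card = k)
    (S : Finset Ω) (m : ℕ) :
    ∑ X ∈ (univ : Finset (Finset Ω)).filter (fun X => S ⊆ X ∧ X.card = S.card + m),
      lev Bs n (fun l => if l = 0 then (1 : ℝ) else 0) X = (nc Bs S : ℝ) * ((k - S.card).choose m : ℝ) := by
  have hlev : ∀ X : Finset Ω, lev Bs n (fun l => if l = 0 then (1 : ℝ) else 0) X =
      ∑ B ∈ Bs, if X ⊆ B then (1 : ℝ) else 0 := by
    intro X
    unfold lev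
    rw [Finset.sum_filter]
    refine Finset.sum_congr rfl fun B _ => ?_
    by_cases h : X ⊆ B
    · have : (X \ B).card = 0 := by
        rw [Finset.card_eq_zero, Finset.sdiff_eq_empty_iff_subset]; exact h
      simp [this, h]
    · have : (X \ B).card ≠ 0 := by
        rw [Ne, Finset.card_eq_zero, Finset.sdiff_eq_empty_iff_subset]; exact h
      simp [this, h]
  simp only [hlev]
  rw [Finset.sum_comm]
  have hB : ∀ B ∈ Bs, (∑ X ∈ (univ : Finset (Finset Ω)).filter (fun X => S ⊆ X ∧ X.card = S.card + m),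
      if X ⊆ B then (1 : ℝ) else 0) = if S ⊆ B then ((k - S.card).choose m : ℝ) else 0 := by
    intro B hB
    rw [← Finset.sum_filter, Finset.filter_filter, Finset.sum_const, nsmul_eq_mul, mul_one]
    by_cases h : S ⊆ B
    · rw [if_pos h]
      have h1 := card_supersets h (S.card + m) (by omega)
      rw [hk B hB, Nat.add_sub_cancel_left] at h1
      rw [← h1]
      congr 2
      ext X
      simp only [Finset.mem_filter, Finset.mem_univ, true_and, Finset.mem_powersetCard]
      tauto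
    · rw [if_neg h]
      have : (univ : Finset (Finset Ω)).filter (fun X => (S ⊆ X ∧ X.card = S.card + m) ∧ X ⊆ B) = ∅ := by
        rw [Finset.filter_eq_empty_iff]
        rintro X - ⟨⟨h1, -⟩, h2⟩
        exact h (h1.trans h2)
      rw [this]
      simp
  rw [Finset.sum_congr rfl hB, ← Finset.sum_filter, Finset.sum_const, nsmul_eq_mul]
  rfl

end Pool.Agent.BY
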