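import Mathlib
import Pool.Agent.BY.EDefs
import Pool.Agent.BY.A1
import Pool.Agent.BY.A2

set_option autoImplicit false

namespace Pool.Agent.BY

open Finset Pool.Agent.BetaL Pool.Agent.MP_1e96f1_co

variable {Ω : Type*} [Fintype Ω] [DecidableEq Ω]

/-- The eigenvalue `x (L + x)`, `x = d + 2 n + 1`, belongs to the constants. (`x + L = v - x + 1`.)

Proof. Strong induction on `l ≤ n`: `F l = F 0`. For `l < n` the equation `EigF … .2.1 l` is
`l Ev(l-1) + (x - l) Ev(l) = x (v - x + 1) F l`; if `F (l-1) = F l = F 0` then `Ev(l-1) = ((k - (x - l)) + (v - k - l + 1)) F 0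
= (v - x + 1) F 0`, so `(x - l) Ev(l) = (x - l) (v - x + 1) F 0`, `Ev(l) = (v - x + 1) F 0` (`x - l ≠ 0`),
i.e. `(v - k - l) F (l + 1) = (v - x + 1 - (k - (x - 1 - l))) F 0 = (v - k - l) F 0`, and `v - k - l > 0`
(`l < n ≤ v - k`). -/
theorem eig_const {v k d n : ℕ} (hkv : n + k ≤ v) {F : ℕ → ℝ} {L : ℝ}
    (hL : L = (v : ℝ) - 2 * (d + 2 * n + 1 : ℕ) + 1)
    (hF : EigF v k d n F (((d + 2 * n + 1 : ℕ) : ℝ) * (L + (d + 2 * n + 1 : ℕ)))) :
    ∀ l ≤ n, F l = F 0 := by
  have hx0 : ((d + 2 * n + 1 : ℕ) : ℝ) ≠ 0 := by positivity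
  intro l
  induction l using Nat.strong_induction_on with
  | _ l ih =>
  intro hl
  rcases Nat.eq_zero_or_pos l with h | h
  · subst h; rfl
  obtain ⟨m, rfl⟩ : ∃ m, l = m + 1 := ⟨l - 1, by omega⟩
  have hm := ih m (by omega) (by omega)
  have heq := hF.2.1 m (by omega)
  have h1 : (m : ℝ) * Ev v k (d + 2 * n + 1) F (m - 1) =
      m * (((v : ℝ) - (d + 2 * n + 1 : ℕ) + 1) * F 0) := by
    rcases Nat.eq_zero_or_pos m with h0 | h0
    · subst h0; simp
    · obtain ⟨m', rfl⟩ : ∃ m', m = m' + 1 := ⟨m - 1, by omega⟩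
      simp only [Nat.add_sub_cancel]
      unfold Ev
      rw [hm, ih m' (by omega) (by omega)]
      push_cast
      ring
  rw [h1, hm, hL] at heq
  have hxm : (((d + 2 * n + 1 : ℕ) : ℝ) - m) ≠ 0 := by
    have : ((m : ℕ) : ℝ) < ((d + 2 * n + 1 : ℕ) : ℝ) := by exact_mod_cast (by omega : m < d + 2 * n + 1)
    exact (sub_pos.2 this).ne'
  have h2 : Ev v k (d + 2 * n + 1) F m = ((v : ℝ) - (d + 2 * n + 1 : ℕ) + 1) * F 0 := by
    apply mul_left_cancel₀ hxm
    linear_combination heq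
  unfold Ev at h2
  rw [hm] at h2
  have h3 : ((v : ℝ) - k - m) ≠ 0 := by
    have : ((k + m : ℕ) : ℝ) < (v : ℝ) := by exact_mod_cast (by omega : k + m < v)
    push_cast at this
    have h4 : 0 < (v : ℝ) - k - m := by linarith
    exact h4.ne'
  apply mul_left_cancel₀ h3
  linear_combination h2

/-- **The strength of the design.** (`T`, `F`, `c`, `j0` are those of `level_eigen`.)

Proof. Let `x = d + 2 n + 1`, `|S| = |S'| = τ`, `m = x - τ`, so `τ + m = x`; `δ l = if l = 0 then 1 else 0`.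
(1) For every `X` with `|X| = x`: `lev Bs n δ X = ∑ j, c j * lev Bs n (F j) X` (`lev_eq` for the block of
`beta_exists`, and `hc` for `l = (X \ B).card ≤ n`).
(2) By `dn_iter_sum` and (1), `dn^[m] (lev Bs n δ) Y = ∑ j, c j * dn^[m] (lev Bs n (F j)) Y` for `|Y| = τ`.
(3) For `j ≠ j0`, `T j + τ ≤ d + 2 n`: `lev Bs n (F j)` satisfies `up (dn f) X = μ f X` on `x`-sets with
`μ = T j (L + T j)` (as in the proof of `lloyd`: `up_dn_lev`, `lev_eq`), and `L = card Ω - 2 x + 1`
(`hD.card_points`), so `dn_iter_zero` gives `dn^[T j + 1] (lev Bs n (F j)) Z = 0` for all `|Z| = x - 1 - T j`;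
`m = (m - T j - 1) + (T j + 1)`, `dn^[m] f = dn^[m - T j - 1] (dn^[T j + 1] f)` (`Function.iterate_add_apply`)
and `dn_iter_sum` (the sets there have `τ + (m - T j - 1) = x - 1 - T j` elements) give
`dn^[m] (lev Bs n (F j)) Y = 0` for `|Y| = τ`.
(4) For `j = j0`: by `eig_const` and `lev_eq`, `lev Bs n (F j0) X = F j0 0` for `|X| = x`, so
`dn^[m] (lev Bs n (F j0)) Y = m! * (F j0 0 * C(v - τ, m))` for `|Y| = τ` (`dn_iter_sum`, `sup_all`), which
does not depend on `Y`.
(5) So `dn^[m] (lev Bs n δ) S = dn^[m] (lev Bs n δ) S'`; by `dn_iter_sum` and `lev_delta_sum` this is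
`m! * (nc Bs S * C(k - τ, m))`, and `m! * C(k - τ, m) ≠ 0`, as `τ + m = x ≤ k`. -/
theorem strength {Bs : Finset (Finset Ω)} {v k d n : ℕ} (hD : IsDesign Bs v k d)
    (hB : IsBeta Bs v d (n + 1)) (hk : d + 2 * n + 1 ≤ k) (hkv : n + k ≤ v) {L : ℝ}
    (hL : L = (v : ℝ) - 2 * (d + 2 * n + 1 : ℕ) + 1) (hL0 : 0 ≤ L)
    {T : Fin (n + 1) → ℕ} {F : Fin (n + 1) → ℕ → ℝ} {c : Fin (n + 1) → ℝ} {j0 : Fin (n + 1)}
    (hj0 : T j0 = d + 2 * n + 1) (hF : ∀ j, EigF v k d n (F j) ((T j : ℝ) * (L + T j)))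
    (hc : ∀ l ≤ n, ∑ j, c j * F j l = if l = 0 then 1 else 0)
    {τ : ℕ} (hτ : τ ≤ d + 2 * n) (hT : ∀ j, j ≠ j0 → T j + τ ≤ d + 2 * n) {S S' : Finset Ω} (hS : S.card = τ)
    (hS' : S'.card = τ) : nc Bs S = nc Bs S' := by
  classical
  set x := d + 2 * n + 1 with hx
  obtain ⟨m, hm⟩ : ∃ m, τ + m = x := ⟨x - τ, by omega⟩
  have hv : Fintype.card Ω = v := hD.card_points
  have hvx : 2 * x ≤ v + 1 := by
    have h1 : (0 : ℝ) ≤ (v : ℝ) - 2 * (x : ℕ) + 1 := by
      rw [← hL]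
      exact hL0
    have h2 : ((2 * x : ℕ) : ℝ) ≤ ((v + 1 : ℕ) : ℝ) := by
      push_cast at h1 ⊢
      linarith
    exact_mod_cast h2
  -- the eigenfunction property
  have hup : ∀ j, ∀ X : Finset Ω, X.card = x → up (dn (lev Bs n (F j))) X =
      ((T j : ℝ) * ((Fintype.card Ω : ℝ) - 2 * x + 1 + T j)) * lev Bs n (F j) X := by
    intro j X hX
    obtain ⟨B, hBs, hBn⟩ := beta_exists hB hX
    obtain ⟨h0, h1, h2⟩ := hF j
    have hLx : (T j : ℝ) * (L + T j) = (T j : ℝ) * ((Fintype.card Ω : ℝ) - 2 * x + 1 + T j) := by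
      rw [hL, hv]
    rw [up_dn_lev hD hB (F j) hX hBs hBn, lev_eq hB (F j) hX hBs hBn, ← hLx]
    rcases lt_or_eq_of_le hBn with h3 | h3
    · rw [if_pos h3]
      exact h1 _ h3
    · rw [h3, if_neg (lt_irrefl n)]
      exact h2
  have hfac : (m.factorial : ℝ) ≠ 0 := by exact_mod_cast (Nat.factorial_ne_zero m)
  -- the sums for `j ≠ j0`
  have hzero : ∀ j, j ≠ j0 → ∀ Y : Finset Ω, Y.card = τ →
      ∑ X ∈ (univ : Finset (Finset Ω)).filter (fun X => Y ⊆ X ∧ X.card = Y.card + m),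
        lev Bs n (F j) X = 0 := by
    intro j hj Y hY
    have h1 := hT j hj
    have h2 := dn_iter_zero (T j) x (lev Bs n (F j)) (by omega) (by rw [hv]; exact hvx) (hup j)
    have h3 : (dn^[m]) (lev Bs n (F j)) Y = 0 := by
      have e : m = (m - T j - 1) + (T j + 1) := by omega
      rw [e, Function.iterate_add_apply, dn_iter_sum]
      rw [Finset.sum_eq_zero, mul_zero]
      intro X hX
      rw [Finset.mem_filter] at hX
      apply h2
      rw [hX.2.2]
      omega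
    rw [dn_iter_sum] at h3
    rcases mul_eq_zero.1 h3 with h4 | h4
    · exact absurd h4 hfac
    · exact h4
  have hconst := eig_const (v := v) (k := k) (d := d) (n := n) (F := F j0) hkv hL (by
    have h1 := hF j0
    rw [hj0] at h1
    exact h1)
  -- the main formula
  have hmain : ∀ Y : Finset Ω, Y.card = τ → (nc Bs Y : ℝ) * ((k - τ).choose m : ℝ) =
      c j0 * (((v - τ).choose m : ℕ) * F j0 0) := by
    intro Y hY
    have h1 := lev_delta_sum (n := n) hD.card_block Y m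
    rw [hY] at h1
    rw [← h1]
    have h2 : ∀ X ∈ (univ : Finset (Finset Ω)).filter (fun X => Y ⊆ X ∧ X.card = τ + m),
        lev Bs n (fun l => if l = 0 then (1 : ℝ) else 0) X = ∑ j, c j * lev Bs n (F j) X := by
      intro X hX
      rw [Finset.mem_filter] at hX
      have hXx : X.card = d + 2 * n + 1 := by rw [hX.2.2, hm]
      obtain ⟨B, hBs, hBn⟩ := beta_exists hB hXx
      rw [lev_eq hB _ hXx hBs hBn]
      rw [Finset.sum_congr rfl (fun j _ => by rw [lev_eq hB (F j) hXx hBs hBn])]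
      exact (hc _ hBn).symm
    rw [Finset.sum_congr rfl h2, Finset.sum_comm]
    rw [Finset.sum_eq_single j0]
    · rw [← Finset.mul_sum]
      congr 1
      have h3 : ∀ X ∈ (univ : Finset (Finset Ω)).filter (fun X => Y ⊆ X ∧ X.card = τ + m),
          lev Bs n (F j0) X = F j0 0 := by
        intro X hX
        rw [Finset.mem_filter] at hX
        have hXx : X.card = d + 2 * n + 1 := by rw [hX.2.2, hm]
        obtain ⟨B, hBs, hBn⟩ := beta_exists hB hXx
        rw [lev_eq hB _ hXx hBs hBn]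
        exact hconst _ hBn
      rw [Finset.sum_congr rfl h3, Finset.sum_const, nsmul_eq_mul, sup_all Y (τ + m) (by omega), hv, hY]
      congr 3
      omega
    · intro j _ hj
      rw [← Finset.mul_sum]
      have h3 := hzero j hj Y hY
      rw [hY] at h3
      rw [h3, mul_zero]
    · intro h
      exact absurd (Finset.mem_univ j0) h
  have h1 := hmain S hS
  have h2 := hmain S' hS'
  have h3 : ((k - τ).choose m : ℝ) ≠ 0 := by
    have : 0 < (k - τ).choose m := Nat.choose_pos (by omega)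
    exact_mod_cast this.ne'
  have h4 : (nc Bs S : ℝ) = nc Bs S' := by
    apply mul_right_cancel₀ h3
    rw [h1, h2]
  exact_mod_cast h4

end Pool.Agent.BY
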