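import Mathlib
import Pool.Agent.BY.EDefs

set_option autoImplicit false

namespace Pool.Agent.BY

open Finset Pool.Agent.BetaL

/-- The converse of `zero_int`: a level eigenfunction gives a zero of the end function `G`.

Proof. Put `E l = (a + 1 + l) F l + (w - l) F (l + 1)`; with `x = d + 2 n + 1`, `a = k - x`, `w = v - k` this
is `Ev v k (d + 2 n + 1) F l`. So `l E (l-1) + (x - l) E l = lam F l` for `1 ≤ l < n`, `x E 0 = lam F 0`
(if `n ≥ 1`) and (last equation) `n E (n-1) + (x - n) (a + w + 1) F n = lam F n`.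
Let `FF l = hh w a l * (pe x w a lam l).1` (`Pool/Agent/BetaL/Recur.lean`). By induction on `l`:
`F l = F 0 * FF l` for `l ≤ n` and `E l = F 0 * (hh w a l * (pe x w a lam l).2)` for `l < n`. The second
follows from the first by the equation at `l` and
`l (hh (l-1) (pe (l-1)).2) + (x - l) (hh l (pe l).2) = lam (hh l (pe l).1)` (this is `hstep` in the proof of
`zero_int`; for `l = 0`: `x (pe 0).2 = lam`); the first at `l + 1`: `(w - l) F (l+1) = E l - (a + 1 + l) F l`,
`hh (l+1) = - hh l (a + 1 + l)/(w - l)`, `(pe (l+1)).1 = (pe l).1 - (pe l).2/(a + 1 + l)`. All of `a + 1 + l`,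
`w - l`, `x - l - 1` are nonzero for `l < n`.
At the end (`n = j + 1`) subtract `hstep` at `n` times `F 0` from the last equation:
`(x - n) F 0 hh n ((a + w + 1) (pe n).1 - (pe n).2) = 0`, and `x - n ≠ 0`, `F 0 ≠ 0`, `hh n ≠ 0`. -/
theorem G_of_eig {v k d n : ℕ} (hn : 1 ≤ n) (hk : d + 2 * n + 1 ≤ k) (hkv : n + k ≤ v)
    {F : ℕ → ℝ} {lam : ℝ} (hF : EigF v k d n F lam) {x a w : ℝ}
    (hx : x = ((d + 2 * n + 1 : ℕ) : ℝ)) (ha : a = k - x) (hw : w = v - k) :
    G x w a n lam = 0 := by
  obtain ⟨hF0, h2, h3⟩ := hF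
  have ha0 : 0 ≤ a := by
    have : ((d + 2 * n + 1 : ℕ) : ℝ) ≤ k := by exact_mod_cast hk
    rw [ha, hx]; linarith
  have hwn : (n : ℝ) ≤ w := by
    have : (n : ℝ) + k ≤ v := by exact_mod_cast hkv
    rw [hw]; linarith
  have hxn : (n : ℝ) + 1 ≤ x := by
    rw [hx]
    have : n + 1 ≤ d + 2 * n + 1 := by omega
    exact_mod_cast this
  have hkx : (k : ℝ) = x + a := by rw [ha]; ring
  have hvx : (v : ℝ) = x + a + w := by rw [ha, hw]; ring
  have hane : ∀ l : ℕ, a + 1 + l ≠ 0 := fun l => by positivity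
  have hwne : ∀ l : ℕ, l < n → w - l ≠ 0 := by
    intro l hl
    have : (l : ℝ) < n := by exact_mod_cast hl
    have : 0 < w - l := by linarith
    exact this.ne'
  have hxne : ∀ l : ℕ, l < n → x - l - 1 ≠ 0 := by
    intro l hl
    have : (l : ℝ) < n := by exact_mod_cast hl
    have : 0 < x - l - 1 := by linarith
    exact this.ne'
  have hx0 : x ≠ 0 := by
    have : 0 < x := by
      have : (0 : ℝ) ≤ n := by positivity
      linarith
    exact this.ne'
  have hE : ∀ l : ℕ, Ev v k (d + 2 * n + 1) F l = (a + 1 + l) * F l + (w - l) * F (l + 1) := by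
    intro l
    unfold Ev
    rw [← hx, hkx, hvx]
    ring
  rw [← hx] at h2 h3
  have hstep : ∀ l : ℕ, l < n → ((l + 1 : ℕ) : ℝ) * (hh w a l * (pe x w a lam l).2) +
      (x - (l + 1 : ℕ)) * (hh w a (l + 1) * (pe x w a lam (l + 1)).2) =
      lam * (hh w a (l + 1) * (pe x w a lam (l + 1)).1) := by
    intro l hl
    have h1 := hxne l hl
    have h2 := hane l
    have h3 := hwne l hl
    simp only [pe, hh]
    push_cast
    have h4 : x - ((l : ℝ) + 1) = x - l - 1 := by ring
    rw [h4]
    field_simp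
    ring
  have hmain : ∀ l : ℕ, l ≤ n → F l = F 0 * (hh w a l * (pe x w a lam l).1) ∧
      (l < n → Ev v k (d + 2 * n + 1) F l = F 0 * (hh w a l * (pe x w a lam l).2)) := by
    intro l
    induction l with
    | zero =>
      intro _
      refine ⟨by simp [hh, pe], fun hl => ?_⟩
      have := h2 0 hl
      simp only [Nat.cast_zero, zero_mul, zero_add, sub_zero] at this
      simp only [hh, pe]
      field_simp
      linarith
    | succ l ih =>
      intro hl
      obtain ⟨i1, i2⟩ := ih (by omega)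
      have i3 := i2 (by omega)
      have hl' : l < n := by omega
      have hA : F (l + 1) = F 0 * (hh w a (l + 1) * (pe x w a lam (l + 1)).1) := by
        rw [hE] at i3
        have h5 := hwne l hl'
        have h6 := hane l
        have h7 : (w - l) * F (l + 1) = (w - l) * (F 0 * (hh w a (l + 1) * (pe x w a lam (l + 1)).1)) := by
          have e : (w - l) * F (l + 1) = F 0 * (hh w a l * (pe x w a lam l).2) - (a + 1 + l) * F l := by
            linarith
          rw [e, i1]
          simp only [hh, pe]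
          field_simp
          ring
        exact mul_left_cancel₀ h5 h7
      refine ⟨hA, fun hl2 => ?_⟩
      have h8 := h2 (l + 1) hl2
      rw [show l + 1 - 1 = l by omega, i3, hA] at h8
      have h9 := hstep l hl'
      have h10 : x - ((l + 1 : ℕ) : ℝ) ≠ 0 := by
        have := hxne l hl'
        push_cast
        intro h
        apply this
        linarith
      refine mul_left_cancel₀ h10 ?_
      linear_combination h8 - F 0 * h9
  obtain ⟨j, rfl⟩ : ∃ j, n = j + 1 := ⟨n - 1, by omega⟩
  have hj := (hmain j (by omega)).2 (by omega)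
  have hj1 := (hmain (j + 1) le_rfl).1
  have hs := hstep j (by omega)
  rw [show j + 1 - 1 = j by omega, hj, hj1, hvx] at h3
  have hhne : ∀ l : ℕ, l ≤ j + 1 → hh w a l ≠ 0 := by
    intro l
    induction l with
    | zero => intro _; simp [hh]
    | succ l ih =>
      intro hl
      simp only [hh]
      exact neg_ne_zero.2 (mul_ne_zero (ih (by omega)) (div_ne_zero (hane l) (hwne l (by omega))))
  have hxj : x - ((j + 1 : ℕ) : ℝ) ≠ 0 := by
    have := hxne j (by omega)
    push_cast
    intro h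
    apply this
    linarith
  have hfin : ((x - ((j + 1 : ℕ) : ℝ)) * (F 0 * hh w a (j + 1))) * G x w a (j + 1) lam = 0 := by
    unfold G
    linear_combination h3 - F 0 * hs
  rcases mul_eq_zero.1 hfin with h | h
  · exact absurd h (mul_ne_zero hxj (mul_ne_zero hF0 (hhne (j + 1) le_rfl)))
  · exact h

/-- `G_of_eig` and `G_eq_Ps` (`w + a + 1 - x = L`, `w + a + 1 = x + L`): `0 = x G = (x (x + L) - lam) Ps`,
and `lam ≠ x (x + L)`. -/
theorem Ps_of_eig {v k d n : ℕ} (hn : 1 ≤ n) (hk : d + 2 * n + 1 ≤ k) (hkv : n + k ≤ v)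
    {F : ℕ → ℝ} {lam : ℝ} (hF : EigF v k d n F lam) {x a L : ℝ}
    (hx : x = ((d + 2 * n + 1 : ℕ) : ℝ)) (ha : a = k - x) (hL : L = v - 2 * x + 1)
    (hlam : lam ≠ x * (x + L)) : Ps n x a L lam = 0 := by
  have hG := G_of_eig hn hk hkv hF hx ha (rfl : (v : ℝ) - k = v - k)
  have ha0 : 0 ≤ a := by
    have : ((d + 2 * n + 1 : ℕ) : ℝ) ≤ k := by exact_mod_cast hk
    rw [ha, hx]; linarith
  have hnx : (n : ℝ) + 1 < x := by
    rw [hx]
    have : n + 1 < d + 2 * n + 1 := by omega
    exact_mod_cast this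
  have h1 := G_eq_Ps (w := (v : ℝ) - k) ha0 lam n hnx
  rw [hG, mul_zero, show (v : ℝ) - k + a + 1 - x = L by rw [ha, hL]; ring,
    show x * ((v : ℝ) - k + a + 1) = x * (x + L) by rw [ha, hL]; ring] at h1
  rcases mul_eq_zero.1 h1.symm with h | h
  · exact absurd (sub_eq_zero.1 h).symm hlam
  · exact h

end Pool.Agent.BY
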