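import Mathlib
import Pool.Agent.BY.A4
import Pool.Agent.BY.A5
import Pool.Agent.BY.P1

set_option autoImplicit false

namespace Pool.Agent.BY

open Finset Pool.Agent.BetaL Pool.Agent.MP_1e96f1_co

variable {Ω : Type*} [Fintype Ω] [DecidableEq Ω]

/-- **Zeros of the Lloyd polynomial and the strength of the design.** -/
theorem zeros {Bs : Finset (Finset Ω)} {v k d n : ℕ} (hD : IsDesign Bs v k d)
    (hB : IsBeta Bs v d (n + 1)) (hn : 1 ≤ n) (hk : d + 2 * n + 1 ≤ k) {x a L : ℝ}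
    (hx : x = ((d + 2 * n + 1 : ℕ) : ℝ)) (ha : a = k - x) (hL : L = v - 2 * x + 1)
    (hL0 : 0 ≤ L) :
    ∃ t : Fin n → ℕ, Function.Injective t ∧ (∀ j, 1 ≤ t j ∧ t j ≤ d + 2 * n) ∧
      (∀ j, Ps n x a L ((t j : ℝ) * (L + t j)) = 0) ∧
      ∀ τ : ℕ, (∀ j, t j + τ ≤ d + 2 * n) → ∀ S S' : Finset Ω, S.card = τ → S'.card = τ →
        nc Bs S = nc Bs S' := by
  obtain ⟨hdk, hkv⟩ := design_facts hD
  obtain ⟨T, F, c, j0, hTinj, hj0, hTj, hF, hc⟩ := level_eigen hD hB hn hk (by rw [hL, hx]) hL0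
  refine ⟨fun j => T (j0.succAbove j), fun i j hij => ?_, fun j => hTj _ (Fin.succAbove_ne j0 j), ?_, ?_⟩
  · exact Fin.succAbove_right_injective (hTinj hij)
  · intro j
    refine Ps_of_eig hn hk (by omega) (hF (j0.succAbove j)) hx ha hL ?_
    have h1 := (hTj _ (Fin.succAbove_ne j0 j)).2
    have h2 : (T (j0.succAbove j) : ℝ) < x := by
      rw [hx]
      exact_mod_cast (by omega : T (j0.succAbove j) < d + 2 * n + 1)
    have h3 : (0 : ℝ) ≤ T (j0.succAbove j) := by positivity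
    intro h
    nlinarith
  · intro τ hτ S S' hS hS'
    have hn0 : 0 < n := by omega
    refine strength hD hB hk (by omega) (by rw [hL, hx]) hL0 hj0 hF hc (τ := τ) ?_ ?_ hS hS'
    · have := hτ ⟨0, hn0⟩
      omega
    · intro j hj
      obtain ⟨i, hi⟩ := Fin.exists_succAbove_eq hj
      have h1 : T (j0.succAbove i) + τ ≤ d + 2 * n := hτ i
      rw [hi] at h1
      exact h1

end Pool.Agent.BY
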