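import Mathlib

set_option autoImplicit false

namespace Pool.Agent.BY

open Finset

/-- Few `q`-th powers in a short interval.

Proof. Trivial if `R` is empty (`A ≥ 1`, so the right side is `≥ 1`). Otherwise let `r₀ = R.min'`,
`r₁ = R.max'`. `R ⊆ Icc r₀ r₁`, so `R.card ≤ r₁ - r₀ + 1`, and
`A - 1 ≥ r₁^q - r₀^q ≥ q r₀^(q-1) (r₁ - r₀) ≥ q ρ (r₁ - r₀)`: Bernoulli, or
`r₁^q - r₀^q = (r₁ - r₀) ∑_{i<q} r₁^i r₀^(q-1-i)` (`Commute.geom_sum₂_mul` / `geom_sum₂_mul`) and each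
summand is `≥ r₀^(q-1)`. -/
theorem card_powers {q w A : ℕ} (hq : 1 ≤ q) (hA : 1 ≤ A) {ρ : ℝ} (hρ : 0 < ρ) (R : Finset ℕ)
    (hR : ∀ r ∈ R, w + 1 ≤ r ^ q ∧ r ^ q ≤ w + A) (hρ' : ∀ r ∈ R, ρ ≤ (r : ℝ) ^ (q - 1)) :
    (R.card : ℝ) ≤ 1 + ((A : ℝ) - 1) / (q * ρ) := by
  have hqρ : 0 < (q : ℝ) * ρ := mul_pos (by exact_mod_cast hq) hρ
  have hA' : (1 : ℝ) ≤ A := by exact_mod_cast hA
  rcases R.eq_empty_or_nonempty with rfl | hne
  · have : 0 ≤ ((A : ℝ) - 1) / (q * ρ) := div_nonneg (by linarith) hqρ.le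
    simp only [Finset.card_empty, Nat.cast_zero]
    linarith
  · obtain ⟨r₀, h0⟩ : ∃ r₀, r₀ = R.min' hne := ⟨_, rfl⟩
    obtain ⟨r₁, h1⟩ : ∃ r₁, r₁ = R.max' hne := ⟨_, rfl⟩
    have h0R : r₀ ∈ R := h0 ▸ R.min'_mem hne
    have h1R : r₁ ∈ R := h1 ▸ R.max'_mem hne
    have h01 : r₀ ≤ r₁ := by rw [h0]; exact R.min'_le _ h1R
    have hcard : R.card ≤ r₁ - r₀ + 1 := by
      have hsub : R ⊆ Finset.Icc r₀ r₁ := by
        intro r hr
        rw [Finset.mem_Icc, h0, h1]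
        exact ⟨R.min'_le _ hr, R.le_max' _ hr⟩
      have := Finset.card_le_card hsub
      rw [Nat.card_Icc] at this
      omega
    obtain ⟨t, rfl⟩ := Nat.exists_eq_add_of_le h01
    have hpow : q * (r₀ : ℝ) ^ (q - 1) * t ≤ ((r₀ : ℝ) + t) ^ q - (r₀ : ℝ) ^ q := by
      have h2 := geom_sum₂_mul ((r₀ : ℝ) + t) (r₀ : ℝ) q
      rw [← h2, add_sub_cancel_left]
      refine mul_le_mul_of_nonneg_right ?_ (Nat.cast_nonneg t)
      have h3 : ∑ _i ∈ Finset.range q, (r₀ : ℝ) ^ (q - 1) = q * (r₀ : ℝ) ^ (q - 1) := by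
        rw [Finset.sum_const, Finset.card_range, nsmul_eq_mul]
      rw [← h3]
      refine Finset.sum_le_sum fun i hi => ?_
      have hi' := Finset.mem_range.1 hi
      have h4 : (r₀ : ℝ) ^ (q - 1) = (r₀ : ℝ) ^ i * (r₀ : ℝ) ^ (q - 1 - i) := by
        rw [← pow_add]
        congr 1
        omega
      rw [h4]
      refine mul_le_mul_of_nonneg_right ?_ (pow_nonneg (Nat.cast_nonneg _) _)
      exact pow_le_pow_left₀ (Nat.cast_nonneg _) (by linarith [Nat.cast_nonneg (α := ℝ) t]) _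
    have hA1 : ((r₀ : ℝ) + t) ^ q - (r₀ : ℝ) ^ q ≤ (A : ℝ) - 1 := by
      have h2 := (hR _ h1R).2
      have h3 := (hR _ h0R).1
      have h4 : (r₀ + t) ^ q + 1 ≤ r₀ ^ q + A := by omega
      have h5 : (((r₀ + t) ^ q + 1 : ℕ) : ℝ) ≤ ((r₀ ^ q + A : ℕ) : ℝ) := by exact_mod_cast h4
      push_cast at h5
      linarith
    have hρt : (q : ℝ) * ρ * t ≤ (A : ℝ) - 1 := by
      refine le_trans ?_ (hpow.trans hA1)
      refine mul_le_mul_of_nonneg_right ?_ (Nat.cast_nonneg t)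
      exact mul_le_mul_of_nonneg_left (hρ' _ h0R) (Nat.cast_nonneg q)
    have ht : (t : ℝ) ≤ ((A : ℝ) - 1) / (q * ρ) := by
      rw [le_div_iff₀ hqρ]
      linarith
    have hc : (R.card : ℝ) ≤ t + 1 := by
      have : R.card ≤ t + 1 := by omega
      exact_mod_cast this
    linarith

end Pool.Agent.BY
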