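import Mathlib
import Pool.Agent.BY.Defs
import Pool.Agent.BY.C1

set_option autoImplicit false

namespace Pool.Agent.BY

open Finset

/-- **The primes with a power in the window.**

Proof. For `p ∈ G` choose `g p ≥ 2` (`choose`), let `q p = (g p).minFac` (a prime), `r p = p ^ (g p / q p)`;
then `(r p) ^ (q p) = p ^ (g p)` lies in `[w + 1, w + A]`, and `p ≤ r p` (`g p / q p ≥ 1`), so
`q p * log p ≤ q p * log (r p) = log (p ^ g p) ≤ log (w + A)`, i.e. `log p ≤ log (w + A) / q p`.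
`2 ^ (q p) ≤ (r p) ^ (q p) ≤ w + A < 2 ^ (Q + 1)`, so `q p ≤ Q`; `q p ≥ 2`.
So `∑_{p ∈ G} log p ≤ log (w + A) ∑_{p ∈ G} 1/q p = log (w + A) ∑_{q ∈ {2} ∪ primes of [3, Q]} |G_q| / q`,
`G_q = {p ∈ G : q p = q}` (`Finset.sum_fiberwise_of_maps_to` / `card_eq_sum_card_fiberwise`).
`|G_q| = |R_q|` for `R_q = G_q.image r` (`r` is injective on `G`: `p` is the only prime divisor of `r p`).
`card_powers` with `q = 2`, `ρ = ρ2`: `r ≥ ρ2` for `r ∈ R_2`, because `r² ≥ w + 1 ≥ ρ2²`. For `q ≥ 3`,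
`ρ = ρ3`: `(r^(q-1))^3 = r^(3q-3) ≥ r^(2q) ≥ (w + 1)² ≥ ρ3³`, so `r^(q-1) ≥ ρ3`
(`lt_of_pow_lt_pow_left₀`); and `1 + (A-1)/(q ρ3) ≤ 1 + (A-1)/(3 ρ3)`. `log (w + A) ≥ 0`. -/
theorem log_G {w A Q : ℕ} (hw : 1 ≤ w) (hA : 1 ≤ A) (hQ : w + A < 2 ^ (Q + 1)) (G : Finset ℕ)
    (hG : ∀ p ∈ G, p.Prime ∧ ∃ g, 2 ≤ g ∧ w + 1 ≤ p ^ g ∧ p ^ g ≤ w + A)
    {ρ2 ρ3 : ℝ} (h2 : 0 < ρ2) (h2' : ρ2 ^ 2 ≤ w + 1) (h3 : 0 < ρ3)
    (h3' : ρ3 ^ 3 ≤ ((w : ℝ) + 1) ^ 2) :
    ∑ p ∈ G, Real.log p ≤ Real.log ((w : ℝ) + A) *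
      (1 / 2 * (1 + ((A : ℝ) - 1) / (2 * ρ2)) + (1 + ((A : ℝ) - 1) / (3 * ρ3)) * SR Q) := by
  classical
  choose! g hg using fun p hp => (hG p hp).2
  have hpr : ∀ p ∈ G, p.Prime := fun p hp => (hG p hp).1
  obtain ⟨q, hq⟩ : ∃ q : ℕ → ℕ, q = fun p => (g p).minFac := ⟨_, rfl⟩
  have hqp : ∀ p ∈ G, (q p).Prime := by
    intro p hp
    rw [hq]
    exact Nat.minFac_prime (by have := (hg p hp).1; omega)
  have hqd : ∀ p, q p ∣ g p := by
    intro p
    rw [hq]
    exact Nat.minFac_dvd (g p)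
  have hA1 : (0 : ℝ) ≤ (A : ℝ) - 1 := by
    have : (1 : ℝ) ≤ A := by exact_mod_cast hA
    linarith
  have hwA : (1 : ℝ) ≤ (w : ℝ) + A := by
    have : (1 : ℝ) ≤ A := by exact_mod_cast hA
    have h5 : (0 : ℝ) ≤ w := Nat.cast_nonneg w
    linarith
  have hL0 : 0 ≤ Real.log ((w : ℝ) + A) := Real.log_nonneg hwA
  -- the exponent
  have hlog : ∀ p ∈ G, Real.log p ≤ Real.log ((w : ℝ) + A) * (1 / (q p : ℝ)) := by
    intro p hp
    have h5 := (hqp p hp).pos
    have h6 : (0 : ℝ) < q p := by exact_mod_cast h5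
    have h7 : q p ≤ g p := Nat.le_of_dvd (by have := (hg p hp).1; omega) (hqd p)
    have h8 : 0 ≤ Real.log p := Real.log_nonneg (by exact_mod_cast (hpr p hp).one_lt.le)
    have h9 : (q p : ℝ) * Real.log p ≤ (g p : ℝ) * Real.log p :=
      mul_le_mul_of_nonneg_right (by exact_mod_cast h7) h8
    have h10 : (g p : ℝ) * Real.log p ≤ Real.log ((w : ℝ) + A) := by
      rw [← Real.log_pow]
      apply Real.log_le_log
      · exact pow_pos (by exact_mod_cast (hpr p hp).pos) _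
      · exact_mod_cast (hg p hp).2.2
    rw [mul_one_div, le_div_iff₀ h6, mul_comm]
    exact h9.trans h10
  have hqQ : ∀ p ∈ G, q p ≤ Q := by
    intro p hp
    have h7 : q p ≤ g p := Nat.le_of_dvd (by have := (hg p hp).1; omega) (hqd p)
    have h8 : 2 ^ (q p) ≤ p ^ (g p) :=
      (Nat.pow_le_pow_right (by norm_num) h7).trans (Nat.pow_le_pow_left (hpr p hp).two_le _)
    have h9 : 2 ^ (q p) < 2 ^ (Q + 1) := lt_of_le_of_lt (h8.trans (hg p hp).2.2) hQ
    have h10 := (Nat.pow_lt_pow_iff_right (by norm_num : 1 < 2)).1 h9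
    omega
  obtain ⟨r, hr⟩ : ∃ r : ℕ → ℕ, r = fun p => p ^ (g p / q p) := ⟨_, rfl⟩
  have hrq : ∀ p, r p ^ q p = p ^ g p := by
    intro p
    rw [hr]
    show (p ^ (g p / q p)) ^ q p = p ^ g p
    rw [← pow_mul, Nat.div_mul_cancel (hqd p)]
  have hinj : ∀ p ∈ G, ∀ p' ∈ G, r p = r p' → p = p' := by
    intro p hp p' hp' h
    have h5 : g p / q p ≠ 0 := by
      intro h6
      have h7 := Nat.div_mul_cancel (hqd p)
      rw [h6, zero_mul] at h7
      have := (hg p hp).1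
      omega
    have h6 : p ∣ r p := by
      rw [hr]
      exact dvd_pow_self p h5
    rw [h, hr] at h6
    exact (Nat.prime_dvd_prime_iff_eq (hpr p hp) (hpr p' hp')).1 ((hpr p hp).dvd_of_dvd_pow h6)
  have hcard : ∀ (Q' : ℕ) (ρ : ℝ), 1 ≤ Q' → 0 < ρ → (∀ x : ℕ, w + 1 ≤ x ^ Q' → ρ ≤ (x : ℝ) ^ (Q' - 1)) →
      (((G.filter fun p => q p = Q').card : ℕ) : ℝ) ≤ 1 + ((A : ℝ) - 1) / (Q' * ρ) := by
    intro Q' ρ hQ' hρ hx
    have h5 : ((G.filter fun p => q p = Q').image r).card = (G.filter fun p => q p = Q').card := by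
      apply Finset.card_image_of_injOn
      intro p hp p' hp' h
      exact hinj p (Finset.mem_filter.1 hp).1 p' (Finset.mem_filter.1 hp').1 h
    rw [← h5]
    have h6 : ∀ y ∈ (G.filter fun p => q p = Q').image r, w + 1 ≤ y ^ Q' ∧ y ^ Q' ≤ w + A := by
      intro y hy
      obtain ⟨p, hp, rfl⟩ := Finset.mem_image.1 hy
      obtain ⟨hp1, hp2⟩ := Finset.mem_filter.1 hp
      rw [← hp2, hrq]
      exact (hg p hp1).2
    exact card_powers hQ' hA hρ _ h6 fun y hy => hx y (h6 y hy).1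
  have hS : ∑ p ∈ G, (1 / (q p : ℝ)) ≤ 1 / 2 * (1 + ((A : ℝ) - 1) / (2 * ρ2)) +
      (1 + ((A : ℝ) - 1) / (3 * ρ3)) * SR Q := by
    rw [← Finset.sum_filter_add_sum_filter_not G (fun p => q p = 2)]
    refine add_le_add ?_ ?_
    · have h5 : ∑ p ∈ G.filter (fun p => q p = 2), (1 / (q p : ℝ)) = ((G.filter fun p => q p = 2).card : ℝ) * (1 / 2) := by
        rw [← nsmul_eq_mul, ← Finset.sum_const]
        refine Finset.sum_congr rfl fun p hp => ?_
        rw [(Finset.mem_filter.1 hp).2]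
        norm_num
      rw [h5, mul_comm]
      refine mul_le_mul_of_nonneg_left ?_ (by norm_num)
      have h6 := hcard 2 ρ2 (by norm_num) h2 (by
        intro x hx
        rw [show 2 - 1 = 1 from rfl, pow_one]
        have h7 : ((w : ℝ) + 1) ≤ (x : ℝ) ^ 2 := by exact_mod_cast hx
        exact (pow_le_pow_iff_left₀ h2.le (Nat.cast_nonneg x) (by norm_num)).1 (h2'.trans h7))
      exact_mod_cast h6
    · have hmaps : ∀ p ∈ G.filter (fun p => ¬ q p = 2), q p ∈ (Finset.Icc 3 Q).filter Nat.Prime := by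
        intro p hp
        obtain ⟨hp1, hp2⟩ := Finset.mem_filter.1 hp
        have h5 := hqp p hp1
        have h6 := h5.two_le
        rw [Finset.mem_filter, Finset.mem_Icc]
        exact ⟨⟨by omega, hqQ p hp1⟩, h5⟩
      rw [← Finset.sum_fiberwise_of_maps_to hmaps, SR, Finset.mul_sum]
      refine Finset.sum_le_sum fun q' hq' => ?_
      obtain ⟨hq1, hq2⟩ := Finset.mem_filter.1 hq'
      have hq3 := (Finset.mem_Icc.1 hq1).1
      have hq4 : (3 : ℝ) ≤ q' := by exact_mod_cast hq3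
      have hq5 : (0 : ℝ) < q' := by linarith
      have h5 : ∑ p ∈ (G.filter (fun p => ¬ q p = 2)).filter (fun p => q p = q'), (1 / (q p : ℝ)) =
          ((((G.filter (fun p => ¬ q p = 2)).filter (fun p => q p = q')).card : ℕ) : ℝ) * (1 / (q' : ℝ)) := by
        rw [← nsmul_eq_mul, ← Finset.sum_const]
        refine Finset.sum_congr rfl fun p hp => ?_
        rw [(Finset.mem_filter.1 hp).2]
      rw [h5]
      refine mul_le_mul_of_nonneg_right ?_ (by positivity)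
      have h6 : ((G.filter (fun p => ¬ q p = 2)).filter (fun p => q p = q')).card ≤ (G.filter fun p => q p = q').card := by
        apply Finset.card_le_card
        intro p hp
        rw [Finset.mem_filter] at hp ⊢
        exact ⟨(Finset.mem_filter.1 hp.1).1, hp.2⟩
      have h7 := hcard q' ρ3 (by omega) h3 (by
        intro x hx
        have hx1 : 1 ≤ x := by
          by_contra h8
          have h9 : x = 0 := by omega
          rw [h9, zero_pow (by omega)] at hx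
          omega
        have h8 : ((w : ℝ) + 1) ≤ (x : ℝ) ^ q' := by exact_mod_cast hx
        have h9 : ((w : ℝ) + 1) ^ 2 ≤ ((x : ℝ) ^ q') ^ 2 := pow_le_pow_left₀ (by positivity) h8 2
        have h10 : ((x : ℝ) ^ q') ^ 2 ≤ ((x : ℝ) ^ (q' - 1)) ^ 3 := by
          rw [← pow_mul, ← pow_mul]
          exact pow_le_pow_right₀ (by exact_mod_cast hx1) (by omega)
        exact (pow_le_pow_iff_left₀ h3.le (by positivity) (by norm_num)).1 (h3'.trans (h9.trans h10)))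
      refine (show ((((G.filter (fun p => ¬ q p = 2)).filter (fun p => q p = q')).card : ℕ) : ℝ) ≤
        (((G.filter fun p => q p = q').card : ℕ) : ℝ) by exact_mod_cast h6).trans (h7.trans ?_)
      have h8 : ((A : ℝ) - 1) / (q' * ρ3) ≤ ((A : ℝ) - 1) / (3 * ρ3) :=
        div_le_div_of_nonneg_left hA1 (by positivity) (mul_le_mul_of_nonneg_right hq4 h3.le)
      linarith
  calc ∑ p ∈ G, Real.log p ≤ ∑ p ∈ G, Real.log ((w : ℝ) + A) * (1 / (q p : ℝ)) := Finset.sum_le_sum hlog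
    _ = Real.log ((w : ℝ) + A) * ∑ p ∈ G, (1 / (q p : ℝ)) := by rw [Finset.mul_sum]
    _ ≤ _ := mul_le_mul_of_nonneg_left hS hL0

end Pool.Agent.BY
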