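import Mathlib
import Pool.Agent.BY.Defs

set_option autoImplicit false

namespace Pool.Agent.BY

open Finset

/-- twice the constant in the bound `t² < c N` for the Lloyd zeros -/
def c2 (n a : ℕ) : ℕ := max (6 * n + 3 * a - 4) (8 * n + 4 * a - 12)

/-- the sum of the reciprocals of the primes in `[5, Q]` -/
noncomputable def SR5 (Q : ℕ) : ℝ := ∑ q ∈ (Finset.Icc 5 Q).filter Nat.Prime, (1 : ℝ) / q

/-- size check for `N ≥ Nl` -/
def chk0 (n a Nl tau : ℕ) : Bool :=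
  decide (10 ^ 6 * c2 n a ≤ 2 * tau ^ 2 * Nl) && decide (1000 * (1 + a) + n * tau ≤ 1000 * n) &&
  decide (2 * tau < 1000) && decide (2000 ≤ (1000 - 2 * tau) * Nl)

/-- the certificate check for `N ≥ Nl`; `e / 60` is a bound for `SR5 Q` -/
def chk (n a Nl tau sig nu m2 m3 m5 e : ℕ) : Bool :=
  decide (10 ^ 6 * c2 n a ≤ 2 * tau ^ 2 * Nl) && decide (10 ^ 6 * c2 n a ≤ 2 * sig ^ 2) &&
  decide (10 ^ 6 ≤ nu ^ 2 * Nl) && decide (sig + a * nu < 2000 * m2) &&
  decide ((sig + a * nu) ^ 6 < (3000 * m3) ^ 6 * Nl) &&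
  decide ((sig + a * nu) ^ 10 < (5000 * m5) ^ 10 * Nl ^ 3) &&
  decide (tau < 1000) && decide (30 * m2 + 20 * m3 + m5 * e ≤ 60 * n) &&
  decide ((n.factorial * (n + a).factorial) ^ 60 *
      (Nl * (1000 * n + 1000 * (1 + a) + n * tau)) ^ (30 * m2 + 20 * m3 + m5 * e) *
      1000 ^ (60 * n) <
    ((1000 - tau) * Nl) ^ (60 * n) * (1000 * n) ^ (30 * m2 + 20 * m3 + m5 * e))

/-- the certificate check for `N ≥ 2 ^ 255` -/
def chk8 (n a m2 f : ℕ) : Bool :=
  decide (n.factorial * (n + a).factorial < 2 ^ f) && decide (c2 n a < 8 * m2 ^ 2) &&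
  decide (10 ^ 4 * (f + n + 1) + 255 * (5000 * m2 + 6932 * n) < 255 * (10 ^ 4 * n + 600))

/-- integer square root, binary search -/
def isq (x : ℕ) : ℕ → ℕ → ℕ
  | 0, r => r
  | (b + 1), r => if (r + 2 ^ b) ^ 2 ≤ x then isq x b (r + 2 ^ b) else isq x b r

/-- from here on the certificates work -/
def N0 (n a : ℕ) : ℕ :=
  (if a = 0 then [70, 58, 62, 99, 105, 113, 133, 144, 191, 202, 222, 253, 286, 321, 358, 397]
    else [318, 132, 212, 174, 164, 165, 172, 233, 239, 248, 259, 272, 286, 321, 375, 422]).getD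
    (n - 3) (n ^ 2 + 4 * n + 1)

/-- `60 * SR5 (2 ^ (J + 1) - 1)`, rounded up -/
def eJ (J : ℕ) : ℕ := [0, 0, 21, 31, 44, 53, 62, 70].getD J 0

/-- the lower end of the range of `N` for `J` -/
def NJ (n a J : ℕ) : ℕ := max (N0 n a) (2 ^ (2 ^ J - 1))

/-- `tau` -/
def tauF (n a Nl : ℕ) : ℕ := isq (10 ^ 6 * c2 n a / (2 * Nl)) 10 0 + 1

/-- `sig` -/
def sigF (n a : ℕ) : ℕ := isq (10 ^ 6 * c2 n a / 2) 14 0 + 1

/-- `nu` -/
def nuF (Nl : ℕ) : ℕ := isq (10 ^ 6 / Nl) 10 0 + 1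

/-- `m2` -/
def m2F (n a Nl : ℕ) : ℕ := (sigF n a + a * nuF Nl) / 2000 + 1

/-- `m3` -/
def m3F (n a Nl : ℕ) : ℕ := if (sigF n a + a * nuF Nl) ^ 6 < 3000 ^ 6 * Nl then 1 else 2

/-- the certificate for `(n, a, J)` -/
def cert (n a J : ℕ) : Bool :=
  chk n a (NJ n a J) (tauF n a (NJ n a J)) (sigF n a) (nuF (NJ n a J)) (m2F n a (NJ n a J))
    (m3F n a (NJ n a J)) 1 (eJ J)

/-- Horner loop for the tail sums of the Lloyd sum at `T`; the state `(u, w, q)` at `j` stands for the value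
`(u - w) / q` of the tail sum with index `j`. The result is `1` if the sum is positive, `2` if it is
negative. -/
def lp (n a N L T j : ℕ) : (u w q : ℕ) → ℕ :=
  Nat.rec (fun u w _ => cond (Nat.ble (Nat.add w 1) u) 1 (cond (Nat.ble (Nat.add u 1) w) 2 0))
    (fun j ih u w q =>
      (fun c D => ih (Nat.add D (Nat.mul c w)) (Nat.mul c u) D)
        (Nat.mul (Nat.sub n j) (Nat.mul (Nat.sub T j) (Nat.add (Nat.add T L) j)))
        (Nat.mul (Nat.mul (Nat.mul (Nat.add j 1) (Nat.add (Nat.add a 1) j)) (Nat.sub N j)) q)) j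

/-- a sign change of the Lloyd polynomial in one of the intervals `(T', T' + 1)`, `T ≤ T' < T + f`; `s` is the
sign at `T` (`1` positive, `2` negative) -/
def srch (n a N L f : ℕ) : (T s : ℕ) → Bool :=
  Nat.rec (fun _ _ => false) (fun _ ih T s =>
    (fun s' => cond (Nat.beq (Nat.mul s s') 2) true (ih (Nat.add T 1) s'))
      (lp n a N L (Nat.add T 1) (Nat.add T 1) 1 0 1)) f

end Pool.Agent.BY
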