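import Mathlib
import Pool.Agent.BY.KDefs

set_option autoImplicit false

namespace Pool.Agent.BY

open Finset

/-- Few odd `q`-th powers in a short interval. -/
theorem card_powers_odd {q w A : ℕ} (hq : 1 ≤ q) (hA : 1 ≤ A) {ρ : ℝ} (hρ : 0 < ρ) (R : Finset ℕ)
    (hR : ∀ r ∈ R, w + 1 ≤ r ^ q ∧ r ^ q ≤ w + A) (hρ' : ∀ r ∈ R, ρ ≤ (r : ℝ) ^ (q - 1))
    (hodd : ∀ r ∈ R, r % 2 = 1) :
    (R.card : ℝ) ≤ 1 + ((A : ℝ) - 1) / (2 * q * ρ) := by
  have hqρ : 0 < 2 * (q : ℝ) * ρ := by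
    have : (0 : ℝ) < q := by exact_mod_cast hq
    positivity
  have hA' : (1 : ℝ) ≤ A := by exact_mod_cast hA
  rcases R.eq_empty_or_nonempty with rfl | hne
  · have : 0 ≤ ((A : ℝ) - 1) / (2 * q * ρ) := div_nonneg (by linarith) hqρ.le
    simp only [Finset.card_empty, Nat.cast_zero]
    linarith
  · obtain ⟨r₀, h0⟩ : ∃ r₀, r₀ = R.min' hne := ⟨_, rfl⟩
    obtain ⟨r₁, h1⟩ : ∃ r₁, r₁ = R.max' hne := ⟨_, rfl⟩
    have h0R : r₀ ∈ R := h0 ▸ R.min'_mem hne
    have h1R : r₁ ∈ R := h1 ▸ R.max'_mem hne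
    have h01 : r₀ ≤ r₁ := by rw [h0]; exact R.min'_le _ h1R
    have hcard : R.card ≤ (r₁ - r₀) / 2 + 1 := by
      have hinj : Set.InjOn (fun r : ℕ => (r - r₀) / 2) (R : Set ℕ) := by
        intro r hr r' hr' h
        have a1 : r₀ ≤ r := by rw [h0]; exact R.min'_le _ hr
        have a2 : r₀ ≤ r' := by rw [h0]; exact R.min'_le _ hr'
        have b0 := hodd _ h0R
        have b1 := hodd _ hr
        have b2 := hodd _ hr'
        simp only at h
        omega
      have hmap : ∀ r ∈ R, (fun r : ℕ => (r - r₀) / 2) r ∈ Finset.range ((r₁ - r₀) / 2 + 1) := by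
        intro r hr
        rw [Finset.mem_range]
        have a2 : r ≤ r₁ := by rw [h1]; exact R.le_max' _ hr
        simp only
        omega
      have := Finset.card_le_card_of_injOn _ hmap hinj
      rwa [Finset.card_range] at this
    obtain ⟨t, rfl⟩ := Nat.exists_eq_add_of_le h01
    have hpow : q * (r₀ : ℝ) ^ (q - 1) * t ≤ ((r₀ : ℝ) + t) ^ q - (r₀ : ℝ) ^ q := by
      have h2 := geom_sum₂_mul ((r₀ : ℝ) + t) (r₀ : ℝ) q
      rw [← h2, add_sub_cancel_left]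
      refine mul_le_mul_of_nonneg_right ?_ (Nat.cast_nonneg t)
      have h3 : ∑ _i ∈ Finset.range q, (r₀ : ℝ) ^ (q - 1) = q * (r₀ : ℝ) ^ (q - 1) := by
        rw [Finset.sum_const, Finset.card_range, nsmul_eq_mul]
      rw [← h3]
      refine Finset.sum_le_sum fun i hi => ?_
      have hi' := Finset.mem_range.1 hi
      have h4 : (r₀ : ℝ) ^ (q - 1) = (r₀ : ℝ) ^ i * (r₀ : ℝ) ^ (q - 1 - i) := by
        rw [← pow_add]
        congr 1
        omega
      rw [h4]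
      refine mul_le_mul_of_nonneg_right ?_ (pow_nonneg (Nat.cast_nonneg _) _)
      exact pow_le_pow_left₀ (Nat.cast_nonneg _) (by linarith [Nat.cast_nonneg (α := ℝ) t]) _
    have hA1 : ((r₀ : ℝ) + t) ^ q - (r₀ : ℝ) ^ q ≤ (A : ℝ) - 1 := by
      have h2 := (hR _ h1R).2
      have h3 := (hR _ h0R).1
      have h4 : (r₀ + t) ^ q + 1 ≤ r₀ ^ q + A := by omega
      have h5 : (((r₀ + t) ^ q + 1 : ℕ) : ℝ) ≤ ((r₀ ^ q + A : ℕ) : ℝ) := by exact_mod_cast h4
      push_cast at h5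
      linarith
    have hρt : (q : ℝ) * ρ * t ≤ (A : ℝ) - 1 := by
      refine le_trans ?_ (hpow.trans hA1)
      refine mul_le_mul_of_nonneg_right ?_ (Nat.cast_nonneg t)
      exact mul_le_mul_of_nonneg_left (hρ' _ h0R) (Nat.cast_nonneg q)
    have hs : ((t / 2 : ℕ) : ℝ) ≤ ((A : ℝ) - 1) / (2 * q * ρ) := by
      rw [le_div_iff₀ hqρ]
      have h2 : 2 * ((t / 2 : ℕ) : ℝ) ≤ t := by
        have : 2 * (t / 2) ≤ t := by omega
        exact_mod_cast this
      have h3 : 0 ≤ (q : ℝ) * ρ := by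
        have : (0 : ℝ) ≤ q := Nat.cast_nonneg q
        positivity
      have h4 : (q : ℝ) * ρ * (2 * ((t / 2 : ℕ) : ℝ)) ≤ (q : ℝ) * ρ * t :=
        mul_le_mul_of_nonneg_left h2 h3
      linarith
    have hc : (R.card : ℝ) ≤ ((t / 2 : ℕ) : ℝ) + 1 := by
      have : R.card ≤ t / 2 + 1 := by
        rw [Nat.add_sub_cancel_left] at hcard
        exact hcard
      exact_mod_cast this
    linarith

/-- **The odd primes with a power in the window, version with natural numbers.** Adapted from `log_G2`. -/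
theorem log_G3 {w A Q : ℕ} (hw : 1 ≤ w) (hA : 1 ≤ A) (hQ : w + A < 3 ^ (Q + 1)) (G : Finset ℕ)
    (hG : ∀ p ∈ G, p.Prime ∧ ∃ g, 2 ≤ g ∧ w + 1 ≤ p ^ g ∧ p ^ g ≤ w + A)
    (hG2 : ∀ p ∈ G, p ≠ 2)
    {ρ2 ρ3 ρ5 : ℝ} (h2 : 0 < ρ2) (h2' : ρ2 ^ 2 ≤ w + 1) (h3 : 0 < ρ3)
    (h3' : ρ3 ^ 3 ≤ ((w : ℝ) + 1) ^ 2) (h5 : 0 < ρ5) (h5' : ρ5 ^ 5 ≤ ((w : ℝ) + 1) ^ 4)
    {m2 m3 m5 : ℕ} (hm2 : (A : ℝ) - 1 < m2 * (4 * ρ2)) (hm3 : (A : ℝ) - 1 < m3 * (6 * ρ3))
    (hm5 : (A : ℝ) - 1 < m5 * (10 * ρ5)) :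
    ∑ p ∈ G, Real.log p ≤ Real.log ((w : ℝ) + A) * ((m2 : ℝ) / 2 + m3 / 3 + m5 * SR5 Q) := by
  classical
  choose! g hg using fun p hp => (hG p hp).2
  have hpr : ∀ p ∈ G, p.Prime := fun p hp => (hG p hp).1
  obtain ⟨q, hq⟩ : ∃ q : ℕ → ℕ, q = fun p => (g p).minFac := ⟨_, rfl⟩
  have hqp : ∀ p ∈ G, (q p).Prime := by
    intro p hp
    rw [hq]
    exact Nat.minFac_prime (by have := (hg p hp).1; omega)
  have hqd : ∀ p, q p ∣ g p := by
    intro p
    rw [hq]
    exact Nat.minFac_dvd (g p)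
  have hA1 : (0 : ℝ) ≤ (A : ℝ) - 1 := by
    have : (1 : ℝ) ≤ A := by exact_mod_cast hA
    linarith
  have hwA : (1 : ℝ) ≤ (w : ℝ) + A := by
    have : (1 : ℝ) ≤ A := by exact_mod_cast hA
    have h5 : (0 : ℝ) ≤ w := Nat.cast_nonneg w
    linarith
  have hL0 : 0 ≤ Real.log ((w : ℝ) + A) := Real.log_nonneg hwA
  -- the exponent
  have hlog : ∀ p ∈ G, Real.log p ≤ Real.log ((w : ℝ) + A) * (1 / (q p : ℝ)) := by
    intro p hp
    have h5 := (hqp p hp).pos
    have h6 : (0 : ℝ) < q p := by exact_mod_cast h5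
    have h7 : q p ≤ g p := Nat.le_of_dvd (by have := (hg p hp).1; omega) (hqd p)
    have h8 : 0 ≤ Real.log p := Real.log_nonneg (by exact_mod_cast (hpr p hp).one_lt.le)
    have h9 : (q p : ℝ) * Real.log p ≤ (g p : ℝ) * Real.log p :=
      mul_le_mul_of_nonneg_right (by exact_mod_cast h7) h8
    have h10 : (g p : ℝ) * Real.log p ≤ Real.log ((w : ℝ) + A) := by
      rw [← Real.log_pow]
      apply Real.log_le_log
      · exact pow_pos (by exact_mod_cast (hpr p hp).pos) _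
      · exact_mod_cast (hg p hp).2.2
    rw [mul_one_div, le_div_iff₀ h6, mul_comm]
    exact h9.trans h10
  have hqQ : ∀ p ∈ G, q p ≤ Q := by
    intro p hp
    have h7 : q p ≤ g p := Nat.le_of_dvd (by have := (hg p hp).1; omega) (hqd p)
    have h3p : 3 ≤ p := by
      have := (hpr p hp).two_le
      have := hG2 p hp
      omega
    have h8 : 3 ^ (q p) ≤ p ^ (g p) :=
      (Nat.pow_le_pow_right (by norm_num) h7).trans (Nat.pow_le_pow_left h3p _)
    have h9 : 3 ^ (q p) < 3 ^ (Q + 1) := lt_of_le_of_lt (h8.trans (hg p hp).2.2) hQ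
    have h10 := (Nat.pow_lt_pow_iff_right (by norm_num : 1 < 3)).1 h9
    omega
  obtain ⟨r, hr⟩ : ∃ r : ℕ → ℕ, r = fun p => p ^ (g p / q p) := ⟨_, rfl⟩
  have hrq : ∀ p, r p ^ q p = p ^ g p := by
    intro p
    rw [hr]
    show (p ^ (g p / q p)) ^ q p = p ^ g p
    rw [← pow_mul, Nat.div_mul_cancel (hqd p)]
  have hinj : ∀ p ∈ G, ∀ p' ∈ G, r p = r p' → p = p' := by
    intro p hp p' hp' h
    have h5 : g p / q p ≠ 0 := by
      intro h6
      have h7 := Nat.div_mul_cancel (hqd p)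
      rw [h6, zero_mul] at h7
      have := (hg p hp).1
      omega
    have h6 : p ∣ r p := by
      rw [hr]
      exact dvd_pow_self p h5
    rw [h, hr] at h6
    exact (Nat.prime_dvd_prime_iff_eq (hpr p hp) (hpr p' hp')).1 ((hpr p hp).dvd_of_dvd_pow h6)
  have hcard : ∀ (Q' : ℕ) (ρ : ℝ), 1 ≤ Q' → 0 < ρ → (∀ x : ℕ, w + 1 ≤ x ^ Q' → ρ ≤ (x : ℝ) ^ (Q' - 1)) →
      (((G.filter fun p => q p = Q').card : ℕ) : ℝ) ≤ 1 + ((A : ℝ) - 1) / (2 * Q' * ρ) := by
    intro Q' ρ hQ' hρ hx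
    have h5 : ((G.filter fun p => q p = Q').image r).card = (G.filter fun p => q p = Q').card := by
      apply Finset.card_image_of_injOn
      intro p hp p' hp' h
      exact hinj p (Finset.mem_filter.1 hp).1 p' (Finset.mem_filter.1 hp').1 h
    rw [← h5]
    have h6 : ∀ y ∈ (G.filter fun p => q p = Q').image r, w + 1 ≤ y ^ Q' ∧ y ^ Q' ≤ w + A := by
      intro y hy
      obtain ⟨p, hp, rfl⟩ := Finset.mem_image.1 hy
      obtain ⟨hp1, hp2⟩ := Finset.mem_filter.1 hp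
      rw [← hp2, hrq]
      exact (hg p hp1).2
    refine card_powers_odd hQ' hA hρ _ h6 (fun y hy => hx y (h6 y hy).1) ?_
    intro y hy
    obtain ⟨p, hp, rfl⟩ := Finset.mem_image.1 hy
    obtain ⟨hp1, hp2⟩ := Finset.mem_filter.1 hp
    rw [hr]
    have h7 : Odd p := (hpr p hp1).odd_of_ne_two (hG2 p hp1)
    exact Nat.odd_iff.1 (h7.pow)
  have hfib : ∀ (Q' m : ℕ) (ρ : ℝ), 1 ≤ Q' → 0 < ρ → (A : ℝ) - 1 < m * (2 * Q' * ρ) →
      (∀ x : ℕ, w + 1 ≤ x ^ Q' → ρ ≤ (x : ℝ) ^ (Q' - 1)) →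
      (G.filter fun p => q p = Q').card ≤ m := by
    intro Q' m ρ hQ' hρ hm hx
    have h5 := hcard Q' ρ hQ' hρ hx
    have h6 : 0 < 2 * (Q' : ℝ) * ρ := by
      have : (0 : ℝ) < Q' := by exact_mod_cast hQ'
      positivity
    have h7 : ((A : ℝ) - 1) / (2 * Q' * ρ) < m := by
      rw [div_lt_iff₀ h6]
      exact hm
    have h8 : (((G.filter fun p => q p = Q').card : ℕ) : ℝ) < 1 + (m : ℝ) := by linarith
    have h9 : (G.filter fun p => q p = Q').card < 1 + m := by exact_mod_cast h8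
    omega
  have hsumfib : ∀ (Q' : ℕ), ∑ p ∈ G.filter (fun p => q p = Q'), (1 / (q p : ℝ)) =
      ((G.filter fun p => q p = Q').card : ℝ) * (1 / (Q' : ℝ)) := by
    intro Q'
    rw [← nsmul_eq_mul, ← Finset.sum_const]
    refine Finset.sum_congr rfl fun p hp => ?_
    rw [(Finset.mem_filter.1 hp).2]
  have h1le : ∀ (x Q' : ℕ), 1 ≤ Q' → w + 1 ≤ x ^ Q' → 1 ≤ x := by
    intro x Q' hQ' hx
    by_contra h8
    have h9 : x = 0 := by omega
    rw [h9, zero_pow (by omega)] at hx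
    omega
  have hS : ∑ p ∈ G, (1 / (q p : ℝ)) ≤ (m2 : ℝ) / 2 + m3 / 3 + m5 * SR5 Q := by
    rw [← Finset.sum_filter_add_sum_filter_not G (fun p => q p = 2),
      ← Finset.sum_filter_add_sum_filter_not (G.filter (fun p => ¬ q p = 2)) (fun p => q p = 3), ← add_assoc]
    refine add_le_add (add_le_add ?_ ?_) ?_
    · rw [hsumfib 2]
      have h6 := hfib 2 m2 ρ2 (by norm_num) h2 (by push_cast; linarith) (by
        intro x hx
        rw [show 2 - 1 = 1 from rfl, pow_one]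
        have h7 : ((w : ℝ) + 1) ≤ (x : ℝ) ^ 2 := by exact_mod_cast hx
        exact (pow_le_pow_iff_left₀ h2.le (Nat.cast_nonneg x) (by norm_num)).1 (h2'.trans h7))
      have h7 : ((G.filter fun p => q p = 2).card : ℝ) ≤ m2 := by exact_mod_cast h6
      push_cast
      linarith
    · have h8 : (G.filter (fun p => ¬ q p = 2)).filter (fun p => q p = 3) = G.filter (fun p => q p = 3) := by
        ext p
        simp only [Finset.mem_filter]
        constructor
        · rintro ⟨⟨h, _⟩, h'⟩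
          exact ⟨h, h'⟩
        · rintro ⟨h, h'⟩
          exact ⟨⟨h, by omega⟩, h'⟩
      rw [h8, hsumfib 3]
      have h6 := hfib 3 m3 ρ3 (by norm_num) h3 (by push_cast; linarith) (by
        intro x hx
        rw [show 3 - 1 = 2 from rfl]
        have h7 : ((w : ℝ) + 1) ≤ (x : ℝ) ^ 3 := by exact_mod_cast hx
        have h9 : ((w : ℝ) + 1) ^ 2 ≤ ((x : ℝ) ^ 3) ^ 2 := pow_le_pow_left₀ (by positivity) h7 2
        have h10 : ((x : ℝ) ^ 3) ^ 2 = ((x : ℝ) ^ 2) ^ 3 := by ring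
        rw [h10] at h9
        exact (pow_le_pow_iff_left₀ h3.le (by positivity) (by norm_num)).1 (h3'.trans h9))
      have h7 : ((G.filter fun p => q p = 3).card : ℝ) ≤ m3 := by exact_mod_cast h6
      push_cast
      linarith
    · have hmaps : ∀ p ∈ (G.filter (fun p => ¬ q p = 2)).filter (fun p => ¬ q p = 3),
          q p ∈ (Finset.Icc 5 Q).filter Nat.Prime := by
        intro p hp
        obtain ⟨hp0, hp3⟩ := Finset.mem_filter.1 hp
        obtain ⟨hp1, hp2⟩ := Finset.mem_filter.1 hp0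
        have h5 := hqp p hp1
        have h6 := h5.two_le
        have h7 : q p ≠ 4 := by
          intro h8
          rw [h8] at h5
          exact absurd h5 (by norm_num)
        rw [Finset.mem_filter, Finset.mem_Icc]
        exact ⟨⟨by omega, hqQ p hp1⟩, h5⟩
      rw [← Finset.sum_fiberwise_of_maps_to hmaps, SR5, Finset.mul_sum]
      refine Finset.sum_le_sum fun q' hq' => ?_
      obtain ⟨hq1, hq2⟩ := Finset.mem_filter.1 hq'
      have hq3 := (Finset.mem_Icc.1 hq1).1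
      have hq4 : (5 : ℝ) ≤ q' := by exact_mod_cast hq3
      have hq5 : (0 : ℝ) < q' := by linarith
      have h8 : ((G.filter (fun p => ¬ q p = 2)).filter (fun p => ¬ q p = 3)).filter (fun p => q p = q') =
          G.filter (fun p => q p = q') := by
        ext p
        simp only [Finset.mem_filter]
        constructor
        · rintro ⟨⟨⟨h, _⟩, _⟩, h'⟩
          exact ⟨h, h'⟩
        · rintro ⟨h, h'⟩
          exact ⟨⟨⟨h, by omega⟩, by omega⟩, h'⟩
      rw [h8, hsumfib q']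
      refine mul_le_mul_of_nonneg_right ?_ (by positivity)
      have hm5' : (A : ℝ) - 1 < m5 * (2 * q' * ρ5) := by
        refine hm5.trans_le ?_
        have h9 : 10 * ρ5 ≤ 2 * q' * ρ5 := mul_le_mul_of_nonneg_right (by linarith) h5.le
        exact mul_le_mul_of_nonneg_left h9 (Nat.cast_nonneg _)
      have h6 := hfib q' m5 ρ5 (by omega) h5 hm5' (by
        intro x hx
        have hx1 : 1 ≤ x := h1le x q' (by omega) hx
        have h8 : ((w : ℝ) + 1) ≤ (x : ℝ) ^ q' := by exact_mod_cast hx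
        have h9 : ((w : ℝ) + 1) ^ 4 ≤ ((x : ℝ) ^ q') ^ 4 := pow_le_pow_left₀ (by positivity) h8 4
        have h10 : ((x : ℝ) ^ q') ^ 4 ≤ ((x : ℝ) ^ (q' - 1)) ^ 5 := by
          rw [← pow_mul, ← pow_mul]
          exact pow_le_pow_right₀ (by exact_mod_cast hx1) (by omega)
        exact (pow_le_pow_iff_left₀ h5.le (by positivity) (by norm_num)).1 (h5'.trans (h9.trans h10)))
      exact_mod_cast h6
  calc ∑ p ∈ G, Real.log p ≤ ∑ p ∈ G, Real.log ((w : ℝ) + A) * (1 / (q p : ℝ)) := Finset.sum_le_sum hlog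
    _ = Real.log ((w : ℝ) + A) * ∑ p ∈ G, (1 / (q p : ℝ)) := by rw [Finset.mul_sum]
    _ ≤ _ := mul_le_mul_of_nonneg_left hS hL0

end Pool.Agent.BY
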