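import Mathlib
import Pool.Agent.BY.KDefs

set_option autoImplicit false

namespace Pool.Agent.BY

open Finset

/-- `SR5` is monotone. -/
theorem SR5_mono3 {Q Q' : ℕ} (h : Q ≤ Q') : SR5 Q ≤ SR5 Q' := by
  unfold SR5
  refine Finset.sum_le_sum_of_subset_of_nonneg ?_ fun q _ _ => by positivity
  intro q hq
  rw [Finset.mem_filter, Finset.mem_Icc] at hq ⊢
  exact ⟨⟨hq.1.1, hq.1.2.trans h⟩, hq.2⟩

/-- `SR5` and `SR` differ by the prime `3`. -/
theorem SR_eq3 {Q : ℕ} (h : 3 ≤ Q) : SR Q = 1 / 3 + SR5 Q := by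
  unfold SR SR5
  have e : (Finset.Icc 3 Q).filter Nat.Prime = insert 3 ((Finset.Icc 5 Q).filter Nat.Prime) := by
    ext q
    simp only [Finset.mem_filter, Finset.mem_Icc, Finset.mem_insert]
    constructor
    · rintro ⟨⟨h1, h2⟩, h3⟩
      rcases Nat.lt_or_ge q 5 with h5 | h5
      · left
        have : q ≠ 4 := by
          intro h4
          rw [h4] at h3
          exact absurd h3 (by norm_num)
        omega
      · exact Or.inr ⟨⟨h5, h2⟩, h3⟩
    · rintro (rfl | ⟨⟨h1, h2⟩, h3⟩)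
      · exact ⟨⟨le_rfl, h⟩, by norm_num⟩
      · exact ⟨⟨by omega, h2⟩, h3⟩
  rw [e, Finset.sum_insert (by simp)]
  norm_num

end Pool.Agent.BY
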