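import Mathlib
import Pool.Agent.BY.KDefs

set_option autoImplicit false

namespace Pool.Agent.BY

open Finset

private lemma rho_exists (N : ℕ) (hN : 0 < N) :
    ∃ z ρ3 ρ5 : ℝ, 0 < z ∧ z ^ 2 = (N : ℝ) ∧ 0 < ρ3 ∧ ρ3 ^ 3 = (N : ℝ) ^ 2 ∧ 0 < ρ5 ∧
      ρ5 ^ 5 = (N : ℝ) ^ 4 := by
  have hN' : (0 : ℝ) < N := by exact_mod_cast hN
  refine ⟨Real.sqrt N, (N : ℝ) ^ ((2 : ℝ) / 3), (N : ℝ) ^ ((4 : ℝ) / 5), Real.sqrt_pos.mpr hN',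
    Real.sq_sqrt hN'.le, Real.rpow_pos_of_pos hN' _, ?_, Real.rpow_pos_of_pos hN' _, ?_⟩
  · rw [← Real.rpow_natCast, ← Real.rpow_mul hN'.le, ← Real.rpow_natCast]
    norm_num
  · rw [← Real.rpow_natCast, ← Real.rpow_mul hN'.le, ← Real.rpow_natCast]
    norm_num

/-- **Window part of the certificate.**

Proof (`z = √N`, real numbers). (1) `1000 t < sig z`: squares, `10^6 t² < 10^6 c2 N/2 ≤ sig² N`. (2) `1000 ≤ nu z`: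
`10^6 ≤ nu² Nl ≤ nu² N`. With `a ≤ 1` (`a = 0` or `a = 1`): `1000 (t + a) < (sig + a nu) z`. Take
`ρ2 = z`, `ρ3 = N^(2/3)`, `ρ5 = N^(4/5)` (`Real.rpow`; only `ρ3^3 = N^2`, `ρ5^5 = N^4`, positivity are used;
`N ≤ w`). `m2`: `1000 (t + a) < (sig + a nu) z ≤ 4000 m2 z`. `m3`: compare sixth powers,
`(1000 (t+a))^6 < (sig + a nu)^6 N^3 ≤ (6000 m3)^6 Nl N^3 ≤ (6000 m3)^6 N^4 = (6000 m3 ρ3)^6`
(`lt_of_pow_lt_pow_left₀`). `m5`: tenth powers, `(1000 (t+a))^10 < (sig + a nu)^10 N^5 ≤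
(10000 m5)^10 Nl^3 N^5 ≤ (10000 m5)^10 N^8 = (10000 m5 ρ5)^10`. -/
theorem window_sound3 {n a Nl sig nu m2 m3 m5 N t w : ℕ} (ha : a ≤ 1)
    (h1 : 10 ^ 6 * c2 n a ≤ 2 * sig ^ 2) (h2 : 10 ^ 6 ≤ nu ^ 2 * Nl)
    (h3 : sig + a * nu < 4000 * m2) (h4 : (sig + a * nu) ^ 6 < (6000 * m3) ^ 6 * Nl)
    (h5 : (sig + a * nu) ^ 10 < (10000 * m5) ^ 10 * Nl ^ 3) (hNl : Nl ≤ N)
    (ht : 2 * t ^ 2 < c2 n a * N) (hw1 : N + 1 + a ≤ w) :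
    ∃ ρ2 ρ3 ρ5 : ℝ, 0 < ρ2 ∧ ρ2 ^ 2 ≤ (w : ℝ) + 1 ∧ 0 < ρ3 ∧ ρ3 ^ 3 ≤ ((w : ℝ) + 1) ^ 2 ∧ 0 < ρ5 ∧
      ρ5 ^ 5 ≤ ((w : ℝ) + 1) ^ 4 ∧ ((t + 1 + a : ℕ) : ℝ) - 1 < m2 * (4 * ρ2) ∧
      ((t + 1 + a : ℕ) : ℝ) - 1 < m3 * (6 * ρ3) ∧ ((t + 1 + a : ℕ) : ℝ) - 1 < m5 * (10 * ρ5) := by
  have hNlpos : 0 < Nl := by
    rcases Nat.eq_zero_or_pos Nl with h | h
    · subst h; simp at h2
    · exact h
  have hNpos : 0 < N := lt_of_lt_of_le hNlpos hNl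
  obtain ⟨z, ρ3, ρ5, hz, hz2, hρ3, hρ33, hρ5, hρ55⟩ := rho_exists N hNpos
  have hNR : (0 : ℝ) < N := by exact_mod_cast hNpos
  have hNlR : (Nl : ℝ) ≤ N := by exact_mod_cast hNl
  have hNw : (N : ℝ) ≤ (w : ℝ) + 1 := by
    have : (N : ℝ) + 1 + a ≤ w := by exact_mod_cast hw1
    have ha0 : (0 : ℝ) ≤ a := Nat.cast_nonneg a
    linarith
  -- (1)
  have hs1 : (1000 * (t : ℝ)) < sig * z := by
    have e1 : 10 ^ 6 * t ^ 2 < sig ^ 2 * N := by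
      have e2 : 10 ^ 6 * (2 * t ^ 2) < 10 ^ 6 * (c2 n a * N) :=
        Nat.mul_lt_mul_of_pos_left ht (by norm_num)
      have e3 : 10 ^ 6 * (c2 n a * N) ≤ 2 * sig ^ 2 * N := by
        rw [← mul_assoc]; exact Nat.mul_le_mul_right _ h1
      nlinarith [e2, e3]
    have e1R : (10 : ℝ) ^ 6 * (t : ℝ) ^ 2 < (sig : ℝ) ^ 2 * N := by exact_mod_cast e1
    apply lt_of_pow_lt_pow_left₀ 2 (by positivity)
    rw [mul_pow, mul_pow, hz2]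
    calc (1000 : ℝ) ^ 2 * (t : ℝ) ^ 2 = (10 : ℝ) ^ 6 * (t : ℝ) ^ 2 := by norm_num
      _ < _ := e1R
  -- (2)
  have hs2 : (1000 : ℝ) ≤ nu * z := by
    have e1 : 10 ^ 6 ≤ nu ^ 2 * N := h2.trans (Nat.mul_le_mul_left _ hNl)
    have e1R : (10 : ℝ) ^ 6 ≤ (nu : ℝ) ^ 2 * N := by exact_mod_cast e1
    apply le_of_sq_le_sq _ (by positivity)
    rw [mul_pow, hz2]
    calc (1000 : ℝ) ^ 2 = (10 : ℝ) ^ 6 := by norm_num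
      _ ≤ _ := e1R
  have hs : 1000 * ((t : ℝ) + a) < ((sig + a * nu : ℕ) : ℝ) * z := by
    have : a = 0 ∨ a = 1 := by omega
    rcases this with rfl | rfl
    · push_cast; linarith
    · push_cast; linarith
  have hta : ((t + 1 + a : ℕ) : ℝ) - 1 = (t : ℝ) + a := by push_cast; ring
  have hta0 : (0 : ℝ) ≤ 1000 * ((t : ℝ) + a) := by positivity
  set s : ℕ := sig + a * nu with hsdef
  refine ⟨z, ρ3, ρ5, hz, by rw [hz2]; exact hNw, hρ3, ?_, hρ5, ?_, ?_, ?_, ?_⟩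
  · rw [hρ33]; exact pow_le_pow_left₀ hNR.le hNw 2
  · rw [hρ55]; exact pow_le_pow_left₀ hNR.le hNw 4
  · rw [hta]
    have e1 : ((s : ℕ) : ℝ) < 4000 * m2 := by exact_mod_cast h3
    have e2 : (s : ℝ) * z ≤ 4000 * m2 * z := mul_le_mul_of_nonneg_right e1.le hz.le
    nlinarith [hs, e2]
  · rw [hta]
    have e1 : ((s : ℕ) : ℝ) ^ 6 ≤ (6000 * m3) ^ 6 * Nl := by exact_mod_cast h4.le
    have e2 : (1000 * ((t : ℝ) + a)) ^ 6 < ((s : ℝ) * z) ^ 6 := pow_lt_pow_left₀ hs hta0 (by norm_num)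
    have e3 : ((s : ℝ) * z) ^ 6 = (s : ℝ) ^ 6 * (N : ℝ) ^ 3 := by
      rw [mul_pow, show z ^ 6 = (z ^ 2) ^ 3 by ring, hz2]
    have e4 : (s : ℝ) ^ 6 * (N : ℝ) ^ 3 ≤ (6000 * m3) ^ 6 * N * (N : ℝ) ^ 3 := by
      apply mul_le_mul_of_nonneg_right _ (by positivity)
      exact e1.trans (mul_le_mul_of_nonneg_left hNlR (by positivity))
    have e5 : (6000 * (m3 : ℝ)) ^ 6 * N * (N : ℝ) ^ 3 = (6000 * m3 * ρ3) ^ 6 := by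
      rw [mul_pow (6000 * (m3 : ℝ)) ρ3, show ρ3 ^ 6 = (ρ3 ^ 3) ^ 2 by ring, hρ33]
      ring
    have e6 : (1000 * ((t : ℝ) + a)) ^ 6 < (6000 * m3 * ρ3) ^ 6 := by
      rw [← e5]; exact lt_of_lt_of_le (e3 ▸ e2) e4
    have e7 : 1000 * ((t : ℝ) + a) < 6000 * m3 * ρ3 :=
      lt_of_pow_lt_pow_left₀ 6 (by positivity) e6
    nlinarith [e7]
  · rw [hta]
    have e1 : ((s : ℕ) : ℝ) ^ 10 ≤ (10000 * m5) ^ 10 * (Nl : ℝ) ^ 3 := by exact_mod_cast h5.le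
    have e2 : (1000 * ((t : ℝ) + a)) ^ 10 < ((s : ℝ) * z) ^ 10 := pow_lt_pow_left₀ hs hta0 (by norm_num)
    have e3 : ((s : ℝ) * z) ^ 10 = (s : ℝ) ^ 10 * (N : ℝ) ^ 5 := by
      rw [mul_pow, show z ^ 10 = (z ^ 2) ^ 5 by ring, hz2]
    have hNlR3 : (Nl : ℝ) ^ 3 ≤ (N : ℝ) ^ 3 := pow_le_pow_left₀ (Nat.cast_nonneg _) hNlR 3
    have e4 : (s : ℝ) ^ 10 * (N : ℝ) ^ 5 ≤ (10000 * m5) ^ 10 * (N : ℝ) ^ 3 * (N : ℝ) ^ 5 := by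
      apply mul_le_mul_of_nonneg_right _ (by positivity)
      exact e1.trans (mul_le_mul_of_nonneg_left hNlR3 (by positivity))
    have e5 : (10000 * (m5 : ℝ)) ^ 10 * (N : ℝ) ^ 3 * (N : ℝ) ^ 5 = (10000 * m5 * ρ5) ^ 10 := by
      rw [mul_pow (10000 * (m5 : ℝ)) ρ5, show ρ5 ^ 10 = (ρ5 ^ 5) ^ 2 by ring, hρ55]
      ring
    have e6 : (1000 * ((t : ℝ) + a)) ^ 10 < (10000 * m5 * ρ5) ^ 10 := by
      rw [← e5]; exact lt_of_lt_of_le (e3 ▸ e2) e4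
    have e7 : 1000 * ((t : ℝ) + a) < 10000 * m5 * ρ5 :=
      lt_of_pow_lt_pow_left₀ 10 (by positivity) e6
    nlinarith [e7]

end Pool.Agent.BY
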