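import Mathlib
import Pool.Agent.BY.KDefs

set_option autoImplicit false

namespace Pool.Agent.BY

open Finset

/-- **Logarithmic part of the certificate.**

Proof. `k = 30 m2 + 20 m3 + m5 e ≤ 60 n`, `om = 1000 n + 1000 (1 + a) + n tau`, `M = 2 n! (n+a)!`. `h` says
`M^60 (Nl om)^k 1000^(60 n) < ((1000 - tau) Nl)^(60 n) (1000 n)^k`. Multiply by `(N/Nl)^k ≤ (N/Nl)^(60 n)`
(`N/Nl ≥ 1`): in real numbers `M^60 (N om/(1000 n))^k < ((1000 - tau) N/1000)^(60 n)`. Logarithms: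
`60 log M + k log (N om/(1000 n)) < 60 n log ((1000 - tau) N/1000)`.
`1000 t ≤ tau N`: squares, `10^6 t² < 10^6 c2 N/2 ≤ tau² Nl N ≤ tau² N²`. So `log (N + 1 - t) ≥
log ((1000 - tau) N/1000)`. `w + (t + 1 + a) ≤ N om/(1000 n)`: `n w ≤ N (n + 1 + a) - n (1 + a)` (`hw2`), so
`n (w + t + 1 + a) ≤ N (n + 1 + a) + n t ≤ N (n + 1 + a) + n tau N/1000`. Finally `log (w + t + 1 + a) ≥ 0` and
`60 (m2/2 + m3/3 + m5 S) ≤ k`. Divide by 60. -/
theorem log_sound3 {n a Nl tau m2 m3 m5 e N t w : ℕ} {S : ℝ} (hn : 2 ≤ n) (ha : a ≤ 1)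
    (h1 : 10 ^ 6 * c2 n a ≤ 2 * tau ^ 2 * Nl) (h2 : tau < 1000)
    (h3 : 30 * m2 + 20 * m3 + m5 * e ≤ 60 * n)
    (h : (2 * (n.factorial * (n + a).factorial)) ^ 60 *
      (Nl * (1000 * n + 1000 * (1 + a) + n * tau)) ^ (30 * m2 + 20 * m3 + m5 * e) *
      1000 ^ (60 * n) <
    ((1000 - tau) * Nl) ^ (60 * n) * (1000 * n) ^ (30 * m2 + 20 * m3 + m5 * e))
    (hNl : Nl ≤ N) (hNl1 : 1 ≤ Nl) (ht : 2 * t ^ 2 < c2 n a * N) (hw1 : N + 1 + a ≤ w)
    (hw2 : n * (w + (N + 1 + a)) ≤ N * (2 * n + 1 + a)) (hS : S ≤ (e : ℝ) / 60) :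
    Real.log ((2 * (n.factorial * (n + a).factorial) : ℕ) : ℝ) +
        Real.log ((w : ℝ) + (t + 1 + a : ℕ)) * ((m2 : ℝ) / 2 + m3 / 3 + m5 * S) <
        n * Real.log ((N : ℝ) + 1 - t) := by
  have hn0 : 0 < n := by omega
  have hNpos : 0 < N := lt_of_lt_of_le hNl1 hNl
  have ht1 : 1000 * t ≤ tau * N := by
    by_contra hcon
    push Not at hcon
    have e1 : (tau * N) ^ 2 < (1000 * t) ^ 2 := Nat.pow_lt_pow_left hcon (by norm_num)
    have e2 : 10 ^ 6 * (2 * t ^ 2) < 10 ^ 6 * (c2 n a * N) :=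
      Nat.mul_lt_mul_of_pos_left ht (by norm_num)
    have e3 : 10 ^ 6 * (c2 n a * N) ≤ 2 * tau ^ 2 * Nl * N := by
      rw [← mul_assoc]; exact Nat.mul_le_mul_right _ h1
    have e4 : 2 * tau ^ 2 * Nl * N ≤ 2 * tau ^ 2 * N * N :=
      Nat.mul_le_mul_right _ (Nat.mul_le_mul_left _ hNl)
    have e5 : 2 * tau ^ 2 * N * N = 2 * (tau * N) ^ 2 := by ring
    have e6 : 10 ^ 6 * (2 * t ^ 2) = 2 * (1000 * t) ^ 2 := by ring
    omega
  have hA : (w + (t + 1 + a)) * (1000 * n) ≤ N * (1000 * n + 1000 * (1 + a) + n * tau) := by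
    have e1 : n * (1000 * t) ≤ n * (tau * N) := Nat.mul_le_mul_left _ ht1
    nlinarith [e1, hw2]
  have hB : (1000 - tau) * N + 1000 * t ≤ 1000 * (N + 1) := by
    have e1 : (1000 - tau) * N + tau * N = 1000 * N := by
      rw [← Nat.add_mul, Nat.sub_add_cancel h2.le]
    omega
  have hlog := h
  set k : ℕ := 30 * m2 + 20 * m3 + m5 * e with hk
  set M : ℕ := 2 * (n.factorial * (n + a).factorial) with hM
  set om : ℕ := 1000 * n + 1000 * (1 + a) + n * tau with hom
  set u : ℕ := 1000 - tau with hu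
  have hMpos : 0 < M := Nat.mul_pos (by norm_num) (Nat.mul_pos (Nat.factorial_pos _) (Nat.factorial_pos _))
  have hompos : 0 < om := by omega
  have hupos : 0 < u := by omega
  have hMR : (0 : ℝ) < M := by exact_mod_cast hMpos
  have homR : (0 : ℝ) < om := by exact_mod_cast hompos
  have huR : (0 : ℝ) < u := by exact_mod_cast hupos
  have hNlR : (0 : ℝ) < Nl := by exact_mod_cast hNl1
  have hNR : (0 : ℝ) < N := by exact_mod_cast hNpos
  have hnR : (0 : ℝ) < n := by exact_mod_cast hn0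
  have hcast : (M : ℝ) ^ 60 * ((Nl : ℝ) * om) ^ k * (1000 : ℝ) ^ (60 * n) <
      ((u : ℝ) * Nl) ^ (60 * n) * ((1000 : ℝ) * n) ^ k := by exact_mod_cast hlog
  have hl := Real.log_lt_log (by positivity) hcast
  rw [Real.log_mul (by positivity) (by positivity), Real.log_mul (by positivity) (by positivity),
    Real.log_mul (by positivity) (by positivity), Real.log_pow, Real.log_pow, Real.log_pow,
    Real.log_pow, Real.log_pow, Real.log_mul (by positivity) (by positivity),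
    Real.log_mul (by positivity) (by positivity), Real.log_mul (by positivity) (by positivity)] at hl
  have hLN : Real.log Nl ≤ Real.log N := Real.log_le_log hNlR (by exact_mod_cast hNl)
  -- claim A
  have hWpos : (1 : ℝ) ≤ (w : ℝ) + ((t + 1 + a : ℕ) : ℝ) := by
    have : 1 ≤ w + (t + 1 + a) := by omega
    exact_mod_cast this
  have hWA : Real.log ((w : ℝ) + ((t + 1 + a : ℕ) : ℝ)) ≤
      Real.log N + Real.log om - Real.log 1000 - Real.log n := by
    have e1 : ((w : ℝ) + ((t + 1 + a : ℕ) : ℝ)) * (1000 * n) ≤ (N : ℝ) * om := by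
      exact_mod_cast hA
    have e2 := Real.log_le_log (by positivity) e1
    rw [Real.log_mul (by positivity) (by positivity), Real.log_mul (by positivity) (by positivity),
      Real.log_mul (by positivity) (by positivity)] at e2
    linarith
  -- claim B
  have hBB : Real.log u + Real.log N - Real.log 1000 ≤ Real.log ((N : ℝ) + 1 - t) := by
    have e1 : (u : ℝ) * N ≤ 1000 * ((N : ℝ) + 1 - t) := by
      have : (u : ℝ) * N + 1000 * t ≤ 1000 * ((N : ℝ) + 1) := by exact_mod_cast hB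
      linarith
    have hpos : 0 < (N : ℝ) + 1 - t := by
      have : 0 < (u : ℝ) * N := by positivity
      linarith
    have e2 := Real.log_le_log (by positivity) e1
    rw [Real.log_mul (by positivity) (by positivity), Real.log_mul (by positivity) hpos.ne'] at e2
    linarith
  have hLW0 : 0 ≤ Real.log ((w : ℝ) + ((t + 1 + a : ℕ) : ℝ)) := Real.log_nonneg hWpos
  have hkR : (k : ℝ) = 30 * m2 + 20 * m3 + m5 * e := by rw [hk]; push_cast; ring
  have hk60 : (k : ℝ) ≤ 60 * n := by exact_mod_cast h3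
  have hc : 60 * ((m2 : ℝ) / 2 + m3 / 3 + m5 * S) ≤ k := by
    rw [hkR]
    have : (m5 : ℝ) * S ≤ m5 * (e / 60) := mul_le_mul_of_nonneg_left hS (Nat.cast_nonneg _)
    linarith
  set LW := Real.log ((w : ℝ) + ((t + 1 + a : ℕ) : ℝ)) with hLW
  have f1 : LW * (60 * ((m2 : ℝ) / 2 + m3 / 3 + m5 * S)) ≤ LW * k :=
    mul_le_mul_of_nonneg_left hc hLW0
  have f2 : (k : ℝ) * LW ≤ k * (Real.log N + Real.log om - Real.log 1000 - Real.log n) :=
    mul_le_mul_of_nonneg_left hWA (Nat.cast_nonneg _)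
  have f3 : (k : ℝ) * (Real.log N - Real.log Nl) ≤ 60 * n * (Real.log N - Real.log Nl) :=
    mul_le_mul_of_nonneg_right hk60 (by linarith)
  have f4 : (60 * n : ℝ) * (Real.log u + Real.log N - Real.log 1000) ≤
      60 * n * Real.log ((N : ℝ) + 1 - t) :=
    mul_le_mul_of_nonneg_left hBB (by positivity)
  push_cast at hl
  have hgoal : 60 * (Real.log (M : ℝ) + LW * ((m2 : ℝ) / 2 + m3 / 3 + m5 * S)) <
      60 * (n * Real.log ((N : ℝ) + 1 - t)) := by
    linarith [f1, f2, f3, f4, hl]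
  linarith

end Pool.Agent.BY
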