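import Mathlib
import Pool.Agent.BY.KDefs

set_option autoImplicit false

namespace Pool.Agent.BY

open Finset

private lemma rho_exists (N : ℕ) (hN : 0 < N) :
    ∃ z ρ3 ρ5 : ℝ, 0 < z ∧ z ^ 2 = (N : ℝ) ∧ 0 < ρ3 ∧ ρ3 ^ 3 = (N : ℝ) ^ 2 ∧ 0 < ρ5 ∧
      ρ5 ^ 5 = (N : ℝ) ^ 4 := by
  have hN' : (0 : ℝ) < N := by exact_mod_cast hN
  refine ⟨Real.sqrt N, (N : ℝ) ^ ((2 : ℝ) / 3), (N : ℝ) ^ ((4 : ℝ) / 5), Real.sqrt_pos.mpr hN',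
    Real.sq_sqrt hN'.le, Real.rpow_pos_of_pos hN' _, ?_, Real.rpow_pos_of_pos hN' _, ?_⟩
  · rw [← Real.rpow_natCast, ← Real.rpow_mul hN'.le, ← Real.rpow_natCast]
    norm_num
  · rw [← Real.rpow_natCast, ← Real.rpow_mul hN'.le, ← Real.rpow_natCast]
    norm_num

/-- **The certificate for `N ≥ 2^200`, window part.** (`m3 = m5 = 1`.)

Proof. `c2 n a ≤ 488` (`n ≤ 62`, `a ≤ 1`), so `t² < 244 N` and `t < 16 √N`. `ρ2 = √N = z`, `ρ3 = N^(2/3)`,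
`ρ5 = N^(4/5)` (`Real.rpow`; only `ρ3^3 = N^2`, `ρ5^5 = N^4`, positivity are used; `N ≤ w`).
`m2`: `2 (t + a)² ≤ 2 t² + 4 t + 2 ≤ c2 N - 1 + 4 t + 2 < (c2 + 1) N ≤ 32 m2² N`, so `t + a < 4 m2 z`.
`m3`: `(t + a)² ≤ 300 N`, `(t+a)^6 ≤ 300^3 N^3 < N^4 = ρ3^6`. `m5`: `(t+a)^10 ≤ 300^5 N^5 < N^8 = ρ5^10`. -/
theorem window8c {n a m2 N t w : ℕ} (hn' : n ≤ 62) (ha : a ≤ 1)
    (h : c2 n a < 32 * m2 ^ 2) (hN : 2 ^ 200 ≤ N)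
    (ht : 2 * t ^ 2 < c2 n a * N) (hw1 : N + 1 + a ≤ w) :
    ∃ ρ2 ρ3 ρ5 : ℝ, 0 < ρ2 ∧ ρ2 ^ 2 ≤ (w : ℝ) + 1 ∧ 0 < ρ3 ∧ ρ3 ^ 3 ≤ ((w : ℝ) + 1) ^ 2 ∧ 0 < ρ5 ∧
      ρ5 ^ 5 ≤ ((w : ℝ) + 1) ^ 4 ∧ ((t + 1 + a : ℕ) : ℝ) - 1 < m2 * (4 * ρ2) ∧
      ((t + 1 + a : ℕ) : ℝ) - 1 < (1 : ℕ) * (6 * ρ3) ∧
      ((t + 1 + a : ℕ) : ℝ) - 1 < (1 : ℕ) * (10 * ρ5) := by
  have hNpos : 0 < N := lt_of_lt_of_le (by positivity) hN
  obtain ⟨z, ρ3, ρ5, hz, hz2, hρ3, hρ33, hρ5, hρ55⟩ := rho_exists N hNpos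
  have hNR : (0 : ℝ) < N := by exact_mod_cast hNpos
  have hNw : (N : ℝ) ≤ (w : ℝ) + 1 := by
    have : (N : ℝ) + 1 + a ≤ w := by exact_mod_cast hw1
    have ha0 : (0 : ℝ) ≤ a := Nat.cast_nonneg a
    linarith
  have hc2 : c2 n a ≤ 488 := by
    unfold c2
    apply max_le <;> omega
  have hNbig : 300 ^ 5 < N := lt_of_lt_of_le (by norm_num) hN
  -- t is small compared with N
  have ht2 : t ^ 2 < 244 * N := by
    have e1 : c2 n a * N ≤ 488 * N := Nat.mul_le_mul_right _ hc2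
    omega
  have ht1 : 244 * t ≤ N := by
    by_contra hcon
    push Not at hcon
    have e1 : N * N < (244 * t) * (244 * t) := Nat.mul_lt_mul_of_lt_of_lt hcon hcon
    have e2 : (244 * t) * (244 * t) = 244 ^ 2 * t ^ 2 := by ring
    have e3 : 244 ^ 2 * t ^ 2 < 244 ^ 2 * (244 * N) := Nat.mul_lt_mul_of_pos_left ht2 (by norm_num)
    have e4 : N * N < (244 ^ 3) * N := by
      calc N * N < 244 ^ 2 * (244 * N) := by rw [e2] at e1; exact e1.trans e3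
        _ = 244 ^ 3 * N := by ring
    have e5 : N < 244 ^ 3 := Nat.lt_of_mul_lt_mul_right e4
    have e6 : (244 : ℕ) ^ 3 < 300 ^ 5 := by norm_num
    omega
  have hsq : (t + a) ^ 2 ≤ t ^ 2 + 2 * t + 1 := by
    have h0 : (t + a) ^ 2 ≤ (t + 1) ^ 2 := Nat.pow_le_pow_left (by omega) 2
    calc (t + a) ^ 2 ≤ (t + 1) ^ 2 := h0
      _ = t ^ 2 + 2 * t + 1 := by ring
  have hta : ((t + 1 + a : ℕ) : ℝ) - 1 = (t : ℝ) + a := by push_cast; ring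
  have hta0 : (0 : ℝ) ≤ (t : ℝ) + a := by positivity
  have h300 : ((t : ℝ) + a) ^ 2 ≤ 300 * N := by
    have : (t + a) ^ 2 ≤ 300 * N := by omega
    exact_mod_cast this
  have hbigR : (300 : ℝ) ^ 5 < N := by exact_mod_cast hNbig
  refine ⟨z, ρ3, ρ5, hz, by rw [hz2]; exact hNw, hρ3, ?_, hρ5, ?_, ?_, ?_, ?_⟩
  · rw [hρ33]; exact pow_le_pow_left₀ hNR.le hNw 2
  · rw [hρ55]; exact pow_le_pow_left₀ hNR.le hNw 4
  · rw [hta]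
    have e1 : (c2 n a + 1) * N ≤ 32 * m2 ^ 2 * N := Nat.mul_le_mul_right _ h
    have e2 : 2 * (t + a) ^ 2 < 32 * m2 ^ 2 * N := by
      have e3 : (c2 n a + 1) * N = c2 n a * N + N := by ring
      have e4 : 2 * (t + a) ^ 2 < (c2 n a + 1) * N := by rw [e3]; omega
      exact lt_of_lt_of_le e4 e1
    have e2R : 2 * ((t : ℝ) + a) ^ 2 < 32 * (m2 : ℝ) ^ 2 * N := by exact_mod_cast e2
    apply lt_of_pow_lt_pow_left₀ 2 (by positivity)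
    rw [mul_pow, mul_pow, hz2]
    nlinarith [e2R]
  · rw [hta]
    have e2 : (((t : ℝ) + a) ^ 2) ^ 3 ≤ (300 * (N : ℝ)) ^ 3 :=
      pow_le_pow_left₀ (by positivity) h300 3
    have e3 : (300 * (N : ℝ)) ^ 3 < (N : ℝ) ^ 4 := by
      have : (300 : ℝ) ^ 3 < N := lt_trans (by norm_num) hbigR
      calc (300 * (N : ℝ)) ^ 3 = 300 ^ 3 * (N : ℝ) ^ 3 := by ring
        _ < N * (N : ℝ) ^ 3 := mul_lt_mul_of_pos_right this (by positivity)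
        _ = (N : ℝ) ^ 4 := by ring
    have e4 : (N : ℝ) ^ 4 = ρ3 ^ 6 := by
      rw [show ρ3 ^ 6 = (ρ3 ^ 3) ^ 2 by ring, hρ33]; ring
    have e5 : ((t : ℝ) + a) ^ 6 < ρ3 ^ 6 := by
      calc ((t : ℝ) + a) ^ 6 = (((t : ℝ) + a) ^ 2) ^ 3 := by ring
        _ ≤ _ := e2
        _ < _ := e3
        _ = _ := e4
    have e6 : (t : ℝ) + a < ρ3 := lt_of_pow_lt_pow_left₀ 6 hρ3.le e5
    push_cast
    linarith
  · rw [hta]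
    have e2 : (((t : ℝ) + a) ^ 2) ^ 5 ≤ (300 * (N : ℝ)) ^ 5 :=
      pow_le_pow_left₀ (by positivity) h300 5
    have e3 : (300 * (N : ℝ)) ^ 5 < (N : ℝ) ^ 8 := by
      have h1N : (1 : ℝ) ≤ (N : ℝ) ^ 2 := by
        have : (1 : ℝ) ≤ N := by exact_mod_cast hNpos
        exact one_le_pow₀ this
      calc (300 * (N : ℝ)) ^ 5 = 300 ^ 5 * (N : ℝ) ^ 5 := by ring
        _ < N * (N : ℝ) ^ 5 := mul_lt_mul_of_pos_right hbigR (by positivity)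
        _ = (N : ℝ) ^ 6 * 1 := by ring
        _ ≤ (N : ℝ) ^ 6 * (N : ℝ) ^ 2 := mul_le_mul_of_nonneg_left h1N (by positivity)
        _ = (N : ℝ) ^ 8 := by ring
    have e4 : (N : ℝ) ^ 8 = ρ5 ^ 10 := by
      rw [show ρ5 ^ 10 = (ρ5 ^ 5) ^ 2 by ring, hρ55]; ring
    have e5 : ((t : ℝ) + a) ^ 10 < ρ5 ^ 10 := by
      calc ((t : ℝ) + a) ^ 10 = (((t : ℝ) + a) ^ 2) ^ 5 := by ring
        _ ≤ _ := e2
        _ < _ := e3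
        _ = _ := e4
    have e6 : (t : ℝ) + a < ρ5 := lt_of_pow_lt_pow_left₀ 10 hρ5.le e5
    push_cast
    linarith

end Pool.Agent.BY
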