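import Mathlib
import Pool.Agent.BY.KDefs

set_option autoImplicit false

namespace Pool.Agent.BY

open Finset

/-- `60 * SR5 (2 ^ (J + 1) - 1)`, rounded up -/
def eJ3 (J : ℕ) : ℕ := [0, 0, 21, 31, 44, 53, 62, 70, 77, 83, 88, 93].getD J 0

end Pool.Agent.BY
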