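import Mathlib
import Pool.Agent.BY.D0

set_option autoImplicit false

namespace Pool.Agent.BY

open Finset

/-- the primes up to `61` -/
private def d6_pl : List ℕ := [2, 3, 5, 7, 11, 13, 17, 19, 23, 29, 31, 37, 41, 43, 47, 53, 59, 61]

private def d6_tst (m : ℕ) : Bool :=
  (Nat.gcd m 117288381359406970983270 == 1) || d6_pl.contains m

/-- the sum of `f` over `s, ..., s + 2 ^ d - 1` -/
private def d6_sumF (f : ℕ → ℕ) : ℕ → ℕ → ℕ
  | 0, s => f s
  | d + 1, s => d6_sumF f d s + d6_sumF f d (s + 2 ^ d)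

private theorem d6_sumF_eq (f : ℕ → ℕ) (d : ℕ) : ∀ s : ℕ,
    d6_sumF f d s = ∑ m ∈ range (2 ^ d), f (s + m) := by
  induction d with
  | zero => intro s; simp [d6_sumF]
  | succ d ih =>
    intro s
    rw [d6_sumF, ih, ih, pow_succ, mul_two, sum_range_add]
    congr 1
    exact sum_congr rfl fun m _ => by rw [add_assoc]

private theorem d6_prime : ∀ a ∈ d6_pl, Nat.Prime a := by
  simp only [d6_pl, List.mem_cons, List.not_mem_nil, or_false]
  rintro a (rfl | rfl | rfl | rfl | rfl | rfl | rfl | rfl | rfl | rfl | rfl | rfl | rfl | rfl | rfl |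
    rfl | rfl | rfl) <;> norm_num

private theorem d6_prod : 117288381359406970983270 = d6_pl.prod := by decide +kernel

private theorem d6_tst_of {p : ℕ} (hp : p.Prime) : d6_tst p = true := by
  unfold d6_tst
  by_cases h : p ∈ d6_pl
  · simp [h]
  · have hc : Nat.gcd p 117288381359406970983270 = 1 := by
      rw [d6_prod]
      refine (Nat.Prime.coprime_iff_not_dvd hp).2 fun hd => ?_
      obtain ⟨a, ha, hpa⟩ := (Nat.Prime.prime hp).dvd_prod_iff.1 hd
      rw [Nat.prime_dvd_prime_iff_eq hp (d6_prime a ha)] at hpa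
      exact h (hpa ▸ ha)
    rw [hc]
    simp

private def d6_f (Q m : ℕ) : ℕ :=
  if (Nat.ble 5 m && Nat.ble m Q && d6_tst m) = true then 10 ^ 9 / m + 1 else 0

private theorem d6_main (Q d : ℕ) (hQ : Q < 2 ^ d) :
    SR5 Q ≤ (d6_sumF (d6_f Q) d 0 : ℝ) / 10 ^ 9 := by
  have h1 : SR5 Q ≤ ∑ q ∈ (Finset.Icc 5 Q).filter Nat.Prime, (d6_f Q q : ℝ) / 10 ^ 9 := by
    refine sum_le_sum fun q hq => ?_
    obtain ⟨hq1, hq2⟩ := mem_filter.1 hq
    obtain ⟨hq3, hq4⟩ := mem_Icc.1 hq1
    have hf : d6_f Q q = 10 ^ 9 / q + 1 := by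
      unfold d6_f
      rw [if_pos]
      rw [Nat.ble_eq_true_of_le hq3, Nat.ble_eq_true_of_le hq4, d6_tst_of hq2]
      rfl
    have hq0 : 0 < q := by omega
    have hq0' : (0 : ℝ) < q := by exact_mod_cast hq0
    rw [hf, div_le_div_iff₀ hq0' (by norm_num), one_mul]
    have h2 := (Nat.lt_mul_div_succ (10 ^ 9) hq0).le
    have h3 : ((10 ^ 9 : ℕ) : ℝ) ≤ ((q * (10 ^ 9 / q + 1) : ℕ) : ℝ) := by exact_mod_cast h2
    push_cast at h3 ⊢
    linarith
  have h2 : ∑ q ∈ (Finset.Icc 5 Q).filter Nat.Prime, (d6_f Q q : ℝ) / 10 ^ 9 ≤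
      ∑ m ∈ range (2 ^ d), (d6_f Q m : ℝ) / 10 ^ 9 := by
    refine sum_le_sum_of_subset_of_nonneg ?_ (fun m _ _ => by positivity)
    intro q hq
    have h3 := (mem_Icc.1 (mem_filter.1 hq).1).2
    exact mem_range.2 (by omega)
  refine (h1.trans h2).trans (le_of_eq ?_)
  rw [d6_sumF_eq, ← sum_div]
  push_cast
  simp only [zero_add]

private theorem d6_use (Q d e : ℕ) (hQ : Q < 2 ^ d) (h : 60 * d6_sumF (d6_f Q) d 0 ≤ e * 10 ^ 9) :
    SR5 Q ≤ (e : ℝ) / 60 := by
  have h1 := d6_main Q d hQ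
  have h2 : ((60 * d6_sumF (d6_f Q) d 0 : ℕ) : ℝ) ≤ ((e * 10 ^ 9 : ℕ) : ℝ) := by exact_mod_cast h
  push_cast at h2
  linarith

/-- Table. The exact values of `60 * SR5 (2 ^ (J + 1) - 1)`, `J = 2, ..., 11`, are about 20.571, 30.641, 43.942,
52.831, 61.460, 69.018, 76.040, 82.121, 87.725, 92.923; `eJ3` is the list
`0, 0, 21, 31, 44, 53, 62, 70, 77, 83, 88, 93`.

One way (integer arithmetic, kernel). Let `P = 2 * 3 * 5 * ... * 61` and `tst m = (gcd m P = 1 or m is one of the
primes 5, 7, ..., 61)`. Every prime `p ≥ 5` satisfies `tst p`. So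
`SR5 Q ≤ ∑_{5 ≤ m ≤ Q, tst m} 1/m ≤ 10^(-9) ∑_{5 ≤ m ≤ Q, tst m} (10^9 / m + 1)` (natural division), and the last
sum is a number computed by a structurally recursive function (or `Finset.sum` over `List.range`), to be
compared with `10^9 * eJ3 J / 60` by `decide +kernel` (`Nat.gcd`, `Nat.div` are fast in the kernel; about 4096
steps). A lemma for general `Q` by induction on `Q`, then the ten values. -/
theorem SR5_table3 {J : ℕ} (h2 : 2 ≤ J) (h11 : J ≤ 11) : SR5 (2 ^ (J + 1) - 1) ≤ (eJ3 J : ℝ) / 60 := by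
  interval_cases J
  · exact d6_use _ 3 _ (by norm_num) (by decide +kernel)
  · exact d6_use _ 4 _ (by norm_num) (by decide +kernel)
  · exact d6_use _ 5 _ (by norm_num) (by decide +kernel)
  · exact d6_use _ 6 _ (by norm_num) (by decide +kernel)
  · exact d6_use _ 7 _ (by norm_num) (by decide +kernel)
  · exact d6_use _ 8 _ (by norm_num) (by decide +kernel)
  · exact d6_use _ 9 _ (by norm_num) (by decide +kernel)
  · exact d6_use _ 10 _ (by norm_num) (by decide +kernel)
  · exact d6_use _ 11 _ (by norm_num) (by decide +kernel)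
  · exact d6_use _ 12 _ (by norm_num) (by decide +kernel)

/-- The exact value of `60 * SR5 161` is `63.970...`. -/
theorem SR5_161 : SR5 161 ≤ 64 / 60 := by
  have h := d6_use 161 8 64 (by norm_num) (by decide +kernel)
  exact_mod_cast h

/-- The exact value is `1.882047...` (the same method; `SR Q = 1/3 + SR5 Q`). -/
theorem SR_4095 : SR 4095 ≤ 1.8821 := by
  have h1 : SR 4095 = 1 / 3 + SR5 4095 := by
    unfold SR SR5
    have h2 : (Finset.Icc 3 4095).filter Nat.Prime =
        insert 3 ((Finset.Icc 5 4095).filter Nat.Prime) := by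
      ext q
      simp only [mem_filter, mem_Icc, mem_insert]
      constructor
      · rintro ⟨⟨h3, h4⟩, h5⟩
        by_cases h6 : q = 3
        · exact Or.inl h6
        · have h7 : q ≠ 4 := by
            rintro rfl
            revert h5
            norm_num
          exact Or.inr ⟨⟨by omega, h4⟩, h5⟩
      · rintro (rfl | ⟨⟨h3, h4⟩, h5⟩)
        · norm_num
        · exact ⟨⟨by omega, h4⟩, h5⟩
    rw [h2, sum_insert (by simp)]
    norm_num
  have h3 := d6_main 4095 12 (by norm_num)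
  have h4 : 10 ^ 4 * d6_sumF (d6_f 4095) 12 0 ≤ 15487 * 10 ^ 9 + 66 * 10 ^ 7 := by decide +kernel
  have h5 : ((10 ^ 4 * d6_sumF (d6_f 4095) 12 0 : ℕ) : ℝ) ≤
      ((15487 * 10 ^ 9 + 66 * 10 ^ 7 : ℕ) : ℝ) := by exact_mod_cast h4
  push_cast at h5
  rw [h1]
  linarith

end Pool.Agent.BY
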