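import Mathlib

set_option autoImplicit false

namespace Pool.Agent.BY

open Real

private theorem i0_step {n : ℕ} (hn : 1 ≤ n) : 1 ≤ ((n : ℝ) + 1) * (log ((n : ℝ) + 1) - log n) ∧
    log ((n : ℝ) + 1) ≤ log n + 1 / n := by
  have hn' : (1 : ℝ) ≤ n := by exact_mod_cast hn
  have hn0 : (0 : ℝ) < n := by linarith
  constructor
  · have h1 := log_le_sub_one_of_pos (show (0 : ℝ) < n / (n + 1) by positivity)
    rw [log_div hn0.ne' (by positivity)] at h1
    have h2 : (n : ℝ) / (n + 1) - 1 = -(1 / (n + 1)) := by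
      field_simp
      ring
    rw [h2] at h1
    have h3 : 1 / ((n : ℝ) + 1) ≤ log ((n : ℝ) + 1) - log n := by linarith
    calc (1 : ℝ) = (n + 1) * (1 / (n + 1)) := by field_simp
      _ ≤ (n + 1) * (log ((n : ℝ) + 1) - log n) := by gcongr
  · have h1 := log_le_sub_one_of_pos (show (0 : ℝ) < (n + 1) / n by positivity)
    rw [log_div (by positivity) hn0.ne'] at h1
    have h2 : ((n : ℝ) + 1) / n - 1 = 1 / n := by
      field_simp
      ring
    rw [h2] at h1
    linarith

/-- `log n! ≤ (n + 1) log n - n + 1` for `n ≥ 1`.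

Proof. Induction. `n = 1`: `0 ≤ 0`. Step: `log (n+1)! = log (n+1) + log n!
≤ log (n+1) + (n+1) log n - n + 1`, to be shown `≤ (n+2) log (n+1) - n`, i.e.
`1 ≤ (n+1) (log (n+1) - log n)`; indeed `log (n/(n+1)) ≤ n/(n+1) - 1 = -1/(n+1)` (`Real.log_le_sub_one_of_pos`). -/
theorem log_fact {n : ℕ} (hn : 1 ≤ n) : log (n.factorial : ℝ) ≤ (n + 1) * log n - n + 1 := by
  induction n, hn using Nat.le_induction with
  | base => simp
  | succ n hn ih =>
    have h1 := (i0_step hn).1
    have hn0 : (0 : ℝ) < n := by exact_mod_cast hn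
    have h2 : log (((n + 1).factorial : ℕ) : ℝ) = log ((n : ℝ) + 1) + log (n.factorial : ℝ) := by
      rw [Nat.factorial_succ, Nat.cast_mul, log_mul (by positivity) (by positivity)]
      push_cast
      rfl
    rw [h2]
    push_cast
    nlinarith

/-- `a = 0`: `2 log n! ≤ (2n+2) log n - 2n + 2`. `a = 1`: `log (n+1)! = log (n+1) + log n!`,
`log (n+1) ≤ log n + 1/n`. `1/n ≤ 1/50`, `log n ≥ 0`. -/
theorem log_facts {n a : ℕ} (hn : 50 ≤ n) (ha : a ≤ 1) :
    log ((n.factorial * (n + a).factorial : ℕ) : ℝ) ≤ (2 * n + 3) * log n - 2 * n + 2.02 := by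
  have hn1 : 1 ≤ n := by omega
  have hn' : (50 : ℝ) ≤ n := by exact_mod_cast hn
  have hn0 : (0 : ℝ) < n := by linarith
  have h1 := log_fact hn1
  have h2 := (i0_step hn1).2
  have h3 : 0 ≤ log (n : ℝ) := log_nonneg (by linarith)
  have h4 : 1 / (n : ℝ) ≤ 1 / 50 := one_div_le_one_div_of_le (by norm_num) hn'
  rcases Nat.le_one_iff_eq_zero_or_eq_one.1 ha with rfl | rfl
  · rw [add_zero, Nat.cast_mul, log_mul (by positivity) (by positivity)]
    linarith
  · have h5 : log (((n + 1).factorial : ℕ) : ℝ) = log ((n : ℝ) + 1) + log (n.factorial : ℝ) := by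
      rw [Nat.factorial_succ, Nat.cast_mul, log_mul (by positivity) (by positivity)]
      push_cast
      rfl
    rw [Nat.cast_mul, log_mul (by positivity) (by positivity), h5]
    linarith

end Pool.Agent.BY
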