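import Mathlib
import Pool.Agent.BY.Defs
import Pool.Agent.BY.I0

set_option autoImplicit false

namespace Pool.Agent.BY

open Finset

private theorem C8_dvd (N : ℕ) : ∏ p ∈ (range (N + 1)).filter Nat.Prime, p ^ (N / p) ∣ N.factorial := by
  apply Finset.prod_dvd_of_isRelPrime
  · intro p hp q hq hpq
    have hp' := (Finset.mem_filter.1 hp).2
    have hq' := (Finset.mem_filter.1 hq).2
    show IsRelPrime (p ^ (N / p)) (q ^ (N / q))
    rw [← Nat.coprime_iff_isRelPrime]
    exact Nat.Coprime.pow _ _ ((Nat.coprime_primes hp' hq').2 hpq)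
  · intro p hp
    have hp' := (Finset.mem_filter.1 hp).2
    rw [hp'.pow_dvd_factorial_iff (b := Nat.log p N + 2) (by omega)]
    have h1 : N / p = N / p ^ 1 := by rw [pow_one]
    rw [h1]
    exact Finset.single_le_sum (f := fun i => N / p ^ i) (fun i _ => Nat.zero_le _)
      (Finset.mem_Ico.2 ⟨le_refl 1, by omega⟩)

/-- Sharper form of `mertens` (`Pool/Agent/BY/C4.lean`, complete proof there; repeat it with
`log N! ≤ (N + 1) log N - N + 1` (`log_fact`) instead of `N log N`):
`N ∑ (log p)/p ≤ (N + 1) log N - N + 1 + N log 4`. -/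
theorem mertens2 {N : ℕ} (hN : 1 ≤ N) :
    ∑ p ∈ (range (N + 1)).filter Nat.Prime, Real.log p / p ≤
      Real.log N + Real.log 4 - 1 + (Real.log N + 1) / N := by
  have hN' : (0 : ℝ) < N := by exact_mod_cast hN
  have h1 : ∑ p ∈ (range (N + 1)).filter Nat.Prime, ((N / p : ℕ) : ℝ) * Real.log p ≤
      (N + 1) * Real.log N - N + 1 := by
    have h2 : ∏ p ∈ (range (N + 1)).filter Nat.Prime, p ^ (N / p) ≤ N.factorial :=
      Nat.le_of_dvd (Nat.factorial_pos N) (C8_dvd N)
    have h3 : ((∏ p ∈ (range (N + 1)).filter Nat.Prime, p ^ (N / p) : ℕ) : ℝ) ≤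
        (N.factorial : ℝ) := by
      exact_mod_cast h2
    have h4 : (0 : ℝ) < ((∏ p ∈ (range (N + 1)).filter Nat.Prime, p ^ (N / p) : ℕ) : ℝ) := by
      have : 0 < ∏ p ∈ (range (N + 1)).filter Nat.Prime, p ^ (N / p) :=
        Finset.prod_pos fun p hp => pow_pos (Finset.mem_filter.1 hp).2.pos _
      exact_mod_cast this
    have h5 := (Real.log_le_log h4 h3).trans (log_fact hN)
    rw [Nat.cast_prod, Real.log_prod] at h5
    · refine le_trans (le_of_eq (Finset.sum_congr rfl fun p _ => ?_)) h5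
      rw [Nat.cast_pow, Real.log_pow]
    · intro p hp
      have := (Finset.mem_filter.1 hp).2.pos
      exact_mod_cast (pow_pos this _).ne'
  have h2 : ∑ p ∈ (range (N + 1)).filter Nat.Prime, Real.log p ≤ N * Real.log 4 := by
    have h3 : ((primorial N : ℕ) : ℝ) ≤ (4 : ℝ) ^ N := by exact_mod_cast primorial_le_four_pow N
    have h4 : (0 : ℝ) < ((primorial N : ℕ) : ℝ) := by exact_mod_cast primorial_pos N
    have h5 := Real.log_le_log h4 h3
    unfold primorial at h5
    rw [Real.log_pow, Nat.cast_prod, Real.log_prod] at h5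
    · exact h5
    · intro p hp
      have := (Finset.mem_filter.1 hp).2.pos
      exact_mod_cast this.ne'
  have h3 : (N : ℝ) * ∑ p ∈ (range (N + 1)).filter Nat.Prime, Real.log p / p ≤
      ((N + 1) * Real.log N - N + 1) + N * Real.log 4 := by
    refine le_trans ?_ (add_le_add h1 h2)
    rw [← Finset.sum_add_distrib, Finset.mul_sum]
    apply Finset.sum_le_sum
    intro p hp
    have hp' := (Finset.mem_filter.1 hp).2
    have hp0 : (0 : ℝ) < p := by exact_mod_cast hp'.pos
    have h4 : (N : ℝ) ≤ p * (((N / p : ℕ) : ℝ) + 1) := by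
      have := Nat.lt_mul_div_succ N hp'.pos
      exact_mod_cast this.le
    have h5 : 0 ≤ Real.log p := Real.log_natCast_nonneg p
    have h6 : (N : ℝ) * (Real.log p / p) = N / p * Real.log p := by ring
    have h7 : (N : ℝ) / p ≤ ((N / p : ℕ) : ℝ) + 1 := by
      rw [div_le_iff₀ hp0]
      linarith [mul_comm (p : ℝ) (((N / p : ℕ) : ℝ) + 1)]
    rw [h6]
    calc (N : ℝ) / p * Real.log p ≤ (((N / p : ℕ) : ℝ) + 1) * Real.log p := mul_le_mul_of_nonneg_right h7 h5
      _ = _ := by ring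
  refine le_of_mul_le_mul_left (h3.trans (le_of_eq ?_)) hN'
  field_simp
  ring

/-- `mertens2` with `N = 2^j - 1`, `j ≥ 8`: `log N ≤ j log 2`, `log 4 = 2 log 2`, and
`(j log 2 + 1)/(2^j - 1) ≤ 0.02572` (`j ≤ 2^j`-type induction), `2 log 2 - 1 + 0.02572 ≤ 0.595 log 2`. -/
theorem A_le {j : ℕ} (hj : 8 ≤ j) :
    ∑ p ∈ (range (2 ^ j)).filter Nat.Prime, Real.log p / p ≤ (j + 0.595) * Real.log 2 := by
  have h256 : 256 ≤ 2 ^ j := by
    calc 256 = 2 ^ 8 := by norm_num
      _ ≤ 2 ^ j := Nat.pow_le_pow_right (by norm_num) hj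
  have h1 := mertens2 (N := 2 ^ j - 1) (by omega)
  rw [Nat.sub_add_cancel (by omega)] at h1
  have h3 : Real.log ((2 ^ j - 1 : ℕ) : ℝ) ≤ j * Real.log 2 := by
    rw [← Real.log_pow]
    apply Real.log_le_log
    · have : 0 < 2 ^ j - 1 := by omega
      exact_mod_cast this
    · have : 2 ^ j - 1 ≤ 2 ^ j := by omega
      exact_mod_cast this
  have h4 : Real.log 4 = 2 * Real.log 2 := by
    rw [show (4 : ℝ) = 2 ^ 2 by norm_num, Real.log_pow]
    norm_num
  have g1 := Real.log_two_gt_d9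
  have g2 := Real.log_two_lt_d9
  -- `255 j ≤ 8 (2 ^ j - 1)`
  have h5 : 255 * j ≤ 8 * (2 ^ j - 1) := by
    induction j, hj using Nat.le_induction with
    | base => norm_num
    | succ j hj ih =>
      have h7 : 256 ≤ 2 ^ j := by
        calc 256 = 2 ^ 8 := by norm_num
          _ ≤ 2 ^ j := Nat.pow_le_pow_right (by norm_num) hj
      have h8 : 255 * j ≤ 8 * (2 ^ j - 1) := by
        clear ih h1 h3 h256
        induction j, hj using Nat.le_induction with
        | base => norm_num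
        | succ j hj ih =>
          have h9 : 256 ≤ 2 ^ j := by
            calc 256 = 2 ^ 8 := by norm_num
              _ ≤ 2 ^ j := Nat.pow_le_pow_right (by norm_num) hj
          have := ih h9
          rw [pow_succ]
          omega
      rw [pow_succ]
      omega
  have h6 : (255 : ℝ) * j ≤ 8 * ((2 ^ j - 1 : ℕ) : ℝ) := by exact_mod_cast h5
  have hpos : (255 : ℝ) ≤ ((2 ^ j - 1 : ℕ) : ℝ) := by
    have : 255 ≤ 2 ^ j - 1 := by omega
    exact_mod_cast this
  have h7 : (Real.log ((2 ^ j - 1 : ℕ) : ℝ) + 1) / ((2 ^ j - 1 : ℕ) : ℝ) ≤ (8 * Real.log 2 + 1) / 255 := by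
    rw [div_le_div_iff₀ (by linarith) (by norm_num)]
    have e1 : (255 : ℝ) * j * Real.log 2 ≤ 8 * ((2 ^ j - 1 : ℕ) : ℝ) * Real.log 2 :=
      mul_le_mul_of_nonneg_right h6 (by linarith)
    nlinarith
  rw [h4] at h1
  linarith

end Pool.Agent.BY
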