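import Mathlib
import Pool.Agent.BY.D0

set_option autoImplicit false

namespace Pool.Agent.BY

open Finset

/-- the primes up to `61` -/
private def d5_pl : List ℕ := [2, 3, 5, 7, 11, 13, 17, 19, 23, 29, 31, 37, 41, 43, 47, 53, 59, 61]

private def d5_tst (m : ℕ) : Bool :=
  (Nat.gcd m 117288381359406970983270 == 1) || d5_pl.contains m

/-- the sum of `f` over `s, ..., s + 2 ^ d - 1` -/
private def d5_sumF (f : ℕ → ℕ) : ℕ → ℕ → ℕ
  | 0, s => f s
  | d + 1, s => d5_sumF f d s + d5_sumF f d (s + 2 ^ d)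

private theorem d5_sumF_eq (f : ℕ → ℕ) (d : ℕ) : ∀ s : ℕ,
    d5_sumF f d s = ∑ m ∈ range (2 ^ d), f (s + m) := by
  induction d with
  | zero => intro s; simp [d5_sumF]
  | succ d ih =>
    intro s
    rw [d5_sumF, ih, ih, pow_succ, mul_two, sum_range_add]
    congr 1
    exact sum_congr rfl fun m _ => by rw [add_assoc]

private theorem d5_prime : ∀ a ∈ d5_pl, Nat.Prime a := by
  simp only [d5_pl, List.mem_cons, List.not_mem_nil, or_false]
  rintro a (rfl | rfl | rfl | rfl | rfl | rfl | rfl | rfl | rfl | rfl | rfl | rfl | rfl | rfl | rfl |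
    rfl | rfl | rfl) <;> norm_num

private theorem d5_prod : 117288381359406970983270 = d5_pl.prod := by decide +kernel

private theorem d5_small : ∀ q < 64, q.Prime → q ∈ d5_pl := by
  intro q hq hp
  interval_cases q <;> first
    | (exfalso; revert hp; norm_num; done)
    | decide

private theorem d5_prime_of {m : ℕ} (h1 : 1 < m) (hm : m < 4096) (h : d5_tst m = true) : m.Prime := by
  unfold d5_tst at h
  rw [Bool.or_eq_true] at h
  rcases h with h | h
  · have hg : Nat.gcd m 117288381359406970983270 = 1 := by simpa using h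
    by_contra hnp
    have h2 : m.minFac ^ 2 ≤ m := Nat.minFac_sq_le_self (by omega) hnp
    have h3 : m.minFac < 64 := by
      by_contra h4
      have h5 : 64 ^ 2 ≤ m.minFac ^ 2 := Nat.pow_le_pow_left (by omega) 2
      omega
    have hp : m.minFac.Prime := Nat.minFac_prime (by omega)
    have h6 := d5_small _ h3 hp
    have h7 : m.minFac ∣ 117288381359406970983270 := by
      rw [d5_prod]
      exact List.dvd_prod h6
    have h8 : m.minFac ∣ Nat.gcd m 117288381359406970983270 :=
      Nat.dvd_gcd (Nat.minFac_dvd m) h7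
    rw [hg] at h8
    exact hp.one_lt.ne' (Nat.dvd_one.1 h8)
  · have h2 : m ∈ d5_pl := by simpa using h
    exact d5_prime m h2

private def d5_f (m : ℕ) : ℕ :=
  if (Nat.ble 2 m && d5_tst m) = true then 10 ^ 9 * Nat.log2 (m ^ 2) / (2 * m) else 0

private theorem d5_term {p : ℕ} (hp : p.Prime) :
    Real.log 2 * ((d5_f p : ℝ) / 10 ^ 9) ≤ Real.log p / p := by
  have hp0 : 0 < p := hp.pos
  have hp0' : (0 : ℝ) < p := by exact_mod_cast hp0
  have hl2 : 0 < Real.log 2 := Real.log_pos (by norm_num)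
  have h1 : (Nat.log2 (p ^ 2) : ℝ) * Real.log 2 ≤ 2 * Real.log p := by
    have h2 : 2 ^ Nat.log2 (p ^ 2) ≤ p ^ 2 := Nat.log2_self_le (by positivity)
    have h3 : ((2 : ℝ)) ^ Nat.log2 (p ^ 2) ≤ (p : ℝ) ^ 2 := by exact_mod_cast h2
    have h4 := Real.log_le_log (by positivity) h3
    rw [Real.log_pow, Real.log_pow] at h4
    exact_mod_cast h4
  have h5 : (d5_f p : ℝ) ≤ 10 ^ 9 * Nat.log2 (p ^ 2) / (2 * p) := by
    unfold d5_f
    split_ifs
    · have h6 : ((10 ^ 9 * Nat.log2 (p ^ 2) / (2 * p) : ℕ) : ℝ) ≤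
          ((10 ^ 9 * Nat.log2 (p ^ 2) : ℕ) : ℝ) / ((2 * p : ℕ) : ℝ) := Nat.cast_div_le
      push_cast at h6 ⊢
      have h7 : (10 : ℝ) ^ 9 = 1000000000 := by norm_num
      rw [h7]
      exact h6
    · simp only [Nat.cast_zero]
      positivity
  calc Real.log 2 * ((d5_f p : ℝ) / 10 ^ 9)
      ≤ Real.log 2 * ((10 ^ 9 * Nat.log2 (p ^ 2) / (2 * p)) / 10 ^ 9) := by gcongr
    _ = ((Nat.log2 (p ^ 2) : ℝ) * Real.log 2) / (2 * p) := by ring
    _ ≤ (2 * Real.log p) / (2 * p) := by gcongr
    _ = Real.log p / p := by field_simp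

/-- Lower bound for `∑_{p < 4096} (log p)/p` (564 primes). `log p ≥ (log 2/2) * Nat.log2 (p^2)`, because
`2 ^ Nat.log2 (p^2) ≤ p^2`; the sum over the primes `p < 4096` of `Nat.log2 (p^2) / (2 p)` is `9.65714...`.

One way (integer arithmetic, kernel). Let `P = 2 * 3 * 5 * ... * 61` and `tst m = (gcd m P = 1 and 1 < m, or m is
one of the primes 2, 3, 5, ..., 61)`. If `m < 4096 < 67^2` and `tst m`, then `m` is prime (otherwise
`m.minFac ≤ 63` is a prime dividing `m` and `P`). So the sum is at least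
`log 2 * 10^(-9) * ∑_{m < 4096, tst m} (10^9 * Nat.log2 (m^2) / (2 m))` (natural division), and the last sum, at
least `9.65 * 10^9`, is computed by `decide +kernel` with a structurally recursive function (lemma for general
`N ≤ 4096` by induction on `N`). -/
theorem A12_ge : 9.65 * Real.log 2 ≤
    ∑ p ∈ (range 4096).filter Nat.Prime, Real.log p / p := by
  have hl2 : 0 < Real.log 2 := Real.log_pos (by norm_num)
  have h0 : 9650000000 ≤ d5_sumF d5_f 12 0 := by decide +kernel
  have h1 : d5_sumF d5_f 12 0 = ∑ m ∈ (range 4096).filter Nat.Prime, d5_f m := by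
    rw [d5_sumF_eq, sum_filter]
    refine sum_congr (by norm_num) fun m hm => ?_
    rw [zero_add]
    split_ifs with h
    · rfl
    · unfold d5_f
      rw [if_neg]
      intro h2
      rw [Bool.and_eq_true] at h2
      exact h (d5_prime_of (Nat.le_of_ble_eq_true h2.1) (mem_range.1 hm) h2.2)
  have h2 : Real.log 2 * ((d5_sumF d5_f 12 0 : ℝ) / 10 ^ 9) ≤
      ∑ p ∈ (range 4096).filter Nat.Prime, Real.log p / p := by
    rw [h1]
    push_cast
    rw [sum_div, mul_sum]
    exact sum_le_sum fun p hp => d5_term (mem_filter.1 hp).2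
  refine le_trans ?_ h2
  have h3 : (9650000000 : ℝ) ≤ (d5_sumF d5_f 12 0 : ℝ) := by exact_mod_cast h0
  rw [mul_comm]
  refine mul_le_mul_of_nonneg_left ?_ hl2.le
  rw [le_div_iff₀ (by norm_num)]
  norm_num
  linarith

end Pool.Agent.BY
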