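import Mathlib
import Pool.Agent.BY.D5
import Pool.Agent.BY.D6
import Pool.Agent.BY.C8

set_option autoImplicit false

namespace Pool.Agent.BY

open Finset

/-- `A j = ∑_{p < 2^j} (log p)/p` -/
private noncomputable def D7_A (j : ℕ) : ℝ := ∑ p ∈ (range (2 ^ j)).filter Nat.Prime, Real.log p / p

/-- `S J = ∑_{3 ≤ q < 2^(J+1)} 1/q` -/
private noncomputable def D7_S (J : ℕ) : ℝ := ∑ q ∈ (Finset.Ico 3 (2 ^ (J + 1))).filter Nat.Prime, (1 : ℝ) / q

private theorem D7_step (J : ℕ) (hJ : 1 ≤ J) :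
    D7_S (J + 1) ≤ D7_S J + (D7_A (J + 2) - D7_A (J + 1)) / ((J + 1) * Real.log 2) := by
  have hlog : 0 < Real.log 2 := Real.log_pos (by norm_num)
  have h4 : 4 ≤ 2 ^ (J + 1) := by
    calc 4 = 2 ^ 2 := by norm_num
      _ ≤ 2 ^ (J + 1) := Nat.pow_le_pow_right (by norm_num) (by omega)
  have hmono : 2 ^ (J + 1) ≤ 2 ^ (J + 2) := Nat.pow_le_pow_right (by norm_num) (by omega)
  have h1 : D7_S (J + 1) = D7_S J + ∑ q ∈ (Finset.Ico (2 ^ (J + 1)) (2 ^ (J + 2))).filter Nat.Prime, (1 : ℝ) / q := by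
    unfold D7_S
    rw [Finset.sum_filter, Finset.sum_filter, Finset.sum_filter]
    exact (Finset.sum_Ico_consecutive _ (by omega) hmono).symm
  have h2 : D7_A (J + 2) - D7_A (J + 1)
      = ∑ q ∈ (Finset.Ico (2 ^ (J + 1)) (2 ^ (J + 2))).filter Nat.Prime, Real.log q / q := by
    unfold D7_A
    rw [Finset.sum_filter, Finset.sum_filter, Finset.sum_filter, Finset.sum_Ico_eq_sub _ hmono]
  rw [h1, h2]
  apply add_le_add_right
  have hpos : 0 < ((J : ℝ) + 1) * Real.log 2 := by positivity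
  rw [le_div_iff₀ hpos, Finset.sum_mul]
  apply Finset.sum_le_sum
  intro q hq
  have hq1 := (Finset.mem_Ico.1 (Finset.mem_filter.1 hq).1).1
  have hq0 : (0 : ℝ) < q := by
    have : 0 < q := by omega
    exact_mod_cast this
  have h5 : ((J : ℝ) + 1) * Real.log 2 ≤ Real.log q := by
    have h6 : Real.log (((2 ^ (J + 1) : ℕ) : ℝ)) ≤ Real.log q := by
      apply Real.log_le_log
      · positivity
      · exact_mod_cast hq1
    rw [Nat.cast_pow, Real.log_pow] at h6
    push_cast at h6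
    exact h6
  rw [div_mul_eq_mul_div, one_mul]
  exact div_le_div_of_nonneg_right h5 hq0.le

private theorem D7_log (J : ℕ) (hJ : 12 ≤ J) :
    Real.log (((J : ℝ) - 1) / 11) + 1 / J ≤ Real.log ((J : ℝ) / 11) := by
  have hJ12 : (12 : ℝ) ≤ J := by exact_mod_cast hJ
  have h0 : (0 : ℝ) < (J : ℝ) - 1 := by linarith
  have h1 : (0 : ℝ) < J := by linarith
  have h2 := Real.log_le_sub_one_of_pos (show 0 < ((J : ℝ) - 1) / J by positivity)
  rw [Real.log_div h0.ne' h1.ne'] at h2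
  rw [Real.log_div h0.ne' (by norm_num), Real.log_div h1.ne' (by norm_num)]
  have h3 : ((J : ℝ) - 1) / J - 1 = -(1 / J) := by
    field_simp
    ring
  rw [h3] at h2
  linarith

private theorem D7_claim (J : ℕ) (hJ : 12 ≤ J) :
    D7_S J ≤ D7_S 11 + D7_A (J + 1) / (J * Real.log 2) - D7_A 12 / (12 * Real.log 2) +
      Real.log (((J : ℝ) - 1) / 11) + 0.595 * (1 / 12 - 1 / J) := by
  have hlog : 0 < Real.log 2 := Real.log_pos (by norm_num)
  induction J, hJ using Nat.le_induction with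
  | base =>
    have h1 := D7_step 11 (by norm_num)
    have e1 : (((12 : ℕ) : ℝ) - 1) / 11 = 1 := by norm_num
    rw [e1, Real.log_one]
    have e2 : ((11 : ℕ) : ℝ) + 1 = 12 := by norm_num
    rw [e2, sub_div] at h1
    have e3 : ((12 : ℕ) : ℝ) = 12 := by norm_num
    rw [e3]
    have e4 : (1 : ℝ) / 12 - 1 / 12 = 0 := by norm_num
    rw [e4]
    have h2 : D7_S 12 ≤ D7_S 11 + (D7_A 13 / (12 * Real.log 2) - D7_A 12 / (12 * Real.log 2)) := h1
    have h3 : D7_A (12 + 1) = D7_A 13 := rfl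
    rw [h3]
    linarith
  | succ J hJ ih =>
    have hJ12 : (12 : ℝ) ≤ J := by exact_mod_cast hJ
    have hJ0 : (0 : ℝ) < J := by linarith
    have h1 := D7_step J (by omega)
    have h2 : D7_A (J + 1) ≤ ((J : ℝ) + 1 + 0.595) * Real.log 2 := by
      have := A_le (j := J + 1) (by omega)
      push_cast at this
      exact this
    have h4 : D7_A (J + 1) / Real.log 2 ≤ (J : ℝ) + 1 + 0.595 := by
      rw [div_le_iff₀ hlog]
      exact h2
    have h5 : D7_A (J + 1) / (J * Real.log 2) - D7_A (J + 1) / ((J + 1) * Real.log 2)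
        = D7_A (J + 1) / Real.log 2 * (1 / (J * (J + 1))) := by
      field_simp
      ring
    have h6 : D7_A (J + 1) / Real.log 2 * (1 / (J * (J + 1))) ≤
        ((J : ℝ) + 1 + 0.595) * (1 / ((J : ℝ) * (J + 1))) :=
      mul_le_mul_of_nonneg_right h4 (by positivity)
    have h7 : ((J : ℝ) + 1 + 0.595) * (1 / ((J : ℝ) * (J + 1))) =
        1 / J + 0.595 * (1 / J) - 0.595 * (1 / (J + 1)) := by
      field_simp
      ring
    have h8 := D7_log J hJ
    push_cast
    have e1 : ((J : ℝ) + 1 - 1) / 11 = J / 11 := by ring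
    rw [e1]
    rw [sub_div] at h1
    linarith

/-- **Upper half of Mertens' second theorem with a good constant.** (Compare `SR_le_log` in
`Pool/Agent/BY/C5.lean`, complete proof there, the same induction with other constants.)

Proof. `A j = ∑_{p < 2^j} (log p)/p`, `c = 0.595`, `A j ≤ (j + c) log 2` for `j ≥ 8` (`A_le` in `C8`). Claim, by
induction on `J ≥ 12`:
`SR (2^(J+1) - 1) ≤ SR 4095 + A (J+1)/(J log 2) - A 12/(12 log 2) + log ((J - 1)/11) + c (1/12 - 1/J)`.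
`J = 12`: `SR 8191 ≤ SR 4095 + (A 13 - A 12)/(12 log 2)`, as `1/q ≤ ((log q)/q)/(12 log 2)` for `q ≥ 4096`;
`log 1 = 0`. Step: the primes `q ∈ [2^(J+1), 2^(J+2))` satisfy `1/q ≤ ((log q)/q)/((J+1) log 2)`, so
`SR (2^(J+2) - 1) ≤ SR (2^(J+1) - 1) + (A (J+2) - A (J+1))/((J+1) log 2)`; and
`A (J+1)/log 2 * (1/J - 1/(J+1)) ≤ (J + 1 + c)/(J (J+1)) = 1/J + c (1/J - 1/(J+1))`, and
`log ((J-1)/11) + 1/J ≤ log (J/11)` (`log ((J-1)/J) ≤ -1/J`: `Real.log_le_sub_one_of_pos`).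
End: `A (J+1)/(J log 2) ≤ 1 + (1 + c)/J`, so
`SR ≤ SR 4095 + 1 + c/12 - log 11 - A 12/(12 log 2) + log (J - 1) + 1/J`, and `log (J - 1) + 1/J ≤ log J`. Finally
`SR 4095 ≤ 1.8821` (`SR_4095`), `c/12 ≤ 0.0496`, `A 12/(12 log 2) ≥ 9.65/12 ≥ 0.8041` (`A12_ge`),
`log 11 ≥ 2.397` (`2 log 11 = log 121 = 7 log 2 - log (1 + 7/121) ≥ 7 * 0.693147 - 7/121`); the sum is
`≤ 1.8821 + 1 + 0.0496 - 2.397 - 0.8041 = -0.2694`. -/
theorem SR_le_log12 {J : ℕ} (hJ : 12 ≤ J) : SR (2 ^ (J + 1) - 1) ≤ Real.log J - 1 / 4 := by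
  have hlog : 0 < Real.log 2 := Real.log_pos (by norm_num)
  have hJ12 : (12 : ℝ) ≤ J := by exact_mod_cast hJ
  have hJ0 : (0 : ℝ) < J := by linarith
  have hS : ∀ K : ℕ, SR (2 ^ (K + 1) - 1) = D7_S K := by
    intro K
    unfold SR D7_S
    have hE : Finset.Icc 3 (2 ^ (K + 1) - 1) = Finset.Ico 3 (2 ^ (K + 1)) := by
      ext q
      have : 0 < 2 ^ (K + 1) := by positivity
      rw [Finset.mem_Icc, Finset.mem_Ico]
      omega
    rw [hE]
  have h11 : D7_S 11 ≤ 1.8821 := by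
    rw [← hS 11]
    exact SR_4095
  have h1 := D7_claim J hJ
  have h2 : D7_A (J + 1) / (J * Real.log 2) ≤ 1 + 1 / J + 0.595 * (1 / J) := by
    have h3 : D7_A (J + 1) ≤ ((J : ℝ) + 1 + 0.595) * Real.log 2 := by
      have := A_le (j := J + 1) (by omega)
      push_cast at this
      exact this
    rw [div_le_iff₀ (by positivity)]
    have h4 : (1 + 1 / (J : ℝ) + 0.595 * (1 / J)) * (J * Real.log 2) =
        ((J : ℝ) + 1 + 0.595) * Real.log 2 := by
      field_simp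
    rw [h4]
    exact h3
  have h3 : 9.65 / 12 ≤ D7_A 12 / (12 * Real.log 2) := by
    have h4 : 9.65 * Real.log 2 ≤ D7_A 12 := A12_ge
    rw [div_le_div_iff₀ (by norm_num) (by positivity)]
    linarith
  have h5 := D7_log J hJ
  have h6 : Real.log ((J : ℝ) / 11) = Real.log J - Real.log 11 :=
    Real.log_div hJ0.ne' (by norm_num)
  have h7 : 2.397 ≤ Real.log 11 := by
    have e1 : Real.log 121 = 2 * Real.log 11 := by
      rw [show (121 : ℝ) = 11 ^ 2 by norm_num, Real.log_pow]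
      norm_num
    have e2 : Real.log (128 / 121) = 7 * Real.log 2 - Real.log 121 := by
      rw [Real.log_div (by norm_num) (by norm_num), show (128 : ℝ) = 2 ^ 7 by norm_num, Real.log_pow]
      norm_num
    have e3 : Real.log (128 / 121) ≤ 128 / 121 - 1 := Real.log_le_sub_one_of_pos (by norm_num)
    have e4 := Real.log_two_gt_d9
    linarith
  rw [hS J]
  rw [h6] at h5
  have h8 : 0.595 * ((1 : ℝ) / 12 - 1 / J) = 0.595 / 12 - 0.595 * (1 / J) := by ring
  rw [h8] at h1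
  linarith

end Pool.Agent.BY
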