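import Mathlib
import Pool.Agent.BY.D0

set_option autoImplicit false

namespace Pool.Agent.BY

open Finset

/-- size check for `N ≥ Nl` -/
def chk0c (n a Nl tau : ℕ) : Bool :=
  decide (10 ^ 6 * c2 n a ≤ 2 * tau ^ 2 * Nl) &&
  (decide (1000 * (1 + a) + n * tau ≤ 1000 * n) || (decide (n = 2) && decide (a = 1))) &&
  decide (2 * tau < 1000) && decide (2000 ≤ (1000 - 2 * tau) * Nl)

/-- the certificate check for `N ≥ Nl`; `e / 60` is a bound for `SR5 Q` -/
def chk3 (n a Nl tau sig nu m2 m3 m5 e : ℕ) : Bool :=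
  decide (10 ^ 6 * c2 n a ≤ 2 * tau ^ 2 * Nl) && decide (10 ^ 6 * c2 n a ≤ 2 * sig ^ 2) &&
  decide (10 ^ 6 ≤ nu ^ 2 * Nl) && decide (sig + a * nu < 4000 * m2) &&
  decide ((sig + a * nu) ^ 6 < (6000 * m3) ^ 6 * Nl) &&
  decide ((sig + a * nu) ^ 10 < (10000 * m5) ^ 10 * Nl ^ 3) &&
  decide (tau < 1000) && decide (30 * m2 + 20 * m3 + m5 * e ≤ 60 * n) &&
  decide ((2 * (n.factorial * (n + a).factorial)) ^ 60 *
      (Nl * (1000 * n + 1000 * (1 + a) + n * tau)) ^ (30 * m2 + 20 * m3 + m5 * e) *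
      1000 ^ (60 * n) <
    ((1000 - tau) * Nl) ^ (60 * n) * (1000 * n) ^ (30 * m2 + 20 * m3 + m5 * e))

/-- the certificate checks for `N ≥ 2 ^ 404` and for `N ≥ 2 ^ 6490` -/
def chk8c (n a m2 f : ℕ) : Bool :=
  decide (2 * (n.factorial * (n + a).factorial) < 2 ^ f) && decide (c2 n a < 32 * m2 ^ 2) &&
  decide (60 * (f + 2 * n + 1) + 404 * (30 * m2 + 20 + 93) < 60 * 404 * n) &&
  decide (10 ^ 4 * (f + 2 * n + 1) + 6490 * (5000 * m2 + if n = 3 then 27081 else 6932 * (n + 1)) <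
    6490 * (10 ^ 4 * n + 2500))

/-- from here on the certificates work -/
def N03 (n a : ℕ) : ℕ :=
  (if a = 0 then [61, 32, 44, 61, 77, 93, 109, 125]
    else [227, 77, 65, 107, 107, 113, 121, 133, 149]).getD (n - 2) (n ^ 2 + 4 * n + 1)

/-- bound for `60 * SR5 Q` -/
def eN (n J : ℕ) : ℕ := if n = 2 ∧ J = 7 then 64 else eJ3 J

/-- the lower end of the range of `N` for `J` -/
def NJ3 (n a J : ℕ) : ℕ := max (N03 n a) ((3 ^ (2 ^ J) - 3) / 2)

/-- `m2` -/
def m2G (n a Nl : ℕ) : ℕ := (sigF n a + a * nuF Nl) / 4000 + 1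

/-- `m3` -/
def m3G (n a Nl : ℕ) : ℕ := if (sigF n a + a * nuF Nl) ^ 6 < 6000 ^ 6 * Nl then 1 else 2

/-- the certificate for `(n, a, J)` -/
def cert3 (n a J : ℕ) : Bool :=
  chk3 n a (NJ3 n a J) (tauF n a (NJ3 n a J)) (sigF n a) (nuF (NJ3 n a J)) (m2G n a (NJ3 n a J))
    (m3G n a (NJ3 n a J)) 1 (eN n J)

private def tabA : Bool :=
  (List.range 61).all fun i => (List.range 2).all fun a => (List.range 7).all fun j =>
    decide (3 ^ (2 ^ (j + 1 + 1)) ≤ N03 (i + 2) a) || cert3 (i + 2) a (j + 1)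

private def tabB : Bool :=
  (List.range 61).all fun i => (List.range 2).all fun a =>
    chk0c (i + 2) a (N03 (i + 2) a) (tauF (i + 2) a (N03 (i + 2) a)) &&
      decide ((i + 2) ^ 2 + 4 * (i + 2) + 1 ≤ N03 (i + 2) a) && decide (32 ≤ N03 (i + 2) a)

private def tabC : Bool :=
  (List.range 60).all fun i => (List.range 2).all fun a =>
    chk8c (i + 3) a (isq (c2 (i + 3) a / 32) 4 0 + 1)
      (Nat.log2 (2 * ((i + 3).factorial * (i + 3 + a).factorial)) + 1)

set_option maxRecDepth 100000 in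
private theorem tabA_true : tabA = true := by decide +kernel

set_option maxRecDepth 100000 in
private theorem tabB_true : tabB = true := by decide +kernel

set_option maxRecDepth 100000 in
private theorem tabC_true : tabC = true := by decide +kernel

/-- the certificates for `J ≤ 7` -/
theorem cert3_true {n a J : ℕ} (hn : 2 ≤ n) (hn' : n ≤ 62) (ha : a ≤ 1) (hJ : 1 ≤ J) (hJ' : J ≤ 7)
    (h : N03 n a < 3 ^ (2 ^ (J + 1))) : cert3 n a J = true := by
  have h1 := tabA_true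
  unfold tabA at h1
  rw [List.all_eq_true] at h1
  have h2 := h1 (n - 2) (List.mem_range.mpr (by omega))
  rw [List.all_eq_true] at h2
  have h3 := h2 a (List.mem_range.mpr (by omega))
  rw [List.all_eq_true] at h3
  have h4 := h3 (J - 1) (List.mem_range.mpr (by omega))
  have e1 : n - 2 + 2 = n := by omega
  have e2 : J - 1 + 1 = J := by omega
  rw [e1, e2] at h4
  rw [Bool.or_eq_true] at h4
  rcases h4 with h4 | h4
  · exact absurd (of_decide_eq_true h4) (by omega)
  · exact h4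

/-- the size checks -/
theorem chk0c_true {n a : ℕ} (hn : 2 ≤ n) (hn' : n ≤ 62) (ha : a ≤ 1) :
    chk0c n a (N03 n a) (tauF n a (N03 n a)) = true ∧ n ^ 2 + 4 * n + 1 ≤ N03 n a ∧
      32 ≤ N03 n a := by
  have h1 := tabB_true
  unfold tabB at h1
  rw [List.all_eq_true] at h1
  have h2 := h1 (n - 2) (List.mem_range.mpr (by omega))
  rw [List.all_eq_true] at h2
  have h3 := h2 a (List.mem_range.mpr (by omega))
  have e1 : n - 2 + 2 = n := by omega
  rw [e1] at h3
  rw [Bool.and_eq_true, Bool.and_eq_true] at h3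
  exact ⟨h3.1.1, of_decide_eq_true h3.1.2, of_decide_eq_true h3.2⟩

/-- the certificates for `J ≥ 8` -/
theorem chk8c_true {n a : ℕ} (hn : 3 ≤ n) (hn' : n ≤ 62) (ha : a ≤ 1) :
    ∃ m2 f, chk8c n a m2 f = true := by
  have h1 := tabC_true
  unfold tabC at h1
  rw [List.all_eq_true] at h1
  have h2 := h1 (n - 3) (List.mem_range.mpr (by omega))
  rw [List.all_eq_true] at h2
  have h3 := h2 a (List.mem_range.mpr (by omega))
  have e1 : n - 3 + 3 = n := by omega
  rw [e1] at h3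
  exact ⟨_, _, h3⟩

/-- `N03` for large `n` -/
theorem N03_large {n a : ℕ} (hn : 11 ≤ n) : N03 n a = n ^ 2 + 4 * n + 1 := by
  unfold N03
  rw [List.getD_eq_default]
  split_ifs <;> (simp; omega)

end Pool.Agent.BY
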