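import Mathlib
import Pool.Agent.BY.KDefs

set_option autoImplicit false

namespace Pool.Agent.BY

open Finset

/-- **The certificate for large `N`, logarithmic part.** (`m3 = m5 = 1`.)

Proof. `l = log 2`, `Y = log N ≥ B l`, `K = m2/2 + 1/3 + S ≤ κ`, `f + 2 n + 1 < B (n - κ)`; in particular `K < n`.
`log M ≤ f l` for `M = 2 n! (n + a)! < 2^f`. `log (w + (t+1+a)) ≤ log (4 N) = Y + 2 l`. `N + 1 - t ≥ N (1 - t/N)`
with `t/N ≤ 1/(4 n)`, and `log (1 - u) ≥ - 2 u` for `0 ≤ u ≤ 1/2`, so `n log (N + 1 - t) ≥ n Y - 1/2 ≥ n Y - l`.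
Together the left side is at most `f l + (Y + 2 l) K ≤ f l + Y K + 2 n l < n Y - l`, because
`(f + 2 n + 1) l < B (n - K) l ≤ (n - K) Y`. -/
theorem log8c {n a m2 f B N t w : ℕ} {S κ : ℝ} (hn : 2 ≤ n) (hn' : n ≤ 62) (ha : a ≤ 1)
    (hM : 2 * (n.factorial * (n + a).factorial) < 2 ^ f) (hB : 200 ≤ B) (hN : 2 ^ B ≤ N)
    (ht : 2 * t ^ 2 < c2 n a * N) (hwN : w + (t + 1 + a) ≤ 4 * N)
    (hS0 : 0 ≤ S) (hS : (m2 : ℝ) / 2 + 1 / 3 + S ≤ κ) (hκ : (f : ℝ) + 2 * n + 1 < B * (n - κ)) :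
    Real.log ((2 * (n.factorial * (n + a).factorial) : ℕ) : ℝ) +
        Real.log ((w : ℝ) + (t + 1 + a : ℕ)) * ((m2 : ℝ) / 2 + (1 : ℕ) / 3 + (1 : ℕ) * S) <
        n * Real.log ((N : ℝ) + 1 - t) := by
  have hl1 : (0.6931 : ℝ) < Real.log 2 := lt_trans (by norm_num) Real.log_two_gt_d9
  have hl2 : Real.log 2 < 0.6932 := lt_trans Real.log_two_lt_d9 (by norm_num)
  set l := Real.log 2 with hl
  have hN200 : 2 ^ 200 ≤ N := (Nat.pow_le_pow_right (by norm_num) hB).trans hN
  have hNpos : 0 < N := lt_of_lt_of_le (by positivity) hN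
  have hNR : (0 : ℝ) < N := by exact_mod_cast hNpos
  have hY : B * l ≤ Real.log N := by
    have h1 : Real.log ((2 : ℝ) ^ B) ≤ Real.log N := by
      apply Real.log_le_log (by positivity)
      exact_mod_cast hN
    rw [Real.log_pow] at h1
    exact_mod_cast h1
  set Y := Real.log (N : ℝ) with hYdef
  -- the constant K
  have hnR : (2 : ℝ) ≤ n := by exact_mod_cast hn
  have hm2 : (0 : ℝ) ≤ m2 := Nat.cast_nonneg _
  have hBR : (200 : ℝ) ≤ B := by exact_mod_cast hB
  set K : ℝ := (m2 : ℝ) / 2 + (1 : ℕ) / 3 + (1 : ℕ) * S with hK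
  have hK' : K = (m2 : ℝ) / 2 + 1 / 3 + S := by
    rw [hK]
    push_cast
    ring
  have hK0 : 0 ≤ K := by
    rw [hK']
    positivity
  have hf0 : (0 : ℝ) ≤ f := Nat.cast_nonneg _
  have hK1 : (f : ℝ) + 2 * n + 1 < B * (n - K) := by
    refine hκ.trans_le (mul_le_mul_of_nonneg_left ?_ (by linarith))
    rw [hK']
    linarith
  have hKn : 0 < n - K := by
    by_contra hcon
    push Not at hcon
    have := mul_nonneg (by linarith : (0 : ℝ) ≤ B) (neg_nonneg.mpr hcon)
    linarith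
  -- the factorials
  have hlogM : Real.log ((2 * (n.factorial * (n + a).factorial) : ℕ) : ℝ) ≤ f * l := by
    have h1 : Real.log ((2 * (n.factorial * (n + a).factorial) : ℕ) : ℝ) ≤
        Real.log ((2 : ℝ) ^ f) := by
      apply Real.log_le_log
      · exact_mod_cast Nat.mul_pos (by norm_num)
          (Nat.mul_pos (Nat.factorial_pos n) (Nat.factorial_pos (n + a)))
      · exact_mod_cast hM.le
    rwa [Real.log_pow] at h1
  -- the window
  have hlogw : Real.log ((w : ℝ) + (t + 1 + a : ℕ)) ≤ Y + 2 * l := by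
    have h1 : Real.log ((w : ℝ) + (t + 1 + a : ℕ)) ≤ Real.log (N * 4) := by
      apply Real.log_le_log
      · have : (0 : ℝ) < (t + 1 + a : ℕ) := by
          exact_mod_cast (by omega : 0 < t + 1 + a)
        have h2 : (0 : ℝ) ≤ w := Nat.cast_nonneg _
        linarith
      · have : ((w + (t + 1 + a) : ℕ) : ℝ) ≤ ((4 * N : ℕ) : ℝ) := by exact_mod_cast hwN
        push_cast at this ⊢
        linarith
    have h2 : Real.log (4 : ℝ) = 2 * l := by
      rw [show (4 : ℝ) = 2 ^ 2 by norm_num, Real.log_pow]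
      push_cast
      rfl
    rwa [Real.log_mul hNR.ne' (by norm_num), h2] at h1
  -- t is small
  have hc2 : c2 n a ≤ 488 := by
    unfold c2
    apply max_le <;> omega
  have ht2 : t ^ 2 < 244 * N := by
    have h1 : c2 n a * N ≤ 488 * N := Nat.mul_le_mul_right _ hc2
    omega
  have hnt : 4 * n * t ≤ N := by
    by_contra hcon
    push Not at hcon
    have h1 : N * N < (4 * n * t) * (4 * n * t) := Nat.mul_self_lt_mul_self hcon
    have h2 : (4 * n * t) * (4 * n * t) = 16 * (n * n) * t ^ 2 := by ring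
    have h3 : n * n ≤ 62 * 62 := Nat.mul_le_mul hn' hn'
    have h4 : 16 * (n * n) * t ^ 2 ≤ 16 * (62 * 62) * (244 * N) :=
      Nat.mul_le_mul (Nat.mul_le_mul_left _ h3) ht2.le
    have h5 : 16 * (62 * 62) * (244 * N) = (16 * (62 * 62) * 244) * N := by ring
    have h6 : (16 * (62 * 62) * 244) * N ≤ N * N :=
      Nat.mul_le_mul_right _ (le_trans (by norm_num) hN200)
    omega
  have hntR : 4 * (n : ℝ) * t ≤ N := by exact_mod_cast hnt
  have ht0 : (0 : ℝ) ≤ t := Nat.cast_nonneg _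
  have hu : 4 * (n : ℝ) * ((t : ℝ) / N) ≤ 1 := by
    rw [← mul_div_assoc, div_le_one hNR]
    exact hntR
  set u : ℝ := (t : ℝ) / N with hudef
  have hu0 : 0 ≤ u := by positivity
  have hu2 : u ≤ 1 / 2 := by
    have h1 : 8 * u ≤ 4 * (n : ℝ) * u := mul_le_mul_of_nonneg_right (by linarith) hu0
    linarith
  have hlogN : n * Y - 1 / 2 ≤ n * Real.log ((N : ℝ) + 1 - t) := by
    have h1 : Real.log (1 - u) ≥ -2 * u := by
      have h2 := Real.one_sub_inv_le_log_of_pos (x := 1 - u) (by linarith)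
      have h3 : -2 * u ≤ 1 - (1 - u)⁻¹ := by
        have h4 : (1 - u)⁻¹ ≤ 1 + 2 * u := by
          rw [inv_le_comm₀ (by linarith) (by linarith), inv_eq_one_div,
            div_le_iff₀ (by linarith)]
          have h5 : 0 ≤ u * (1 - 2 * u) := mul_nonneg hu0 (by linarith)
          linarith
        linarith
      linarith
    have h5 : (N : ℝ) * (1 - u) ≤ (N : ℝ) + 1 - t := by
      have h6 : (N : ℝ) * u = t := by
        rw [hudef]
        field_simp
      have h7 : (N : ℝ) * (1 - u) = N - N * u := by ring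
      rw [h7, h6]
      linarith
    have h8 : Real.log ((N : ℝ) * (1 - u)) ≤ Real.log ((N : ℝ) + 1 - t) :=
      Real.log_le_log (mul_pos hNR (by linarith)) h5
    rw [Real.log_mul hNR.ne' (by linarith)] at h8
    have h9 : Y - 2 * u ≤ Real.log ((N : ℝ) + 1 - t) := by linarith
    have h10 := mul_le_mul_of_nonneg_left h9 (by linarith : (0 : ℝ) ≤ n)
    have h11 : (n : ℝ) * (Y - 2 * u) = n * Y - 4 * (n : ℝ) * u / 2 := by ring
    linarith
  -- conclusion
  have h1 : Real.log ((w : ℝ) + (t + 1 + a : ℕ)) * K ≤ (Y + 2 * l) * K :=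
    mul_le_mul_of_nonneg_right hlogw hK0
  have h2 : l * K ≤ l * n := mul_le_mul_of_nonneg_left (by linarith) (by linarith)
  have h3 : (f + 2 * n + 1) * l < B * (n - K) * l := mul_lt_mul_of_pos_right hK1 (by linarith)
  have h4 : (n - K) * (B * l) ≤ (n - K) * Y := mul_le_mul_of_nonneg_left hY hKn.le
  have e1 : (Y + 2 * l) * K = Y * K + 2 * (l * K) := by ring
  have e2 : (f + 2 * n + 1) * l = f * l + 2 * (l * n) + l := by ring
  have e3 : B * (n - K) * l = (n - K) * (B * l) := by ring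
  have e4 : (n - K) * Y = n * Y - Y * K := by ring
  rw [e1] at h1
  rw [e2, e3] at h3
  rw [e4] at h4
  linarith

end Pool.Agent.BY
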