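import Mathlib
import Pool.Agent.BY.Defs

set_option autoImplicit false

namespace Pool.Agent.BY

open Finset

private theorem SR_step {Q : ℕ} (h : ¬ (Q + 1).Prime ∨ Q + 1 < 3) : SR (Q + 1) = SR Q := by
  unfold SR
  congr 1
  ext q
  simp only [Finset.mem_filter, Finset.mem_Icc]
  constructor
  · rintro ⟨⟨h1, h2⟩, h3⟩
    refine ⟨⟨h1, ?_⟩, h3⟩
    by_contra h4
    have h5 : q = Q + 1 := by omega
    rw [h5] at h3 h1
    rcases h with h | h
    · exact h h3
    · omega
  · rintro ⟨⟨h1, h2⟩, h3⟩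
    exact ⟨⟨h1, by omega⟩, h3⟩

private theorem SR_le_succ (Q : ℕ) : SR (Q + 1) ≤ SR Q + 1 / ((Q : ℝ) + 1) := by
  unfold SR
  have hsub : (Finset.Icc 3 (Q + 1)).filter Nat.Prime ⊆
      insert (Q + 1) ((Finset.Icc 3 Q).filter Nat.Prime) := by
    intro q hq
    simp only [Finset.mem_filter, Finset.mem_Icc, Finset.mem_insert] at hq ⊢
    by_cases h : q = Q + 1
    · exact Or.inl h
    · exact Or.inr ⟨⟨hq.1.1, by omega⟩, hq.2⟩
  refine (Finset.sum_le_sum_of_subset_of_nonneg hsub fun i _ _ => by positivity).trans ?_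
  rw [Finset.sum_insert (by simp)]
  push_cast
  linarith

private theorem log_step {Q : ℕ} (hQ : 3 ≤ Q) :
    1 / 2 * Real.log (((Q : ℝ) - 2 + 1) / 2) + 1 / (Q : ℝ) ≤ 1 / 2 * Real.log (((Q : ℝ) + 1) / 2) := by
  have hQ' : (3 : ℝ) ≤ Q := by exact_mod_cast hQ
  have h1 := Real.le_log_one_add_of_nonneg (x := 2 / ((Q : ℝ) - 1)) (by
    have : 0 < (Q : ℝ) - 1 := by linarith
    positivity)
  have hne : (Q : ℝ) - 1 ≠ 0 := by linarith
  have h2 : 2 * (2 / ((Q : ℝ) - 1)) / (2 / ((Q : ℝ) - 1) + 2) = 2 / Q := by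
    have hQ0 : (Q : ℝ) ≠ 0 := by linarith
    have e : 2 / ((Q : ℝ) - 1) + 2 = 2 * Q / (Q - 1) := by
      field_simp
      ring
    rw [e, mul_div_assoc', div_div_div_cancel_right₀ hne, mul_div_mul_left _ _ (two_ne_zero)]
  rw [h2] at h1
  have h3 : ((Q : ℝ) + 1) / 2 = (1 + 2 / ((Q : ℝ) - 1)) * (((Q : ℝ) - 2 + 1) / 2) := by
    field_simp
    ring
  have h4 : 0 < 1 + 2 / ((Q : ℝ) - 1) := by
    have : 0 < (Q : ℝ) - 1 := by linarith
    positivity
  have h5 : 0 < ((Q : ℝ) - 2 + 1) / 2 := by linarith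
  rw [h3, Real.log_mul h4.ne' h5.ne']
  have h6 : 1 / (Q : ℝ) = 1 / 2 * (2 / Q) := by ring
  rw [h6]
  linarith

/-- Odd numbers instead of odd primes.

Proof. The primes in `[3, Q]` are odd numbers `2 m + 1`, `1 ≤ m ≤ (Q - 1) / 2`. By
`Real.le_log_one_add_of_nonneg` (`2 x / (x + 2) ≤ log (1 + x)`) with `x = 1/m`:
`1/(2m+1) ≤ (1/2) log ((m+1)/m) = (1/2) (log (m+1) - log m)`; the sum over `1 ≤ m ≤ M` is
`≤ (1/2) log (M + 1)`, `M + 1 ≤ (Q + 1)/2` for `M = (Q - 1)/2`, `Q ≥ 1`. (For instance by strong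
induction on `Q`, or `Finset.sum_le_sum_of_subset_of_nonneg` into the image of `m ↦ 2 m + 1` and
`Finset.sum_range_sub`-telescoping.) -/
theorem SR_le_odd {Q : ℕ} (hQ : 1 ≤ Q) : SR Q ≤ 1 / 2 * Real.log (((Q : ℝ) + 1) / 2) := by
  induction Q using Nat.strong_induction_on with
  | _ Q ih =>
    rcases Nat.lt_or_ge Q 3 with h3 | h3
    · have h1 : SR Q = 0 := by
        unfold SR
        rw [Finset.Icc_eq_empty (by omega)]
        simp
      rw [h1]
      have hQ' : (1 : ℝ) ≤ Q := by exact_mod_cast hQ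
      have := Real.log_nonneg (x := ((Q : ℝ) + 1) / 2) (by linarith)
      linarith
    · obtain ⟨n, rfl⟩ := Nat.exists_eq_add_of_le' (show 2 ≤ Q by omega)
      by_cases hp : (n + 2).Prime
      · -- `n + 2` odd, `n + 1` even
        have hn1 : ¬ (n + 1).Prime ∨ n + 1 < 3 := by
          by_cases h4 : n + 1 < 3
          · exact Or.inr h4
          · left
            intro h5
            have h6 := hp.eq_two_or_odd
            have h7 := h5.eq_two_or_odd
            omega
        have h1 := SR_le_succ (n + 1)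
        have h2 := SR_step hn1
        have h4 := ih n (by omega) (by omega)
        have h5 := log_step h3
        push_cast at h1 h5 ⊢
        have h6 : ((n : ℝ) + 2 - 2 + 1) = (n : ℝ) + 1 := by ring
        rw [h6] at h5
        have h7 : ((n : ℝ) + 1 + 1) = (n : ℝ) + 2 := by ring
        rw [h7] at h1
        rw [h2] at h1
        linarith
      · have h1 : SR (n + 1 + 1) = SR (n + 1) := SR_step (Or.inl hp)
        have h2 := ih (n + 1) (by omega) (by omega)
        have h4 : SR (n + 2) = SR (n + 1) := h1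
        rw [h4]
        refine h2.trans ?_
        push_cast
        have h5 : Real.log (((n : ℝ) + 1 + 1) / 2) ≤ Real.log (((n : ℝ) + 2 + 1) / 2) := by
          apply Real.log_le_log
          · positivity
          · linarith
        linarith

end Pool.Agent.BY
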