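import Mathlib
import Pool.Agent.BY.Defs

set_option autoImplicit false

namespace Pool.Agent.BY

open Finset

private theorem C4_dvd (N : ℕ) : ∏ p ∈ (range (N + 1)).filter Nat.Prime, p ^ (N / p) ∣ N.factorial := by
  apply Finset.prod_dvd_of_isRelPrime
  · intro p hp q hq hpq
    have hp' := (Finset.mem_filter.1 hp).2
    have hq' := (Finset.mem_filter.1 hq).2
    show IsRelPrime (p ^ (N / p)) (q ^ (N / q))
    rw [← Nat.coprime_iff_isRelPrime]
    exact Nat.Coprime.pow _ _ ((Nat.coprime_primes hp' hq').2 hpq)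
  · intro p hp
    have hp' := (Finset.mem_filter.1 hp).2
    rw [hp'.pow_dvd_factorial_iff (b := Nat.log p N + 2) (by omega)]
    have h1 : N / p = N / p ^ 1 := by rw [pow_one]
    rw [h1]
    exact Finset.single_le_sum (f := fun i => N / p ^ i) (fun i _ => Nat.zero_le _)
      (Finset.mem_Ico.2 ⟨le_refl 1, by omega⟩)

/-- The upper half of Mertens' first theorem.

Proof. For every prime `p ≤ N`, `p ^ (N / p)` divides `N!` (`N / p ≤ v_p(N!)`; e.g.
`p ^ (N/p) ∣ (p * (N/p))! ∣ N!`, or Legendre), and these are pairwise coprime, so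
`∏_{p ≤ N} p ^ (N / p) ∣ N!` and `∑ (N/p : ℕ) log p ≤ log (N!) ≤ N log N` (`Nat.factorial_le_pow`).
`(N : ℝ) / p ≤ (N / p : ℕ) + 1`, so `N ∑ (log p)/p ≤ N log N + ∑_{p ≤ N} log p ≤ N log N + N log 4`
(`primorial_le_4_pow`: `∏_{p ≤ N} p ≤ 4 ^ N`). Divide by `N`. -/
theorem mertens {N : ℕ} (hN : 1 ≤ N) :
    ∑ p ∈ (range (N + 1)).filter Nat.Prime, Real.log p / p ≤ Real.log N + Real.log 4 := by
  have hN' : (0 : ℝ) < N := by exact_mod_cast hN
  have h1 : ∑ p ∈ (range (N + 1)).filter Nat.Prime, ((N / p : ℕ) : ℝ) * Real.log p ≤ N * Real.log N := by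
    have h2 : ∏ p ∈ (range (N + 1)).filter Nat.Prime, p ^ (N / p) ≤ N ^ N :=
      (Nat.le_of_dvd (Nat.factorial_pos N) (C4_dvd N)).trans (Nat.factorial_le_pow N)
    have h3 : ((∏ p ∈ (range (N + 1)).filter Nat.Prime, p ^ (N / p) : ℕ) : ℝ) ≤ (N : ℝ) ^ N := by
      exact_mod_cast h2
    have h4 : (0 : ℝ) < ((∏ p ∈ (range (N + 1)).filter Nat.Prime, p ^ (N / p) : ℕ) : ℝ) := by
      have : 0 < ∏ p ∈ (range (N + 1)).filter Nat.Prime, p ^ (N / p) :=
        Finset.prod_pos fun p hp => pow_pos (Finset.mem_filter.1 hp).2.pos _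
      exact_mod_cast this
    have h5 := Real.log_le_log h4 h3
    rw [Real.log_pow, Nat.cast_prod, Real.log_prod] at h5
    · refine le_trans (le_of_eq (Finset.sum_congr rfl fun p _ => ?_)) h5
      rw [Nat.cast_pow, Real.log_pow]
    · intro p hp
      have := (Finset.mem_filter.1 hp).2.pos
      exact_mod_cast (pow_pos this _).ne'
  have h2 : ∑ p ∈ (range (N + 1)).filter Nat.Prime, Real.log p ≤ N * Real.log 4 := by
    have h3 : ((primorial N : ℕ) : ℝ) ≤ (4 : ℝ) ^ N := by exact_mod_cast primorial_le_four_pow N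
    have h4 : (0 : ℝ) < ((primorial N : ℕ) : ℝ) := by exact_mod_cast primorial_pos N
    have h5 := Real.log_le_log h4 h3
    unfold primorial at h5
    rw [Real.log_pow, Nat.cast_prod, Real.log_prod] at h5
    · exact h5
    · intro p hp
      have := (Finset.mem_filter.1 hp).2.pos
      exact_mod_cast this.ne'
  have h3 : (N : ℝ) * ∑ p ∈ (range (N + 1)).filter Nat.Prime, Real.log p / p ≤ N * Real.log N + N * Real.log 4 := by
    refine le_trans ?_ (add_le_add h1 h2)
    rw [← Finset.sum_add_distrib, Finset.mul_sum]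
    apply Finset.sum_le_sum
    intro p hp
    have hp' := (Finset.mem_filter.1 hp).2
    have hp0 : (0 : ℝ) < p := by exact_mod_cast hp'.pos
    have h4 : (N : ℝ) ≤ p * (((N / p : ℕ) : ℝ) + 1) := by
      have := Nat.lt_mul_div_succ N hp'.pos
      exact_mod_cast this.le
    have h5 : 0 ≤ Real.log p := Real.log_natCast_nonneg p
    have h6 : (N : ℝ) * (Real.log p / p) = N / p * Real.log p := by ring
    have h7 : (N : ℝ) / p ≤ ((N / p : ℕ) : ℝ) + 1 := by
      rw [div_le_iff₀ hp0]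
      linarith [mul_comm (p : ℝ) (((N / p : ℕ) : ℝ) + 1)]
    rw [h6]
    calc (N : ℝ) / p * Real.log p ≤ (((N / p : ℕ) : ℝ) + 1) * Real.log p := mul_le_mul_of_nonneg_right h7 h5
      _ = _ := by ring
  rw [← mul_add] at h3
  exact le_of_mul_le_mul_left h3 hN'

end Pool.Agent.BY
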