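import Mathlib
import Pool.Agent.BY.Defs
import Pool.Agent.BY.C4

set_option autoImplicit false

namespace Pool.Agent.BY

open Finset

/-- `A j = ∑_{p < 2^j} (log p)/p` -/
private noncomputable def C5_A (j : ℕ) : ℝ := ∑ p ∈ (range (2 ^ j)).filter Nat.Prime, Real.log p / p

private theorem C5_A_le {j : ℕ} (hj : 1 ≤ j) : C5_A j ≤ (j + 2) * Real.log 2 := by
  have h2 : 2 ≤ 2 ^ j := by
    calc 2 = 2 ^ 1 := by norm_num
      _ ≤ 2 ^ j := Nat.pow_le_pow_right (by norm_num) hj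
  have h1 := mertens (N := 2 ^ j - 1) (by omega)
  rw [Nat.sub_add_cancel (by omega)] at h1
  have h3 : Real.log ((2 ^ j - 1 : ℕ) : ℝ) ≤ j * Real.log 2 := by
    rw [← Real.log_pow]
    apply Real.log_le_log
    · have : 0 < 2 ^ j - 1 := by omega
      exact_mod_cast this
    · have : 2 ^ j - 1 ≤ 2 ^ j := by omega
      exact_mod_cast this
  have h4 : Real.log 4 = 2 * Real.log 2 := by
    rw [show (4 : ℝ) = 2 ^ 2 by norm_num, Real.log_pow]
    norm_num
  unfold C5_A
  rw [h4] at h1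
  linarith

/-- `S J = ∑_{3 ≤ q < 2^(J+1)} 1/q` -/
private noncomputable def C5_S (J : ℕ) : ℝ := ∑ q ∈ (Finset.Ico 3 (2 ^ (J + 1))).filter Nat.Prime, (1 : ℝ) / q

private theorem C5_step (J : ℕ) (hJ : 1 ≤ J) :
    C5_S (J + 1) ≤ C5_S J + (C5_A (J + 2) - C5_A (J + 1)) / ((J + 1) * Real.log 2) := by
  have hlog : 0 < Real.log 2 := Real.log_pos (by norm_num)
  have h4 : 4 ≤ 2 ^ (J + 1) := by
    calc 4 = 2 ^ 2 := by norm_num
      _ ≤ 2 ^ (J + 1) := Nat.pow_le_pow_right (by norm_num) (by omega)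
  have hmono : 2 ^ (J + 1) ≤ 2 ^ (J + 2) := Nat.pow_le_pow_right (by norm_num) (by omega)
  have h1 : C5_S (J + 1) = C5_S J + ∑ q ∈ (Finset.Ico (2 ^ (J + 1)) (2 ^ (J + 2))).filter Nat.Prime, (1 : ℝ) / q := by
    unfold C5_S
    rw [Finset.sum_filter, Finset.sum_filter, Finset.sum_filter]
    exact (Finset.sum_Ico_consecutive _ (by omega) hmono).symm
  have h2 : C5_A (J + 2) - C5_A (J + 1)
      = ∑ q ∈ (Finset.Ico (2 ^ (J + 1)) (2 ^ (J + 2))).filter Nat.Prime, Real.log q / q := by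
    unfold C5_A
    rw [Finset.sum_filter, Finset.sum_filter, Finset.sum_filter, Finset.sum_Ico_eq_sub _ hmono]
  rw [h1, h2]
  apply add_le_add_right
  have hpos : 0 < ((J : ℝ) + 1) * Real.log 2 := by positivity
  rw [le_div_iff₀ hpos, Finset.sum_mul]
  apply Finset.sum_le_sum
  intro q hq
  have hq1 := (Finset.mem_Ico.1 (Finset.mem_filter.1 hq).1).1
  have hq0 : (0 : ℝ) < q := by
    have : 0 < q := by omega
    exact_mod_cast this
  have h5 : ((J : ℝ) + 1) * Real.log 2 ≤ Real.log q := by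
    have h6 : Real.log (((2 ^ (J + 1) : ℕ) : ℝ)) ≤ Real.log q := by
      apply Real.log_le_log
      · positivity
      · exact_mod_cast hq1
    rw [Nat.cast_pow, Real.log_pow] at h6
    push_cast at h6
    exact h6
  rw [div_mul_eq_mul_div, one_mul]
  exact div_le_div_of_nonneg_right h5 hq0.le

/-- harmonic sum `H_m` -/
private noncomputable def C5_H (m : ℕ) : ℝ := ∑ i ∈ range m, 1 / ((i : ℝ) + 1)

private theorem C5_claim (J : ℕ) (hJ : 1 ≤ J) :
    C5_S J ≤ C5_A (J + 1) / (J * Real.log 2) + C5_H (J - 1) + 2 - 2 / J := by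
  have hlog : 0 < Real.log 2 := Real.log_pos (by norm_num)
  induction J, hJ using Nat.le_induction with
  | base =>
    have h1 : C5_S 1 = 1 / 3 := by
      unfold C5_S
      have : (Finset.Ico 3 (2 ^ (1 + 1))).filter Nat.Prime = {3} := by decide
      rw [this, Finset.sum_singleton]
      norm_num
    have h2 : C5_A 2 = Real.log 2 / 2 + Real.log 3 / 3 := by
      unfold C5_A
      have : (range (2 ^ 2)).filter Nat.Prime = {2, 3} := by decide
      rw [this, Finset.sum_pair (by norm_num)]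
      norm_num
    have h3 : C5_H 0 = 0 := by unfold C5_H; rw [Finset.range_zero, Finset.sum_empty]
    have h4 : Real.log 2 ≤ Real.log 3 := Real.log_le_log (by norm_num) (by norm_num)
    show C5_S 1 ≤ C5_A 2 / (((1 : ℕ) : ℝ) * Real.log 2) + C5_H 0 + 2 - 2 / ((1 : ℕ) : ℝ)
    rw [h1, h2, h3]
    have h5 : 1 / 3 ≤ (Real.log 2 / 2 + Real.log 3 / 3) / (((1 : ℕ) : ℝ) * Real.log 2) := by
      rw [Nat.cast_one, one_mul, le_div_iff₀ hlog]
      linarith
    have h6 : (2 : ℝ) / ((1 : ℕ) : ℝ) = 2 := by norm_num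
    rw [h6]
    linarith
  | succ J hJ ih =>
    have hJ0 : (0 : ℝ) < J := by exact_mod_cast hJ
    have h1 := C5_step J hJ
    have h2 := C5_A_le (j := J + 1) (by omega)
    have h3 : C5_H J = C5_H (J - 1) + 1 / J := by
      unfold C5_H
      obtain ⟨m, rfl⟩ : ∃ m, J = m + 1 := ⟨J - 1, by omega⟩
      rw [Nat.add_sub_cancel, Finset.sum_range_succ]
      push_cast
      rfl
    have h4 : C5_A (J + 1) / Real.log 2 ≤ J + 3 := by
      rw [div_le_iff₀ hlog]
      push_cast at h2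
      linarith
    have h5 : C5_A (J + 1) / (J * Real.log 2) - C5_A (J + 1) / ((J + 1) * Real.log 2)
        = C5_A (J + 1) / Real.log 2 * (1 / (J * (J + 1))) := by
      field_simp
      ring
    have h6 : C5_A (J + 1) / Real.log 2 * (1 / (J * (J + 1))) ≤ (J + 3) * (1 / ((J : ℝ) * (J + 1))) :=
      mul_le_mul_of_nonneg_right h4 (by positivity)
    have h7 : ((J : ℝ) + 3) * (1 / ((J : ℝ) * (J + 1))) = 1 / J + 2 / J - 2 / (J + 1) := by
      field_simp
      ring
    rw [Nat.add_sub_cancel]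
    push_cast
    rw [h3]
    rw [sub_div] at h1
    linarith

/-- Upper half of Mertens' second theorem, dyadic version.

Proof. Let `A j = ∑_{p < 2^j, p prime} (log p)/p`; `mertens` with `N = 2^j - 1` gives
`A j ≤ (j + 2) log 2` for `j ≥ 1` (`log (2^j - 1) ≤ j log 2`, `log 4 = 2 log 2`). Let
`S J = ∑_{3 ≤ q < 2^(J+1)} 1/q` (primes), so `SR (2^(J+1) - 1) = S J`. Claim, by induction on `J ≥ 1`:
`S J ≤ A (J+1) / (J log 2) + H_{J-1} + 2 - 2/J`, `H_m = ∑_{i=1}^m 1/i`.
`J = 1`: `S 1 = 1/3 ≤ A 2/log 2`, since `A 2 = (log 2)/2 + (log 3)/3`.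
Step: the primes `q ∈ [2^(J+1), 2^(J+2))` satisfy `1/q ≤ (log q)/q / ((J+1) log 2)`, so
`S (J+1) ≤ S J + (A (J+2) - A (J+1))/((J+1) log 2)
 ≤ A (J+2)/((J+1) log 2) + A (J+1)/log 2 * (1/J - 1/(J+1)) + H_{J-1} + 2 - 2/J`, and
`A (J+1)/log 2 * 1/(J (J+1)) ≤ (J+3)/(J (J+1)) = 1/J + 2/(J (J+1)) = 1/J + 2/J - 2/(J+1)`.
Finally `A (J+1)/(J log 2) ≤ (J+3)/J = 1 + 3/J` and `H_{J-1} ≤ 1 + log J` (`harmonic_le_one_add_log`; for
`J = 1` it is `0`): `S J ≤ 1 + 3/J + 1 + log J + 2 - 2/J ≤ 5 + log J`. -/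
theorem SR_le_log {J : ℕ} (hJ : 1 ≤ J) : SR (2 ^ (J + 1) - 1) ≤ 5 + Real.log J := by
  have hlog : 0 < Real.log 2 := Real.log_pos (by norm_num)
  have hJ0 : (0 : ℝ) < J := by exact_mod_cast hJ
  have h0 : SR (2 ^ (J + 1) - 1) = C5_S J := by
    unfold SR C5_S
    have hE : Finset.Icc 3 (2 ^ (J + 1) - 1) = Finset.Ico 3 (2 ^ (J + 1)) := by
      ext q
      have : 0 < 2 ^ (J + 1) := by positivity
      rw [Finset.mem_Icc, Finset.mem_Ico]
      omega
    rw [hE]
  have h1 := C5_claim J hJ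
  have h2 : C5_A (J + 1) / (J * Real.log 2) ≤ 1 + 3 / J := by
    have h3 := C5_A_le (j := J + 1) (by omega)
    rw [div_le_iff₀ (by positivity)]
    have h4 : (1 + 3 / (J : ℝ)) * (J * Real.log 2) = (J + 3) * Real.log 2 := by
      field_simp
    rw [h4]
    push_cast at h3
    linarith
  have h3 : C5_H (J - 1) ≤ 1 + Real.log J := by
    have h4 := harmonic_le_one_add_log (J - 1)
    have h5 : C5_H (J - 1) = ((harmonic (J - 1) : ℚ) : ℝ) := by
      unfold C5_H harmonic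
      push_cast
      simp only [one_div]
    rw [h5]
    refine h4.trans ?_
    apply add_le_add_right
    rcases Nat.eq_zero_or_pos (J - 1) with h6 | h6
    · rw [h6, Nat.cast_zero, Real.log_zero]
      exact Real.log_natCast_nonneg J
    · apply Real.log_le_log
      · exact_mod_cast h6
      · have : J - 1 ≤ J := by omega
        exact_mod_cast this
  have h4 : (3 : ℝ) / J - 2 / J = 1 / J := by ring
  have h5 : (1 : ℝ) / J ≤ 1 := by
    rw [div_le_one hJ0]
    exact_mod_cast hJ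
  rw [h0]
  linarith

end Pool.Agent.BY
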