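import Mathlib

set_option autoImplicit false

namespace Pool.Agent.BY

open Real

/-- the polynomial inequality -/
private lemma poly_ineq {u l : ℝ} (hu : 2.8284 ≤ u) (hl0 : 0 ≤ l) (hl : l ≤ 0.1589 + 1.41422 * u) :
    3 * l + 2.02 + (2 * l + 1 / 4) * (0.504 + 0.5 * u ^ 2 +
      (1.897 + 0.1203 * l) * (1.0014 + u ^ 2 / 6)) < 1.712 * (u ^ 4 - 1) := by
  have h1 : 3 * l + 2.02 + (2 * l + 1 / 4) * (0.504 + 0.5 * u ^ 2 +
      (1.897 + 0.1203 * l) * (1.0014 + u ^ 2 / 6)) ≤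
      3 * (0.1589 + 1.41422 * u) + 2.02 + (2 * (0.1589 + 1.41422 * u) + 1 / 4) *
        (0.504 + 0.5 * u ^ 2 + (1.897 + 0.1203 * (0.1589 + 1.41422 * u)) * (1.0014 + u ^ 2 / 6)) := by
    gcongr
  obtain ⟨y, rfl⟩ : ∃ y, u = 2.8284 + y := ⟨u - 2.8284, by ring⟩
  have hy : 0 ≤ y := by linarith
  have h2 : 0 < 1.712 * ((2.8284 + y) ^ 4 - 1) - (3 * (0.1589 + 1.41422 * (2.8284 + y)) + 2.02 +
      (2 * (0.1589 + 1.41422 * (2.8284 + y)) + 1 / 4) *
        (0.504 + 0.5 * (2.8284 + y) ^ 2 + (1.897 + 0.1203 * (0.1589 + 1.41422 * (2.8284 + y))) *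
          (1.0014 + (2.8284 + y) ^ 2 / 6))) := by
    ring_nf
    positivity
  linarith

/-- the coefficient of `Λ` -/
private lemma poly_ineq2 {u l : ℝ} (hu : 2.8284 ≤ u) (hl : l ≤ 0.1589 + 1.41422 * u) :
    0.504 + 0.5 * u ^ 2 + (1.897 + 0.1203 * l) * (1.0014 + u ^ 2 / 6) ≤ u ^ 4 - 1 := by
  have h1 : 0.504 + 0.5 * u ^ 2 + (1.897 + 0.1203 * l) * (1.0014 + u ^ 2 / 6) ≤
      0.504 + 0.5 * u ^ 2 + (1.897 + 0.1203 * (0.1589 + 1.41422 * u)) * (1.0014 + u ^ 2 / 6) := by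
    gcongr
  obtain ⟨y, rfl⟩ : ∃ y, u = 2.8284 + y := ⟨u - 2.8284, by ring⟩
  have hy : 0 ≤ y := by linarith
  have h2 : 0 < ((2.8284 + y) ^ 4 - 1) -
        (0.504 + 0.5 * (2.8284 + y) ^ 2 + (1.897 + 0.1203 * (0.1589 + 1.41422 * (2.8284 + y))) *
          (1.0014 + (2.8284 + y) ^ 2 / 6)) := by
    ring_nf
    positivity
  linarith

/-- **Final inequality, first regime** (version with the boundary `40 log n`). -/
theorem regime_one2 {n : ℕ} (hn : 63 ≤ n) {Λ K S : ℝ} (hΛ : 2 * log n ≤ Λ)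
    (hS : S ≤ 1.897 + 0.1203 * log n)
    (hK : K ≤ 0.504 + 0.5 * √((n : ℝ) + 1) + S * (1.0014 + √((n : ℝ) + 1) / 6)) :
    (2 * n + 3) * log n - 2 * n + 2.02 + (Λ + 1 / 4) * K < n * (Λ - 0.288) := by
  have hn' : (63 : ℝ) ≤ n := by exact_mod_cast hn
  set s : ℝ := √((n : ℝ) + 1) with hs
  set u : ℝ := √s with hu
  have hs0 : 0 ≤ s := Real.sqrt_nonneg _
  have hs2 : s ^ 2 = n + 1 := Real.sq_sqrt (by positivity)
  have hu2 : u ^ 2 = s := Real.sq_sqrt hs0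
  have hs8 : 8 ≤ s := Real.le_sqrt_of_sq_le (by linarith)
  have hu28 : 2.8284 ≤ u := by
    rw [hu]
    apply Real.le_sqrt_of_sq_le
    norm_num
    linarith
  have hu4 : u ^ 4 = n + 1 := by
    calc u ^ 4 = (u ^ 2) ^ 2 := by ring
      _ = _ := by rw [hu2, hs2]
  have hu0 : 0 < u := by linarith
  set l : ℝ := log (n : ℝ) with hl
  have hl0 : 0 ≤ l := Real.log_nonneg (by linarith)
  have hlu : l ≤ 0.1589 + 1.41422 * u := by
    have e1 : l ≤ log (u ^ 4) := by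
      rw [hl]
      exact Real.log_le_log (by linarith) (by rw [hu4]; linarith)
    have e2 : log (u ^ 4) = 4 * log u := by rw [Real.log_pow]; push_cast; ring
    have r2 : (0 : ℝ) < √2 := by positivity
    have r3 : √2 ^ 2 = 2 := Real.sq_sqrt (by norm_num)
    have r4 : √2 ≤ 1.41422 := by
      rw [Real.sqrt_le_left (by norm_num)]
      norm_num
    have e3 : log (u / (2 * √2)) ≤ u / (2 * √2) - 1 := Real.log_le_sub_one_of_pos (by positivity)
    have e4 : log (u / (2 * √2)) = log u - (log 2 + 1 / 2 * log 2) := by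
      have e0 : log √2 = 1 / 2 * log 2 := by
        rw [Real.log_sqrt (by norm_num)]
        ring
      rw [Real.log_div hu0.ne' (by positivity), Real.log_mul (by norm_num) r2.ne', e0]
    have e5 : u / (2 * √2) = u * √2 / 4 := by
      rw [div_eq_div_iff (by positivity) (by norm_num)]
      linear_combination (-2 * u) * r3
    have e6 : u * √2 ≤ u * 1.41422 := mul_le_mul_of_nonneg_left r4 hu0.le
    have e7 := Real.log_two_lt_d9
    rw [e4, e5] at e3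
    rw [e2] at e1
    linarith
  have hKb : K ≤ 0.504 + 0.5 * u ^ 2 + (1.897 + 0.1203 * l) * (1.0014 + u ^ 2 / 6) := by
    rw [hu2]
    have : S * (1.0014 + s / 6) ≤ (1.897 + 0.1203 * l) * (1.0014 + s / 6) :=
      mul_le_mul_of_nonneg_right hS (by positivity)
    linarith
  have p1 := poly_ineq hu28 hl0 hlu
  have p2 := poly_ineq2 hu28 hlu
  set K0 : ℝ := 0.504 + 0.5 * u ^ 2 + (1.897 + 0.1203 * l) * (1.0014 + u ^ 2 / 6) with hK0
  rw [hu4] at p1 p2
  have q1 : (Λ + 1 / 4) * K ≤ (Λ + 1 / 4) * K0 :=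
    mul_le_mul_of_nonneg_left hKb (by linarith)
  have q2 : 0 ≤ (n - K0) * (Λ - 2 * l) := mul_nonneg (by linarith) (by linarith)
  nlinarith

end Pool.Agent.BY
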