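import Mathlib

set_option autoImplicit false

namespace Pool.Agent.BY

open Real

/-- **Bound for `S` in the first regime** (boundary `40 log n`). -/
theorem S_bound2 {n : ℕ} (hn : 63 ≤ n) {Λ Q : ℝ} (hQ0 : 1 ≤ Q) (hΛ : Λ ≤ 40 * log n)
    (hQ : Q * log 2 ≤ Λ + 1 / 4) : 1 / 2 * log ((Q + 1) / 2) ≤ 1.897 + 0.1203 * log n := by
  have hn' : (63 : ℝ) ≤ n := by exact_mod_cast hn
  set l : ℝ := log (n : ℝ) with hl
  have hl0 : 0 ≤ l := Real.log_nonneg (by linarith)
  have g1 := Real.log_two_gt_d9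
  have g2 := Real.log_two_lt_d9
  have hQ1 : Q ≤ (40 * l + 1 / 4) * 1.442696 := by
    have h1 : Q * 0.6931471803 ≤ 40 * l + 1 / 4 := by nlinarith
    nlinarith
  have hlog120 : log 120 ≤ 4.78752 := by
    have h1 : 2 * (1 / 15 : ℝ) / (1 / 15 + 2) ≤ log (1 + 1 / 15) :=
      Real.le_log_one_add_of_nonneg (by norm_num)
    have h2 : log (128 : ℝ) = 7 * log 2 := by
      rw [show (128 : ℝ) = 2 ^ 7 by norm_num, Real.log_pow]
      push_cast
      ring
    have h3 : log (128 : ℝ) = log 120 + log (1 + 1 / 15) := by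
      rw [← Real.log_mul (by norm_num) (by norm_num)]
      norm_num
    norm_num at h1
    norm_num at h3
    rw [h2] at h3
    norm_num
    linarith
  have hy : 0 < (Q + 1) / 2 := by linarith
  have h1 : log ((Q + 1) / 2 / 120) ≤ (Q + 1) / 2 / 120 - 1 :=
    Real.log_le_sub_one_of_pos (by positivity)
  rw [Real.log_div hy.ne' (by norm_num)] at h1
  linarith

end Pool.Agent.BY
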