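import Mathlib

set_option autoImplicit false

namespace Pool.Agent.BY

open Real

/-- **Final inequality, second regime** (boundary `40 log n`). -/
theorem regime_two3 {n : ℕ} (hn : 63 ≤ n) {Λ K S : ℝ} (hΛ : 40 * log n ≤ Λ) (hS0 : 0 ≤ S)
    (hS : S ≤ 5 + log 2 * (n + 1))
    (hK : K ≤ 0.504 + 0.5 * √((n : ℝ) + 1) + S * (1 + (2 * √((n : ℝ) + 1) + 0.01) / (3 * n))) :
    (2 * n + 3) * log n - 2 * n + 2.02 + (Λ + 1 / 4) * K < n * (Λ - 0.288) := by
  have hn' : (63 : ℝ) ≤ n := by exact_mod_cast hn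
  set s : ℝ := √((n : ℝ) + 1) with hs
  have hs2 : s ^ 2 = n + 1 := Real.sq_sqrt (by positivity)
  have hs8 : 8 ≤ s := Real.le_sqrt_of_sq_le (by linarith)
  have hsn : (n : ℝ) = s ^ 2 - 1 := by linarith
  set l : ℝ := log (n : ℝ) with hl
  have hl1 : 1 ≤ l := by
    rw [hl, Real.le_log_iff_exp_le (by linarith)]
    have := Real.exp_one_lt_d9
    linarith
  have hq : (2 * s + 0.01) / (3 * n) ≤ 0.0848 := by
    rw [div_le_iff₀ (by positivity), hsn]
    nlinarith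
  have g2 := Real.log_two_lt_d9
  have hS' : S ≤ 5 + 0.6932 * (n + 1) := by
    have : log 2 * ((n : ℝ) + 1) ≤ 0.6932 * (n + 1) :=
      mul_le_mul_of_nonneg_right (by linarith) (by linarith)
    linarith
  have hK1 : K ≤ 0.504 + 0.5 * s + S * 1.0848 := by
    have : S * (1 + (2 * s + 0.01) / (3 * n)) ≤ S * 1.0848 :=
      mul_le_mul_of_nonneg_left (by linarith) hS0
    linarith
  have hK2 : K ≤ n - (0.06 * n + 1) := by
    have h1 : 0 ≤ 0.188 * ((n : ℝ)) - 0.5 * s - 7.69 := by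
      rw [hsn]
      nlinarith [sq_nonneg (s - 8)]
    linarith
  have q1 : (Λ + 1 / 4) * K ≤ (Λ + 1 / 4) * (n - (0.06 * n + 1)) :=
    mul_le_mul_of_nonneg_left hK2 (by linarith)
  have q2 : (0.06 * (n : ℝ) + 1) * (40 * l) ≤ (0.06 * n + 1) * Λ :=
    mul_le_mul_of_nonneg_left hΛ (by linarith)
  have q3 : 0 ≤ (n : ℝ) * l := by positivity
  linarith

end Pool.Agent.BY
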