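import Mathlib
import Pool.Agent.BY.Defs
import Pool.Agent.BY.C3
import Pool.Agent.BY.C5
import Pool.Agent.BY.I0
import Pool.Agent.BY.G1
import Pool.Agent.BY.G4
import Pool.Agent.BY.G3

set_option autoImplicit false

namespace Pool.Agent.BY

open Real

private lemma exp_quarter : (1.2838 : ℝ) ≤ Real.exp (1 / 4) := by
  have h := Real.sum_le_exp_of_nonneg (x := 1 / 4) (by norm_num) 4
  norm_num [Finset.sum_range_succ, Nat.factorial] at h ⊢
  linarith

private lemma exp_288 : (4 / 3 : ℝ) ≤ Real.exp 0.288 := by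
  have h := Real.sum_le_exp_of_nonneg (x := 0.288) (by norm_num) 4
  norm_num [Finset.sum_range_succ, Nat.factorial] at h ⊢
  linarith

private lemma SR_nonneg (Q : ℕ) : 0 ≤ SR Q := by
  unfold SR
  exact Finset.sum_nonneg fun q _ => by positivity

private lemma SR_mono {Q Q' : ℕ} (h : Q ≤ Q') : SR Q ≤ SR Q' := by
  unfold SR
  refine Finset.sum_le_sum_of_subset_of_nonneg ?_ fun q _ _ => by positivity
  intro q hq
  rw [Finset.mem_filter, Finset.mem_Icc] at hq ⊢
  exact ⟨⟨hq.1.1, hq.1.2.trans h⟩, hq.2⟩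

/-- the bound of the window's end -/
private lemma w_bound {n N a t w : ℝ} (hn : 63 ≤ n) (ha : a ≤ 1) (hN0 : 0 ≤ N)
    (ht : 4 * t ≤ N) (hw2 : n * (w + (N + 1 + a)) ≤ N * (2 * n + 1 + a)) :
    w + (t + 1 + a) ≤ 1.2838 * N := by
  have h1 : n * w ≤ n * N + (1 + a) * N - n * (1 + a) := by nlinarith
  have h2 : (1 + a) * N ≤ n * (2 / 63 * N) := by
    have e1 : (1 + a) * N ≤ 2 * N := mul_le_mul_of_nonneg_right (by linarith) hN0
    have e2 : 63 * (2 / 63 * N) ≤ n * (2 / 63 * N) := mul_le_mul_of_nonneg_right hn (by positivity)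
    linarith
  have h3 : n * (w + (1 + a)) ≤ n * (N + 2 / 63 * N) := by linarith
  have h4 : w + (1 + a) ≤ N + 2 / 63 * N := le_of_mul_le_mul_left h3 (by linarith)
  linarith

private lemma cube_le {m z N w : ℝ} (hm : m ^ 3 ≤ z) (hz0 : 0 ≤ z) (hz2 : z ^ 2 = N)
    (hN0 : 0 ≤ N) (hNw : N ≤ w + 1) : (m * z) ^ 3 ≤ (w + 1) ^ 2 := by
  have h1 : m ^ 3 * z ^ 3 ≤ z * z ^ 3 := mul_le_mul_of_nonneg_right hm (by positivity)
  have h3 : N ^ 2 ≤ (w + 1) ^ 2 := pow_le_pow_left₀ hN0 hNw 2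
  have h4 : z * z ^ 3 = N ^ 2 := by rw [← hz2]; ring
  calc (m * z) ^ 3 = m ^ 3 * z ^ 3 := by ring
    _ ≤ _ := by linarith

private lemma quo {t s z a e m : ℝ} (ht : t < 2 * s * z) (ha : a ≤ 1) (hz : 0 < z) (hm : 0 < m)
    (he : 1 ≤ e * z) : (t + 1 + a - 1) / (m * z) ≤ (2 * s + e) / m := by
  rw [div_le_div_iff₀ (by positivity) hm]
  have e1 : t + 1 + a - 1 ≤ (2 * s + e) * z := by
    have : (2 * s + e) * z = 2 * s * z + e * z := by ring
    linarith
  calc (t + 1 + a - 1) * m ≤ ((2 * s + e) * z) * m := mul_le_mul_of_nonneg_right e1 hm.le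
    _ = (2 * s + e) * (m * z) := by ring

set_option maxHeartbeats 1000000 in
/-- **Assembly of the inequalities.** -/
theorem final_ineq3 {n N a t w : ℕ} (hn : 63 ≤ n) (ha : a ≤ 1) (hN : (n + 1) ^ 2 ≤ N)
    (ht : t ^ 2 < 4 * (n + 1) * N) (hw1 : N + 1 + a ≤ w)
    (hw2 : n * (w + (N + 1 + a)) ≤ N * (2 * n + 1 + a))
    (hc : w + (t + 1 + a) < 2 ^ (2 ^ (2 ^ (n + 1)))) :
    ∃ ρ2 ρ3 : ℝ, 0 < ρ2 ∧ ρ2 ^ 2 ≤ w + 1 ∧ 0 < ρ3 ∧ ρ3 ^ 3 ≤ ((w : ℝ) + 1) ^ 2 ∧
      log ((n.factorial * (n + a).factorial : ℕ) : ℝ) +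
        log ((w : ℝ) + (t + 1 + a : ℕ)) *
          (1 / 2 * (1 + (((t + 1 + a : ℕ) : ℝ) - 1) / (2 * ρ2)) +
            (1 + (((t + 1 + a : ℕ) : ℝ) - 1) / (3 * ρ3)) * SR (Nat.log 2 (w + (t + 1 + a)))) <
        n * log ((N : ℝ) + 1 - t) := by
  have hn' : (63 : ℝ) ≤ n := by exact_mod_cast hn
  have ha' : (a : ℝ) ≤ 1 := by exact_mod_cast ha
  have ha0 : (0 : ℝ) ≤ a := by positivity
  have ht0 : (0 : ℝ) ≤ t := by positivity
  have hN' : ((n : ℝ) + 1) ^ 2 ≤ N := by exact_mod_cast hN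
  have ht' : (t : ℝ) ^ 2 < 4 * (n + 1) * N := by exact_mod_cast ht
  have hw1' : (N : ℝ) + 1 + a ≤ w := by exact_mod_cast hw1
  have hw2' : (n : ℝ) * (w + (N + 1 + a)) ≤ N * (2 * n + 1 + a) := by exact_mod_cast hw2
  have hNpos : (4096 : ℝ) ≤ N := by nlinarith
  set s : ℝ := √((n : ℝ) + 1) with hs
  set z : ℝ := √(N : ℝ) with hz
  have hs2 : s ^ 2 = n + 1 := Real.sq_sqrt (by positivity)
  have hz2 : z ^ 2 = N := Real.sq_sqrt (by positivity)
  have hs8 : 8 ≤ s := by
    rw [hs]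
    apply Real.le_sqrt_of_sq_le
    linarith
  have hzn : (n : ℝ) + 1 ≤ z := by
    rw [hz]
    exact Real.le_sqrt_of_sq_le hN'
  have hz64 : 64 ≤ z := by linarith
  have hs0 : 0 < s := by linarith
  have hz0 : 0 < z := by linarith
  have hn0 : (0 : ℝ) < n := by linarith
  have htz : (t : ℝ) < 2 * s * z := by
    refine lt_of_pow_lt_pow_left₀ 2 (by positivity) ?_
    calc (t : ℝ) ^ 2 < 4 * (n + 1) * N := ht'
      _ = (2 * s * z) ^ 2 := by rw [← hs2, ← hz2]; ring
  have h4t : 4 * (t : ℝ) ≤ N := by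
    have h1 : 8 * s ≤ z := by nlinarith
    have h2 : 8 * s * z ≤ z * z := mul_le_mul_of_nonneg_right h1 hz0.le
    nlinarith
  -- logarithms
  set Λ : ℝ := log (N : ℝ) with hΛ
  have hwA : (w : ℝ) + (t + 1 + a) ≤ 1.2838 * N :=
    w_bound hn' ha' (by positivity) h4t hw2'
  have hcast : ((t + 1 + a : ℕ) : ℝ) = (t : ℝ) + 1 + a := by push_cast; ring
  have hlogw : log ((w : ℝ) + (t + 1 + a)) ≤ Λ + 1 / 4 := by
    have e1 : (w : ℝ) + (t + 1 + a) ≤ N * Real.exp (1 / 4) := by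
      have := mul_le_mul_of_nonneg_left exp_quarter (by positivity : (0 : ℝ) ≤ N)
      linarith
    calc log ((w : ℝ) + (t + 1 + a)) ≤ log (N * Real.exp (1 / 4)) :=
          Real.log_le_log (by positivity) e1
      _ = Λ + 1 / 4 := by
          rw [Real.log_mul (by linarith) (Real.exp_pos _).ne', Real.log_exp]
  have hlogw0 : 0 ≤ log ((w : ℝ) + (t + 1 + a)) := Real.log_nonneg (by linarith)
  have hlogN : Λ - 0.288 ≤ log ((N : ℝ) + 1 - t) := by
    have e1 : (N : ℝ) * Real.exp (-0.288) ≤ N + 1 - t := by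
      have e2 : Real.exp (-0.288) ≤ 3 / 4 := by
        rw [Real.exp_neg]
        rw [inv_le_comm₀ (Real.exp_pos _) (by norm_num)]
        norm_num
        exact exp_288.trans (le_of_eq (by norm_num))
      have := mul_le_mul_of_nonneg_left e2 (by positivity : (0 : ℝ) ≤ N)
      linarith
    calc Λ - 0.288 = log (N * Real.exp (-0.288)) := by
          rw [Real.log_mul (by linarith) (Real.exp_pos _).ne', Real.log_exp]; ring
      _ ≤ _ := Real.log_le_log (mul_pos (by linarith) (Real.exp_pos _)) e1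
  have hΛ2 : 2 * log (n : ℝ) ≤ Λ := by
    have : 2 * log (n : ℝ) = log ((n : ℝ) ^ 2) := by rw [Real.log_pow]; push_cast; ring
    rw [this]
    exact Real.log_le_log (by positivity) (by nlinarith)
  have hfac := log_facts (n := n) (a := a) (by omega) ha
  -- finishing
  have finish : ∀ K : ℝ, 0 ≤ K →
      (2 * n + 3) * log n - 2 * n + 2.02 + (Λ + 1 / 4) * K < n * (Λ - 0.288) →
      log ((n.factorial * (n + a).factorial : ℕ) : ℝ) + log ((w : ℝ) + (t + 1 + a)) * K <
        n * log ((N : ℝ) + 1 - t) := by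
    intro K hK h
    have h1 : log ((w : ℝ) + (t + 1 + a)) * K ≤ (Λ + 1 / 4) * K :=
      mul_le_mul_of_nonneg_right hlogw hK
    have h2 : n * (Λ - 0.288) ≤ n * log ((N : ℝ) + 1 - t) :=
      mul_le_mul_of_nonneg_left hlogN hn0.le
    linarith
  -- the index of the last exponent
  set Q : ℕ := Nat.log 2 (w + (t + 1 + a)) with hQ
  have hQ1 : 1 ≤ Q := by
    rw [hQ]
    apply Nat.log_pos (by norm_num)
    have : 4096 ≤ N := by exact_mod_cast hNpos
    omega
  have hQlog : (Q : ℝ) * log 2 ≤ Λ + 1 / 4 := by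
    have h1 : 2 ^ Q ≤ w + (t + 1 + a) := Nat.pow_log_le_self 2 (by omega)
    have h2 : ((2 : ℝ) ^ Q) ≤ (w : ℝ) + (t + 1 + a) := by
      have : ((2 ^ Q : ℕ) : ℝ) ≤ ((w + (t + 1 + a) : ℕ) : ℝ) := by exact_mod_cast h1
      push_cast at this
      linarith
    calc (Q : ℝ) * log 2 = log ((2 : ℝ) ^ Q) := by rw [Real.log_pow]
      _ ≤ log ((w : ℝ) + (t + 1 + a)) := Real.log_le_log (by positivity) h2
      _ ≤ _ := hlogw
  have hSR0 := SR_nonneg Q
  -- the first summand
  have hfirst : 1 / 2 * (1 + (((t : ℝ) + 1 + a) - 1) / (2 * z)) ≤ 0.504 + 0.5 * s := by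
    have h1 := quo (e := 1 / 64) (m := 2) htz ha' hz0 (by norm_num) (by linarith)
    linarith
  have hfirst0 : 0 ≤ 1 / 2 * (1 + (((t : ℝ) + 1 + a) - 1) / (2 * z)) := by
    have : 0 ≤ ((t : ℝ) + 1 + a - 1) / (2 * z) := div_nonneg (by linarith) (by positivity)
    linarith
  rw [hcast]
  rcases le_or_gt Λ (40 * log n) with hcase | hcase
  · -- first regime
    refine ⟨z, 4 * z, hz0, by rw [hz2]; linarith, by positivity, ?_, ?_⟩
    · exact cube_le (by linarith) hz0.le hz2 (by positivity) (by linarith)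
    · have h1 : ((t : ℝ) + 1 + a - 1) / (3 * (4 * z)) ≤ s / 6 + 0.0014 := by
        have h1 := quo (e := 1 / 64) (m := 12) htz ha' hz0 (by norm_num) (by linarith)
        have e1 : 3 * (4 * z) = 12 * z := by ring
        rw [e1]
        linarith
      have h1' : 0 ≤ ((t : ℝ) + 1 + a - 1) / (3 * (4 * z)) :=
        div_nonneg (by linarith) (by positivity)
      refine finish _ (add_nonneg hfirst0 (mul_nonneg (by linarith) hSR0)) ?_
      refine regime_one2 hn hΛ2 ((SR_le_odd hQ1).trans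
        (S_bound2 hn (by exact_mod_cast hQ1) hcase hQlog)) (S := SR Q) ?_
      rw [← hs]
      have h2 : (1 + ((t : ℝ) + 1 + a - 1) / (3 * (4 * z))) * SR Q ≤
          SR Q * (1.0014 + s / 6) := by
        rw [mul_comm]
        exact mul_le_mul_of_nonneg_left (by linarith) hSR0
      linarith
  · -- second regime
    have hn1 : 1 ≤ (n : ℝ) := by linarith
    have hN10 : (n : ℝ) ^ 10 ≤ N := by
      have h1 : log ((n : ℝ) ^ 10) ≤ log (N : ℝ) := by
        rw [Real.log_pow]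
        push_cast
        have : 0 ≤ log (n : ℝ) := Real.log_nonneg hn1
        linarith
      exact (Real.log_le_log_iff (by positivity) (by linarith)).mp h1
    have hz5 : (n : ℝ) ^ 5 ≤ z := by
      rw [hz]
      apply Real.le_sqrt_of_sq_le
      calc ((n : ℝ) ^ 5) ^ 2 = (n : ℝ) ^ 10 := by ring
        _ ≤ _ := hN10
    have hz3 : (n : ℝ) ^ 3 ≤ z := (pow_le_pow_right₀ hn1 (by norm_num)).trans hz5
    refine ⟨z, n * z, hz0, by rw [hz2]; linarith, by positivity, ?_, ?_⟩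
    · exact cube_le hz3 hz0.le hz2 (by positivity) (by linarith)
    · have hz100 : 100 ≤ z := by
        have : (63 : ℝ) ^ 5 ≤ (n : ℝ) ^ 5 := pow_le_pow_left₀ (by norm_num) hn' 5
        norm_num at this
        linarith
      have h1 : ((t : ℝ) + 1 + a - 1) / (3 * (n * z)) ≤ (2 * s + 0.01) / (3 * n) := by
        have e1 : 3 * ((n : ℝ) * z) = (3 * n) * z := by ring
        rw [e1]
        exact quo htz ha' hz0 (by positivity) (by linarith)
      have h1' : 0 ≤ ((t : ℝ) + 1 + a - 1) / (3 * (n * z)) :=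
        div_nonneg (by linarith) (by positivity)
      refine finish _ (add_nonneg hfirst0 (mul_nonneg (by linarith) hSR0)) ?_
      refine regime_two3 hn hcase.le hSR0 ?_ ?_
      · -- the bound for `SR Q`
        obtain ⟨J, hJ⟩ : ∃ J, 2 ^ (n + 1) = J + 1 := ⟨2 ^ (n + 1) - 1, by
          have : 0 < 2 ^ (n + 1) := by positivity
          omega⟩
        have hJ1 : 1 ≤ J := by
          have : 2 ^ 1 ≤ 2 ^ (n + 1) := Nat.pow_le_pow_right (by norm_num) (by omega)
          omega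
        have hQJ : Q ≤ 2 ^ (J + 1) - 1 := by
          have h2 : Q < 2 ^ (J + 1) := by
            rw [hQ, ← hJ]
            exact Nat.log_lt_of_lt_pow (by omega) hc
          omega
        have h3 := (SR_mono hQJ).trans (SR_le_log hJ1)
        have h4 : log (J : ℝ) ≤ log 2 * (n + 1) := by
          have e1 : (J : ℝ) ≤ (2 : ℝ) ^ (n + 1) := by
            have : J ≤ 2 ^ (n + 1) := by omega
            exact_mod_cast this
          calc log (J : ℝ) ≤ log ((2 : ℝ) ^ (n + 1)) := Real.log_le_log (by exact_mod_cast hJ1) e1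
            _ = ((n + 1 : ℕ) : ℝ) * log 2 := by rw [Real.log_pow]
            _ = _ := by push_cast; ring
        linarith
      · rw [← hs]
        have h2 : (1 + ((t : ℝ) + 1 + a - 1) / (3 * (n * z))) * SR Q ≤
            SR Q * (1 + (2 * s + 0.01) / (3 * n)) := by
          rw [mul_comm]
          exact mul_le_mul_of_nonneg_left (by linarith) hSR0
        linarith

end Pool.Agent.BY
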