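import Mathlib
import Pool.Agent.BY.C2
import Pool.Agent.BY.D13
import Pool.Agent.BY.D1
import Pool.Agent.BY.D2
import Pool.Agent.BY.D3
import Pool.Agent.BY.D4
import Pool.Agent.BY.D6
import Pool.Agent.BY.D7
import Pool.Agent.BY.D8
import Pool.Agent.BY.D9
import Pool.Agent.BY.F3

set_option autoImplicit false

namespace Pool.Agent.BY

open Finset

private lemma SR5_nonneg (Q : ℕ) : 0 ≤ SR5 Q := by
  unfold SR5
  exact Finset.sum_nonneg fun q _ => by positivity

private lemma c2_le (n a : ℕ) (ha : a ≤ 1) : c2 n a ≤ 8 * (n + 1) := by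
  unfold c2
  omega

set_option maxRecDepth 100000 in
private lemma pow_bounds : 2 ^ 404 ≤ (3 ^ (2 ^ 8) - 3) / 2 ∧ 2 ^ 6490 ≤ (3 ^ (2 ^ 12) - 3) / 2 ∧
    2 ^ 256 ≤ 3 ^ 162 := by
  refine ⟨?_, ?_, ?_⟩ <;> decide +kernel

private lemma log_fifteen : Real.log 15 ≤ 2.7081 := by
  have h1 : 2 * (1 / 15 : ℝ) / (1 / 15 + 2) ≤ Real.log (1 + 1 / 15) :=
    Real.le_log_one_add_of_nonneg (by norm_num)
  have h2 : Real.log (16 : ℝ) = 4 * Real.log 2 := by
    rw [show (16 : ℝ) = 2 ^ 4 by norm_num, Real.log_pow]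
    push_cast
    ring
  have h3 : Real.log (16 : ℝ) = Real.log 15 + Real.log (1 + 1 / 15) := by
    rw [← Real.log_mul (by norm_num) (by norm_num)]
    norm_num
  have g2 := Real.log_two_lt_d9
  norm_num at h1
  norm_num at h3
  rw [h2] at h3
  norm_num
  linarith

/-- the odd part, `n ≤ 62` -/
private lemma big_small {n a N t w : ℕ} (hn : 2 ≤ n) (hn' : n ≤ 62) (ha : a ≤ 1) (hN : N03 n a ≤ N)
    (ht : 2 * t ^ 2 < c2 n a * N) (hw1 : N + 1 + a ≤ w)
    (hw2 : n * (w + (N + 1 + a)) ≤ N * (2 * n + 1 + a)) (hWN : w + (t + 1 + a) ≤ 2 * (N + 1 + a))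
    (hc : w + (t + 1 + a) < 2 ^ (2 ^ (2 ^ (n + 1)))) (G : Finset ℕ)
    (hG : ∀ p ∈ G, p.Prime ∧ ∃ g, 2 ≤ g ∧ w + 1 ≤ p ^ g ∧ p ^ g ≤ w + (t + 1 + a))
    (hG2 : ∀ p ∈ G, p ≠ 2) :
    Real.log ((2 * (n.factorial * (n + a).factorial) : ℕ) : ℝ) + ∑ p ∈ G, Real.log p <
      n * Real.log ((N : ℝ) + 1 - t) := by
  obtain ⟨-, -, h32⟩ := chk0c_true hn hn' ha
  obtain ⟨pb1, pb2, pb3⟩ := pow_bounds
  set W := w + (t + 1 + a) with hW
  have hNW : N < W := by omega
  obtain ⟨Q, hQdef⟩ : ∃ Q, Q = Nat.log 3 W := ⟨_, rfl⟩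
  have hWQ : W < 3 ^ (Q + 1) := by
    rw [hQdef]
    exact Nat.lt_pow_succ_log_self (by norm_num) _
  have hQW : 3 ^ Q ≤ W := by
    rw [hQdef]
    exact Nat.pow_log_le_self 3 (by omega)
  have hQ3 : 3 ≤ Q := by
    by_contra hcon
    have : 3 ^ (Q + 1) ≤ 3 ^ 3 := Nat.pow_le_pow_right (by norm_num) (by omega)
    omega
  obtain ⟨J, hJdef⟩ : ∃ J, J = Nat.log 2 Q := ⟨_, rfl⟩
  have hQJ : Q < 2 ^ (J + 1) := by
    rw [hJdef]
    exact Nat.lt_pow_succ_log_self (by norm_num) _
  have hJQ : 2 ^ J ≤ Q := by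
    rw [hJdef]
    exact Nat.pow_log_le_self 2 (by omega)
  have hQ2 : Q < 2 ^ (2 ^ (n + 1)) := by
    have h1 : 2 ^ Q ≤ W := (Nat.pow_le_pow_left (by norm_num) Q).trans hQW
    exact (Nat.pow_lt_pow_iff_right (by norm_num : 1 < 2)).1 (lt_of_le_of_lt h1 hc)
  have hJn : J < 2 ^ (n + 1) := by
    rw [hJdef]
    exact Nat.log_lt_of_lt_pow (by omega) hQ2
  have hNJ : (3 ^ (2 ^ J) - 3) / 2 ≤ N := by
    have h1 : 3 ^ (2 ^ J) ≤ 3 ^ Q := Nat.pow_le_pow_right (by norm_num) hJQ
    omega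
  have hN4 : W ≤ 4 * N := by omega
  have hQ' : Q ≤ 2 ^ (J + 1) - 1 := by omega
  have hS0 := SR5_nonneg Q
  rcases Nat.lt_or_ge J 8 with hJ8 | hJ8
  · -- certificate
    have hJ1 : 1 ≤ J := by
      by_contra hcon
      have h0 : J = 0 := by omega
      rw [h0] at hQJ
      omega
    · have hN0J : N03 n a < 3 ^ (2 ^ (J + 1)) := by
        have : 3 ^ (Q + 1) ≤ 3 ^ (2 ^ (J + 1)) := Nat.pow_le_pow_right (by norm_num) (by omega)
        omega
      have hcert := cert3_true hn hn' ha hJ1 (by omega) hN0J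
      unfold cert3 chk3 at hcert
      simp only [Bool.and_eq_true, decide_eq_true_eq] at hcert
      obtain ⟨⟨⟨⟨⟨⟨⟨⟨c1, c2⟩, c3⟩, c4⟩, c5⟩, c6⟩, c7⟩, c8⟩, c9⟩ := hcert
      have hNl : NJ3 n a J ≤ N := max_le hN hNJ
      have hNl1 : 1 ≤ NJ3 n a J := le_trans (by omega) (le_max_left _ _)
      obtain ⟨ρ2, ρ3, ρ5, r1, r2, r3, r4, r5, r6, r7, r8, r9⟩ :=
        window_sound3 ha c2 c3 c4 c5 c6 hNl ht hw1
      have hS : SR5 Q ≤ (eN n J : ℝ) / 60 := by
        unfold eN
        split_ifs with h27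
        · have hQ161 : Q ≤ 161 := by
            by_contra hcon
            have h1 : 3 ^ 162 ≤ 3 ^ Q := Nat.pow_le_pow_right (by norm_num) (by omega)
            have h2 : W < 2 ^ 256 := by
              have h3 : 2 ^ (2 ^ (n + 1)) = 256 := by rw [h27.1]; norm_num
              rw [← h3]
              exact hc
            have h4 : 2 ^ 256 ≤ W := pb3.trans (h1.trans hQW)
            omega
          refine (SR5_mono3 hQ161).trans (SR5_161.trans (le_of_eq ?_))
          norm_num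
        · rcases Nat.lt_or_ge J 2 with hJ2 | hJ2
          · have h1 : SR5 Q ≤ SR5 4 := SR5_mono3 (by
              have : 2 ^ (J + 1) ≤ 2 ^ (1 + 1) := Nat.pow_le_pow_right (by norm_num) (by omega)
              omega)
            have h2 : SR5 4 = 0 := by
              unfold SR5
              simp
            have h3 : (0 : ℝ) ≤ (eJ3 J : ℝ) / 60 := by positivity
            linarith
          · exact (SR5_mono3 hQ').trans (SR5_table3 hJ2 (by omega))
      have hlog := log_sound3 hn ha c1 c7 c8 c9 hNl hNl1 ht hw1 hw2 hS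
      have hGl := log_G3 (w := w) (A := t + 1 + a) (Q := Q) (by omega) (by omega) hWQ G hG hG2 r1 r2
        r3 r4 r5 r6 r7 r8 r9
      linarith
  · have hN404 : 2 ^ 404 ≤ N := by
      have h1 : 2 ^ 8 ≤ 2 ^ J := Nat.pow_le_pow_right (by norm_num) hJ8
      have h2 : 3 ^ (2 ^ 8) ≤ 3 ^ (2 ^ J) := Nat.pow_le_pow_right (by norm_num) h1
      omega
    have hn3 : 3 ≤ n := by
      by_contra hcon
      have : n = 2 := by omega
      subst this
      omega
    obtain ⟨m2, f, hchk⟩ := chk8c_true hn3 hn' ha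
    unfold chk8c at hchk
    simp only [Bool.and_eq_true, decide_eq_true_eq] at hchk
    obtain ⟨⟨⟨d1, d2⟩, d3⟩, d4⟩ := hchk
    have hN200 : 2 ^ 200 ≤ N := (Nat.pow_le_pow_right (by norm_num) (by norm_num)).trans hN404
    obtain ⟨ρ2, ρ3, ρ5, r1, r2, r3, r4, r5, r6, r7, r8, r9⟩ := window8c hn' ha d2 hN200 ht hw1
    have hlog : Real.log ((2 * (n.factorial * (n + a).factorial) : ℕ) : ℝ) +
        Real.log ((w : ℝ) + (t + 1 + a : ℕ)) * ((m2 : ℝ) / 2 + (1 : ℕ) / 3 + (1 : ℕ) * SR5 Q) <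
        n * Real.log ((N : ℝ) + 1 - t) := by
      rcases Nat.lt_or_ge J 12 with hJ12 | hJ12
      · refine log8c (κ := (m2 : ℝ) / 2 + 1 / 3 + 93 / 60) hn hn' ha d1 (by norm_num : 200 ≤ 404)
          hN404 ht hN4 hS0 ?_ ?_
        · have h1 := SR5_table3 (J := 11) (by norm_num) le_rfl
          have h2 : SR5 Q ≤ SR5 (2 ^ (11 + 1) - 1) := by
            refine SR5_mono3 (hQ'.trans ?_)
            have : 2 ^ (J + 1) ≤ 2 ^ (11 + 1) := Nat.pow_le_pow_right (by norm_num) (by omega)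
            omega
          have h3 : (eJ3 11 : ℝ) = 93 := by
            have : eJ3 11 = 93 := rfl
            rw [this]
            norm_num
          rw [h3] at h1
          have h4 := h2.trans h1
          linarith
        · have h1 : (60 : ℝ) * (f + 2 * n + 1) + 404 * (30 * m2 + 20 + 93) < 60 * 404 * n := by
            exact_mod_cast d3
          push_cast
          linarith
      · have hN6490 : 2 ^ 6490 ≤ N := by
          have h1 : 2 ^ 12 ≤ 2 ^ J := Nat.pow_le_pow_right (by norm_num) hJ12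
          have h2 : 3 ^ (2 ^ 12) ≤ 3 ^ (2 ^ J) := Nat.pow_le_pow_right (by norm_num) h1
          omega
        have hSR : 1 / 3 + SR5 Q ≤ Real.log J - 1 / 4 := by
          have h1 := SR5_mono3 hQ'
          have h2 := SR_eq3 (Q := 2 ^ (J + 1) - 1) (by
            have : 2 ^ 12 ≤ 2 ^ (J + 1) := Nat.pow_le_pow_right (by norm_num) (by omega)
            omega)
          have h3 := SR_le_log12 hJ12
          linarith
        have hJ0 : (0 : ℝ) < J := by
          have : 0 < J := by omega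
          exact_mod_cast this
        by_cases h3n : n = 3
        · subst h3n
          simp only [if_true] at d4
          have hJ15 : (J : ℝ) ≤ 15 := by
            have : J ≤ 15 := by omega
            exact_mod_cast this
          have h4 := (Real.log_le_log hJ0 hJ15).trans log_fifteen
          refine log8c (κ := (m2 : ℝ) / 2 + 2.7081 - 1 / 4) hn hn' ha d1 (by norm_num : 200 ≤ 6490)
            hN6490 ht hN4 hS0 (by linarith) ?_
          have h1 : (10 : ℝ) ^ 4 * (f + 2 * 3 + 1) + 6490 * (5000 * m2 + 27081) <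
              6490 * (10 ^ 4 * 3 + 2500) := by exact_mod_cast d4
          push_cast
          linarith
        · rw [if_neg h3n] at d4
          have h4 : Real.log (J : ℝ) ≤ 0.6932 * (n + 1) := by
            have e1 : (J : ℝ) ≤ (2 : ℝ) ^ (n + 1) := by exact_mod_cast hJn.le
            have e2 := Real.log_le_log hJ0 e1
            rw [Real.log_pow] at e2
            push_cast at e2
            have e3 := Real.log_two_lt_d9
            have e4 : ((n : ℝ) + 1) * Real.log 2 ≤ (n + 1) * 0.6932 :=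
              mul_le_mul_of_nonneg_left (by linarith) (by positivity)
            linarith
          refine log8c (κ := (m2 : ℝ) / 2 + 0.6932 * (n + 1) - 1 / 4) hn hn' ha d1
            (by norm_num : 200 ≤ 6490) hN6490 ht hN4 hS0 (by linarith) ?_
          have h1 : (10 : ℝ) ^ 4 * (f + 2 * n + 1) + 6490 * (5000 * m2 + 6932 * (n + 1)) <
              6490 * (10 ^ 4 * n + 2500) := by exact_mod_cast d4
          push_cast
          linarith
    have hGl := log_G3 (w := w) (A := t + 1 + a) (Q := Q) (by omega) (by omega) hWQ G hG hG2 r1 r2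
      r3 r4 r5 r6 r7 r8 r9
    linarith

/-- **The final inequality.** -/
theorem big_ineq3 {n a N t w : ℕ} (hn : 2 ≤ n) (ha : a ≤ 1) (hN : N03 n a ≤ N)
    (ht : 2 * t ^ 2 < c2 n a * N) (hw1 : N + 1 + a ≤ w)
    (hw2 : n * (w + (N + 1 + a)) ≤ N * (2 * n + 1 + a)) (hWN : w + (t + 1 + a) ≤ 2 * (N + 1 + a))
    (hc : w + (t + 1 + a) < 2 ^ (2 ^ (2 ^ (n + 1)))) (G : Finset ℕ)
    (hG : ∀ p ∈ G, p.Prime ∧ ∃ g, 2 ≤ g ∧ w + 1 ≤ p ^ g ∧ p ^ g ≤ w + (t + 1 + a)) :
    Real.log ((n.factorial * (n + a).factorial : ℕ) : ℝ) + ∑ p ∈ G, Real.log p <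
      n * Real.log ((N : ℝ) + 1 - t) := by
  rcases Nat.lt_or_ge n 63 with h63 | h63
  · have h1 := big_small hn (by omega) ha hN ht hw1 hw2 hWN hc (G.filter (fun p => ¬ p = 2))
      (fun p hp => hG p (Finset.mem_filter.mp hp).1) (fun p hp => (Finset.mem_filter.mp hp).2)
    have h2 := Finset.sum_filter_add_sum_filter_not G (fun p => p = 2) (fun p => Real.log (p : ℝ))
    have h3 : ∑ p ∈ G.filter (fun p => p = 2), Real.log (p : ℝ) ≤ Real.log 2 := by
      rw [Finset.filter_eq']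
      split_ifs with h
      · simp
      · simp only [Finset.sum_empty]
        exact Real.log_nonneg (by norm_num)
    have hM : (0 : ℝ) < ((n.factorial * (n + a).factorial : ℕ) : ℝ) := by
      exact_mod_cast Nat.mul_pos (Nat.factorial_pos n) (Nat.factorial_pos (n + a))
    have h4 : Real.log ((2 * (n.factorial * (n + a).factorial) : ℕ) : ℝ) =
        Real.log 2 + Real.log ((n.factorial * (n + a).factorial : ℕ) : ℝ) := by
      rw [← Real.log_mul (by norm_num) hM.ne']
      push_cast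
      rfl
    rw [h4] at h1
    linarith
  · have hN2 : (n + 1) ^ 2 ≤ N := by
      rw [N03_large (by omega)] at hN
      nlinarith
    have ht2 : t ^ 2 < 4 * (n + 1) * N := by
      have h1 : c2 n a * N ≤ 8 * (n + 1) * N := Nat.mul_le_mul_right _ (c2_le n a ha)
      have h2 : 8 * (n + 1) * N = 2 * (4 * (n + 1) * N) := by ring
      omega
    obtain ⟨ρ2, ρ3, r1, r2, r3, r4, hfin⟩ := final_ineq3 h63 ha hN2 ht2 hw1 hw2 hc
    have hGl := log_G (w := w) (A := t + 1 + a) (Q := Nat.log 2 (w + (t + 1 + a))) (by omega)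
      (by omega) (Nat.lt_pow_succ_log_self (by norm_num) _) G hG r1 r2 r3 r4
    linarith

end Pool.Agent.BY
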