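import Mathlib
import Pool.Agent.BetaL.Closed

set_option autoImplicit false

namespace Pool.Agent.BY

open Finset Pool.Agent.BetaL

private lemma N1_ext (l M : ℕ) (hM : l + 1 ≤ M) (u : ℕ → ℝ) :
    ∑ j ∈ range (l + 1), (l.choose j : ℝ) * u j = ∑ j ∈ range M, (l.choose j : ℝ) * u j := by
  refine Finset.sum_subset (Finset.range_subset_range.2 hM) ?_
  intro j _ hj
  rw [Finset.mem_range, not_lt] at hj
  rw [Nat.choose_eq_zero_of_lt (by omega)]
  simp

private lemma N1_R (l m : ℕ) (hl : l ≤ m + 2) (x a L lam : ℝ) :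
    Ps l x a L lam = ∑ i ∈ range (m + 2), (l.choose (i + 1) : ℝ) * dd x a L lam (i + 1) + 1 := by
  unfold Ps
  rw [N1_ext l (m + 3) (by omega), Finset.sum_range_succ']
  simp [dd]

private lemma N1_ch1 (m i : ℕ) (hi : i ≤ m + 1) :
    ((m + 1).choose (i + 1) : ℝ) * (i + 1) = ((m + 1).choose i : ℝ) * (m + 1 - i) := by
  have h := Nat.choose_succ_right_eq (m + 1) i
  have h2 : (((m + 1).choose (i + 1) * (i + 1) : ℕ) : ℝ) = (((m + 1).choose i * (m + 1 - i) : ℕ) : ℝ) := by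
    exact_mod_cast h
  push_cast [Nat.cast_sub hi] at h2
  exact h2

private lemma N1_ch2 (m i : ℕ) (hi : i ≤ m + 1) :
    (m.choose i : ℝ) * (m + 1) = ((m + 1).choose i : ℝ) * (m + 1 - i) := by
  rw [← N1_ch1 m i hi]
  have h := Nat.add_one_mul_choose_eq m i
  have h2 : (((m + 1) * m.choose i : ℕ) : ℝ) = (((m + 1).choose (i + 1) * (i + 1) : ℕ) : ℝ) := by
    exact_mod_cast h
  push_cast at h2
  linarith

/-- Three-term recurrence (dual Hahn polynomials). Notation: `N = x - 1`, `R l = Ps l x a L lam`,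
`α l = (l + a + 1)(N - l)`, `κ l = l (N + L - a - l)`; claim for `l = m + 1`:
`α l R (l+1) = (α l + κ l - lam) R l - κ l R (l-1)`.

Proof. Write all sums over `j ∈ range (m + 3)` (the additional terms vanish: `Nat.choose_eq_zero_of_lt`).
By `dd`: `(a + 1 + j)(N - j) dd_{j+1} = -(lam - j (j + L)) dd_j` for `j ≤ m + 1` (denominators nonzero), so
`lam R l = ∑_j C(l,j) lam dd_j = ∑_j C(l,j) j (j + L) dd_j - ∑_j C(l,j) (a+1+j)(N-j) dd_{j+1}
= ∑_j dd_j [ C(l,j) j (j+L) - C(l,j-1) (a+j)(N-j+1) ]` (shift the second sum; the term `j = 0` is `0`).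
The claim follows from the identity of the coefficients of `dd_j` for `1 ≤ j ≤ l + 1`:
`α l C(l+1,j) - (α l + κ l) C(l,j) + κ l C(l-1,j) = - C(l,j) j (j+L) + C(l,j-1) (a+j)(N-j+1)`.
By Pascal the left side is `α l C(l,j-1) - κ l C(l-1,j-1)`. Multiply by `l (l+1)` or use
`C(l-1,j-1) l = C(l,j) j`, `C(l,j-1)(l-j+1) = C(l,j) j`: for `j ≤ l`, with `C(l,j) j = C(l,j-1)(l-j+1)` and
`C(l-1,j-1) l = C(l,j-1)(l-j+1)` all terms are multiples of `C(l,j-1)`:
`(l+a+1)(N-l) - (N+L-a-l)(l-j+1) = -(j+L)(l-j+1) + (a+j)(N-j+1)` (a polynomial identity, `ring`); for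
`j = l + 1` the same formulas hold (`l - j + 1 = 0`). For `j = 0`: `α - (α + κ) + κ = 0`. -/
theorem Ps_rec (m : ℕ) {x a L lam : ℝ} (ha : 0 ≤ a) (hx : (m : ℝ) + 2 < x) :
    ((m + 1 : ℝ) + a + 1) * (x - 1 - (m + 1)) * Ps (m + 2) x a L lam =
      (((m + 1 : ℝ) + a + 1) * (x - 1 - (m + 1)) + (m + 1) * (x - 1 + L - a - (m + 1)) - lam) *
        Ps (m + 1) x a L lam -
      (m + 1) * (x - 1 + L - a - (m + 1)) * Ps m x a L lam := by
  have hD : ∀ j : ℕ, j ≤ m + 1 → (a + 1 + j) * (x - 1 - j) * dd x a L lam (j + 1) =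
      -(dd x a L lam j * (lam - j * (j + L))) := by
    intro j hj
    have h1 : a + 1 + (j : ℝ) ≠ 0 := by positivity
    have h2 : x - 1 - (j : ℝ) ≠ 0 := by
      have : (j : ℝ) ≤ m + 1 := by exact_mod_cast hj
      have : 0 < x - 1 - (j : ℝ) := by linarith
      exact this.ne'
    simp only [dd]
    field_simp
  have r2 := N1_R (m + 2) m le_rfl x a L lam
  have r1 := N1_R (m + 1) m (by omega) x a L lam
  have r0 := N1_R m m (by omega) x a L lam
  have hlam : lam * Ps (m + 1) x a L lam =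
      ∑ i ∈ range (m + 2), ((m + 1).choose (i + 1) : ℝ) * (((i : ℝ) + 1) * ((i : ℝ) + 1 + L) * dd x a L lam (i + 1)) -
      ∑ i ∈ range (m + 2), ((m + 1).choose i : ℝ) * ((a + 1 + i) * (x - 1 - i) * dd x a L lam (i + 1)) := by
    have e1 : ∑ i ∈ range (m + 2), ((m + 1).choose (i + 1) : ℝ) * (((i : ℝ) + 1) * ((i : ℝ) + 1 + L) * dd x a L lam (i + 1)) =
        ∑ j ∈ range (m + 2), ((m + 1).choose j : ℝ) * ((j : ℝ) * ((j : ℝ) + L) * dd x a L lam j) := by
      have e0 := Finset.sum_range_succ' (fun j : ℕ => ((m + 1).choose j : ℝ) * ((j : ℝ) * ((j : ℝ) + L) * dd x a L lam j)) (m + 2)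
      rw [N1_ext (m + 1) (m + 3) (by omega) (fun j => (j : ℝ) * ((j : ℝ) + L) * dd x a L lam j)]
      rw [show m + 3 = m + 2 + 1 from rfl, e0]
      simp
    rw [e1, ← Finset.sum_sub_distrib, Ps, Finset.mul_sum]
    refine Finset.sum_congr rfl fun j hj => ?_
    rw [Finset.mem_range] at hj
    rw [hD j (by omega)]
    ring
  set S2 := ∑ i ∈ range (m + 2), ((m + 2).choose (i + 1) : ℝ) * dd x a L lam (i + 1) with hS2
  set S1 := ∑ i ∈ range (m + 2), ((m + 1).choose (i + 1) : ℝ) * dd x a L lam (i + 1) with hS1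
  set S0 := ∑ i ∈ range (m + 2), (m.choose (i + 1) : ℝ) * dd x a L lam (i + 1) with hS0
  set T1 := ∑ i ∈ range (m + 2), ((m + 1).choose (i + 1) : ℝ) * (((i : ℝ) + 1) * ((i : ℝ) + 1 + L) * dd x a L lam (i + 1)) with hT1
  set T2 := ∑ i ∈ range (m + 2), ((m + 1).choose i : ℝ) * ((a + 1 + i) * (x - 1 - i) * dd x a L lam (i + 1)) with hT2
  have key : ((m + 1 : ℝ) + a + 1) * (x - 1 - (m + 1)) * S2 -
      (((m + 1 : ℝ) + a + 1) * (x - 1 - (m + 1)) + (m + 1) * (x - 1 + L - a - (m + 1))) * S1 +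
      (m + 1) * (x - 1 + L - a - (m + 1)) * S0 + T1 - T2 = 0 := by
    rw [hS2, hS1, hS0, hT1, hT2, Finset.mul_sum, Finset.mul_sum, Finset.mul_sum, ← Finset.sum_sub_distrib,
      ← Finset.sum_add_distrib, ← Finset.sum_add_distrib, ← Finset.sum_sub_distrib]
    refine Finset.sum_eq_zero fun i hi => ?_
    rw [Finset.mem_range] at hi
    have c1 := N1_ch1 m i (by omega)
    have c2 := N1_ch2 m i (by omega)
    have p1 : ((m + 2).choose (i + 1) : ℝ) = (m + 1).choose i + (m + 1).choose (i + 1) := by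
      exact_mod_cast Nat.choose_succ_succ (m + 1) i
    have p2 : ((m + 1).choose (i + 1) : ℝ) = m.choose i + m.choose (i + 1) := by
      exact_mod_cast Nat.choose_succ_succ m i
    rw [p1]
    linear_combination (-((m + 1) * (x - 1 + L - a - (m + 1))) * dd x a L lam (i + 1)) * p2
      + ((i + 1 + L) * dd x a L lam (i + 1)) * c1 - ((x - 1 + L - a - (m + 1)) * dd x a L lam (i + 1)) * c2
  rw [r2, r0]
  rw [r1] at hlam ⊢
  linear_combination key + hlam

end Pool.Agent.BY
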