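import Mathlib
import Pool.Agent.BetaL.Closed
import Pool.Agent.BY.N1

set_option autoImplicit false

namespace Pool.Agent.BY

open Finset Pool.Agent.BetaL

private theorem n4_zero (x a L lam : ℝ) : Ps 0 x a L lam = 1 := by
  simp [Ps, dd]

private theorem n4_one (x a L lam : ℝ) :
    Ps 1 x a L lam = 1 - lam / ((a + 1) * (x - 1)) := by
  simp [Ps, dd, Finset.sum_range_succ]
  ring

private theorem n4_amgm {al ka U V : ℝ} (h1 : 0 < al) (h2 : 0 ≤ ka) (hU : 0 < U)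
    (h : (al + ka) / 2 * U ≤ al * V) : 0 < V ∧ ka * U ≤ (al + ka) / 2 * V := by
  have hb : 0 < (al + ka) / 2 := by linarith
  have hV : 0 < V := by
    by_contra h3
    have h4 : al * V ≤ 0 := mul_nonpos_of_nonneg_of_nonpos h1.le (not_lt.1 h3)
    have h5 : 0 < (al + ka) / 2 * U := mul_pos hb hU
    linarith
  refine ⟨hV, ?_⟩
  refine le_of_mul_le_mul_left ?_ h1
  have h3 : (al + ka) / 2 * ((al + ka) / 2 * U) ≤ (al + ka) / 2 * (al * V) :=
    mul_le_mul_of_nonneg_left h hb.le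
  have h4 : 0 ≤ ((al - ka) / 2) ^ 2 * U := by positivity
  nlinarith

private theorem n4_rec {m : ℕ} {x a L lam : ℝ} (ha : 0 ≤ a) (hx : (m : ℝ) + 3 ≤ x) :
    ((m + 1 : ℝ) + a + 1) * (x - 1 - (m + 1)) * ((-1) ^ (m + 2) * Ps (m + 2) x a L lam) =
      (lam - ((m + 1 : ℝ) + a + 1) * (x - 1 - (m + 1)) - (m + 1 : ℝ) * (x - 1 + L - a - (m + 1))) *
        ((-1) ^ (m + 1) * Ps (m + 1) x a L lam) -
          (m + 1 : ℝ) * (x - 1 + L - a - (m + 1)) * ((-1) ^ m * Ps m x a L lam) := by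
  have hrec := Ps_rec m (x := x) (a := a) (L := L) (lam := lam) ha (by linarith)
  have e1 : ((-1 : ℝ)) ^ (m + 1) = -(-1) ^ m := by rw [pow_succ]; ring
  have e2 : ((-1 : ℝ)) ^ (m + 2) = (-1) ^ m := by rw [pow_succ, e1]; ring
  rw [e1, e2]
  linear_combination (-1) ^ m * hrec

private theorem n4_ind {n : ℕ} {x a L lam : ℝ} (ha : 0 ≤ a) (hL : a ≤ L) (hx : (n : ℝ) + 1 ≤ x)
    (h0 : 1 < n → (a + 1) * (x - 1) + ((a + 1) * (x - 1) + (x - 1 + L - a - 1)) / 2 ≤ lam)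
    (h1 : ∀ l : ℕ, l + 2 < n →
      ((l + 1 : ℝ) + a + 1) * (x - 1 - (l + 1)) + (l + 1) * (x - 1 + L - a - (l + 1)) +
        (((l : ℝ) + a + 1) * (x - 1 - l) + (l + 1) * (x - 1 + L - a - (l + 1))) / 2 +
        (((l + 1 : ℝ) + a + 1) * (x - 1 - (l + 1)) + (l + 2) * (x - 1 + L - a - (l + 2))) / 2 ≤ lam) :
    ∀ m : ℕ, m + 1 < n → 0 < (-1) ^ (m + 1) * Ps (m + 1) x a L lam ∧
      (m + 1 : ℝ) * (x - 1 + L - a - (m + 1)) * ((-1) ^ m * Ps m x a L lam) ≤
        (((m : ℝ) + a + 1) * (x - 1 - m) + (m + 1) * (x - 1 + L - a - (m + 1))) / 2 *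
          ((-1) ^ (m + 1) * Ps (m + 1) x a L lam) := by
  intro m
  induction m with
  | zero =>
    intro hn
    have hn1 : (2 : ℝ) ≤ n := by exact_mod_cast hn
    have hD : 0 < (a + 1) * (x - 1) := mul_pos (by linarith) (by linarith)
    have h2 := h0 hn
    have hk : 0 ≤ (x - 1 + L - a - 1) := by linarith
    have h3 : ((a + 1) * (x - 1) + (x - 1 + L - a - 1)) / 2 * 1 ≤
        (a + 1) * (x - 1) * ((-1) ^ (0 + 1) * Ps (0 + 1) x a L lam) := by
      rw [zero_add, n4_one, pow_one]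
      have e : (a + 1) * (x - 1) * (-1 * (1 - lam / ((a + 1) * (x - 1)))) =
          lam - (a + 1) * (x - 1) := by
        have h9 : (a + 1) * (x - 1) * (lam / ((a + 1) * (x - 1))) = lam := by
          rw [mul_comm, div_mul_cancel₀ _ hD.ne']
        linear_combination h9
      rw [e]
      linarith
    have h4 := n4_amgm hD hk one_pos h3
    refine ⟨h4.1, ?_⟩
    have h5 := h4.2
    rw [n4_zero]
    simp only [Nat.cast_zero, zero_add, sub_zero, one_mul, pow_zero, mul_one] at h5 ⊢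
    exact h5
  | succ m ih =>
    intro hm
    obtain ⟨h2, h3⟩ := ih (by omega)
    have hm' : (m : ℝ) + 3 ≤ n := by exact_mod_cast hm
    have hm0 : (0 : ℝ) ≤ m := Nat.cast_nonneg _
    have hl := h1 m (by omega)
    have hrec := n4_rec (m := m) (x := x) (a := a) (L := L) (lam := lam) ha (by linarith)
    have hal0 : 0 < ((m + 1 : ℝ) + a + 1) * (x - 1 - (m + 1)) := mul_pos (by linarith) (by linarith)
    have hka0 : 0 ≤ ((m : ℝ) + 2) * (x - 1 + L - a - (m + 2)) := mul_nonneg (by linarith) (by linarith)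
    have h4 : (((m + 1 : ℝ) + a + 1) * (x - 1 - (m + 1)) + (m + 2) * (x - 1 + L - a - (m + 2))) / 2 *
        ((-1) ^ (m + 1) * Ps (m + 1) x a L lam) ≤
        ((m + 1 : ℝ) + a + 1) * (x - 1 - (m + 1)) * ((-1) ^ (m + 2) * Ps (m + 2) x a L lam) := by
      rw [hrec]
      have h5 := mul_le_mul_of_nonneg_right hl h2.le
      nlinarith
    have h5 := n4_amgm hal0 hka0 h2 h4
    refine ⟨h5.1, ?_⟩
    have h6 := h5.2
    have e : ((m + 1 : ℕ) : ℝ) = (m : ℝ) + 1 := by push_cast; ring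
    rw [e]
    have e2 : (m : ℝ) + 1 + 1 = m + 2 := by ring
    rw [e2]
    exact h6

/-- A sharper version of `Ps_ne` (see the complete proof of `Ps_ne` in `Pool/Agent/BY/N2.lean`; same method).

Proof. Let `α l = (l + a + 1)(x - 1 - l)`, `κ l = l (x - 1 + L - a - l)`, `β l = (α (l-1) + κ l)/2` for
`l ≥ 1` and `β 0 = 0` (so `β (l + 1) = (α l + κ (l+1))/2`), `u l = (-1)^l Ps l x a L lam`. `Ps_rec`:
`α l u (l+1) = (lam - α l - κ l) u l - κ l u (l-1)` for `1 ≤ l < n`, and `α 0 u 1 = (lam - α 0) u 0`, `u 0 = 1`.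
Claim, by induction for `1 ≤ l < n`: `0 < u l` and `κ l u (l-1) ≤ β l u l`.
* From `l ≥ 1` to `l + 1 < n`: `α l u (l+1) ≥ (lam - α l - κ l - β l) u l ≥ β (l+1) u l` by `h1 (l - 1)`; so
`u (l + 1) > 0`, and `β(l+1) u(l+1) ≥ β(l+1)² u l / α l ≥ κ(l+1) u l`, because `β(l+1)² ≥ α l κ(l+1)`.
* `l = 0`: `α 0 u 1 = (lam - α 0) ≥ β 1 u 0` by `h0` (if `1 < n`), and the same conclusion.
* At the end, `l = n - 1 ≥ 1`: `α l u n ≥ (lam - α l - κ l - β l) u l > 0` by `h2`; `n = 1`: `h3`.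
All `α l > 0`, `κ l ≥ 0` for `l < n`. -/
theorem Ps_ne2 {n : ℕ} {x a L lam : ℝ} (hn : 1 ≤ n) (ha : 0 ≤ a) (hL : a ≤ L) (hx : (n : ℝ) + 1 ≤ x)
    (h0 : 1 < n → (a + 1) * (x - 1) + ((a + 1) * (x - 1) + (x - 1 + L - a - 1)) / 2 ≤ lam)
    (h1 : ∀ l : ℕ, l + 2 < n →
      ((l + 1 : ℝ) + a + 1) * (x - 1 - (l + 1)) + (l + 1) * (x - 1 + L - a - (l + 1)) +
        (((l : ℝ) + a + 1) * (x - 1 - l) + (l + 1) * (x - 1 + L - a - (l + 1))) / 2 +
        (((l + 1 : ℝ) + a + 1) * (x - 1 - (l + 1)) + (l + 2) * (x - 1 + L - a - (l + 2))) / 2 ≤ lam)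
    (h2 : ∀ l : ℕ, n = l + 2 →
      ((l + 1 : ℝ) + a + 1) * (x - 1 - (l + 1)) + (l + 1) * (x - 1 + L - a - (l + 1)) +
        (((l : ℝ) + a + 1) * (x - 1 - l) + (l + 1) * (x - 1 + L - a - (l + 1))) / 2 < lam)
    (h3 : n = 1 → (a + 1) * (x - 1) < lam) :
    Ps n x a L lam ≠ 0 := by
  have key := n4_ind ha hL hx h0 h1
  rcases n with _ | _ | m
  · omega
  · have h4 := h3 rfl
    have hx' : (2 : ℝ) ≤ x := by
      have := hx
      push_cast at this
      linarith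
    have hD : 0 < (a + 1) * (x - 1) := mul_pos (by linarith) (by linarith)
    rw [zero_add, n4_one]
    have h5 : 1 < lam / ((a + 1) * (x - 1)) := by
      rw [lt_div_iff₀ hD]
      linarith
    linarith
  · obtain ⟨h4, h5⟩ := key m (by omega)
    have h6 := h2 m rfl
    have hm' : (m : ℝ) + 3 ≤ x := by
      have := hx
      push_cast at this
      linarith
    have hrec := n4_rec (m := m) (x := x) (a := a) (L := L) (lam := lam) ha hm'
    intro h7
    have e : m + 1 + 1 = m + 2 := rfl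
    rw [e] at h7
    rw [h7, mul_zero, mul_zero] at hrec
    have h8 := mul_lt_mul_of_pos_right h6 h4
    nlinarith

end Pool.Agent.BY
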