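import Mathlib
import Pool.Agent.BY.N4

set_option autoImplicit false

namespace Pool.Agent.BY

open Finset Pool.Agent.BetaL

/-- **Sharper bound for the zeros:** `2 t² < max (6 n + 3 a - 4, 8 n + 4 a - 12) N`, `N = x - 1`.

Proof. Suppose `2 t² ≥ c₂ N` with `c₂` the maximum. `c₂ ≥ 6 n - 4` and `N ≥ n² + 4 n + 1`, so `t² ≥ (3 n - 2) n²`
and `t ≥ 2 n` (`n ≥ 2`: `3 n - 2 ≥ 4`). Apply `Ps_ne2` with `lam = t (L + t) = t² + t L`,
`t² ≥ (4 n + 2 a - 6) N`, `t² ≥ (3 n + 3 a/2 - 2) N`, `t L ≥ 2 n L`; `N = x - 1`: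
`h0`: the left side is `≤ 3/2 (a+1) N + (N + L)/2 ≤ (3 n + 3 a/2 - 2) N + L/2 ≤ lam`.
`h1` (`l + 1 ≤ n - 2`, write `m = l + 1`): the left side is at most (the subtracted terms are `≥ 0`)
`(m + a + 1) N + m (N + L) + ((m + a) N + m (N + L))/2 + ((m + a + 1) N + (m + 1)(N + L))/2
= (4 m + 2 + 2 a) N + (2 m + 1/2) L ≤ (4 n - 6 + 2 a) N + 2 n L` (`m ≤ n - 2`).
`h2` (`m = n - 1 = l + 1`): the left side is `< (m+a+1) N + m (N + L) + ((m + a) N + m (N + L))/2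
= (3 m + 1 + 3 a/2) N + 3/2 m L ≤ (3 n - 2 + 3 a/2) N + 2 n L`; strict because `(m + a + 1) m > 0` was
dropped. `h3` does not occur. -/
theorem zero_bound3 {n t : ℕ} {x a L : ℝ} (hn : 2 ≤ n) (ha : 0 ≤ a) (hL : a ≤ L)
    (hx : (n : ℝ) ^ 2 + 4 * n + 1 ≤ x - 1) (h0 : Ps n x a L ((t : ℝ) * (L + t)) = 0) :
    2 * (t : ℝ) ^ 2 < max (6 * (n : ℝ) + 3 * a - 4) (8 * n + 4 * a - 12) * (x - 1) := by
  by_contra hcon
  have hc := not_lt.mp hcon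
  have hn3 : (2 : ℝ) ≤ n := by exact_mod_cast hn
  have ht0 : (0 : ℝ) ≤ t := Nat.cast_nonneg _
  have hL0 : 0 ≤ L := ha.trans hL
  have hN : 0 < x - 1 := by nlinarith
  have hc1 : (6 * (n : ℝ) + 3 * a - 4) * (x - 1) ≤ 2 * (t : ℝ) ^ 2 :=
    (mul_le_mul_of_nonneg_right (le_max_left _ _) hN.le).trans hc
  have hc2 : (8 * (n : ℝ) + 4 * a - 12) * (x - 1) ≤ 2 * (t : ℝ) ^ 2 :=
    (mul_le_mul_of_nonneg_right (le_max_right _ _) hN.le).trans hc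
  -- `t ≥ 2 n`
  have ht : 2 * (n : ℝ) ≤ t := by
    have h1 : (2 * (n : ℝ)) ^ 2 ≤ (t : ℝ) ^ 2 := by
      have h2 : (6 * (n : ℝ) - 4) * (n : ℝ) ^ 2 ≤ (6 * (n : ℝ) + 3 * a - 4) * (x - 1) := by
        apply mul_le_mul (by linarith) (by nlinarith) (by positivity) (by linarith)
      nlinarith [mul_nonneg (sub_nonneg.mpr hn3) (sq_nonneg (n : ℝ))]
    exact (pow_le_pow_iff_left₀ (by positivity) ht0 (by norm_num)).1 h1
  have htL : 2 * (n : ℝ) * L ≤ t * L := mul_le_mul_of_nonneg_right ht hL0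
  have hlam : (t : ℝ) * (L + t) = t ^ 2 + t * L := by ring
  refine Ps_ne2 (by omega) ha hL (by nlinarith) (fun _ => ?_) (fun l hl => ?_) (fun l hl => ?_)
    (fun h => by omega) h0
  · rw [hlam]
    nlinarith
  · rw [hlam]
    have hl0 : (0 : ℝ) ≤ l := Nat.cast_nonneg _
    have hl1 : (l : ℝ) + 3 ≤ n := by exact_mod_cast hl
    have h1 : (4 * ((l : ℝ) + 1) + 2 + 2 * a) * (x - 1) ≤ (4 * (n : ℝ) + 2 * a - 6) * (x - 1) :=
      mul_le_mul_of_nonneg_right (by linarith) hN.le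
    have h2 : (2 * ((l : ℝ) + 1) + 1 / 2) * L ≤ 2 * (n : ℝ) * L :=
      mul_le_mul_of_nonneg_right (by linarith) hL0
    have h3 : 0 ≤ (l : ℝ) * a := mul_nonneg hl0 ha
    have h4 : 0 ≤ (l : ℝ) * l := mul_nonneg hl0 hl0
    nlinarith
  · rw [hlam]
    have hl0 : (0 : ℝ) ≤ l := Nat.cast_nonneg _
    have hl1 : (n : ℝ) = l + 2 := by exact_mod_cast hl
    have h3 : 0 ≤ (l : ℝ) * a := mul_nonneg hl0 ha
    have h4 : 0 ≤ (l : ℝ) * l := mul_nonneg hl0 hl0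
    have h5 : 0 ≤ (l : ℝ) * L := mul_nonneg hl0 hL0
    rw [hl1] at hc1 htL
    nlinarith

end Pool.Agent.BY
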