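import Mathlib
import Pool.Agent.BY.D8

set_option autoImplicit false

namespace Pool.Agent.BY

open Finset

private lemma le_tau {c N Nl t tau : ℕ} (h1 : 10 ^ 6 * c ≤ 2 * tau ^ 2 * Nl) (hNl : Nl ≤ N)
    (ht : 2 * t ^ 2 < c * N) : 1000 * t ≤ tau * N := by
  by_contra hcon
  push Not at hcon
  have e1 : (tau * N) ^ 2 < (1000 * t) ^ 2 := Nat.pow_lt_pow_left hcon (by norm_num)
  have e2 : 10 ^ 6 * (2 * t ^ 2) < 10 ^ 6 * (c * N) :=
    Nat.mul_lt_mul_of_pos_left ht (by norm_num)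
  have e3 : 10 ^ 6 * (c * N) ≤ 2 * tau ^ 2 * Nl * N := by
    rw [← mul_assoc]; exact Nat.mul_le_mul_right _ h1
  have e4 : 2 * tau ^ 2 * Nl * N ≤ 2 * tau ^ 2 * N * N :=
    Nat.mul_le_mul_right _ (Nat.mul_le_mul_left _ hNl)
  have e5 : 2 * tau ^ 2 * N * N = 2 * (tau * N) ^ 2 := by ring
  have e6 : 10 ^ 6 * (2 * t ^ 2) = 2 * (1000 * t) ^ 2 := by ring
  omega

private lemma second {n a N t w tau : ℕ} (hn : 2 ≤ n) (h : 1000 * t ≤ tau * N)
    (h1 : 1000 * (1 + a) + n * tau ≤ 1000 * n)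
    (hw2 : n * (w + (N + 1 + a)) ≤ N * (2 * n + 1 + a)) : w + (t + 1 + a) ≤ 2 * N := by
  have e1 : n * (1000 * t) ≤ n * (tau * N) := Nat.mul_le_mul_left _ h
  have e2 : (1000 * (1 + a) + n * tau) * N ≤ 1000 * n * N := Nat.mul_le_mul_right _ h1
  have e3 : n * (1000 * (w + (t + 1 + a))) ≤ n * (1000 * (2 * N)) := by nlinarith
  have e4 := Nat.le_of_mul_le_mul_left e3 (by omega)
  omega

/-- **Sizes.** -/
theorem sizes3 {n a N t w : ℕ} (hn : 2 ≤ n) (ha : a ≤ 1) (hN : N03 n a ≤ N)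
    (ht : 2 * t ^ 2 < c2 n a * N) (hw2 : n * (w + (N + 1 + a)) ≤ N * (2 * n + 1 + a))
    (h21 : n = 2 → a = 1 → w + t ≤ 2 * N + 2) :
    2 * (t + 1 + a) ≤ N + 1 + a ∧ w + (t + 1 + a) ≤ 2 * (N + 1 + a) := by
  rcases Nat.lt_or_ge n 63 with h63 | h63
  · obtain ⟨hc, -, -⟩ := chk0c_true hn (by omega) ha
    unfold chk0c at hc
    simp only [Bool.and_eq_true, Bool.or_eq_true, decide_eq_true_eq] at hc
    obtain ⟨⟨⟨c1, c2'⟩, c3⟩, c4⟩ := hc
    have h1 := le_tau c1 hN ht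
    generalize tauF n a (N03 n a) = tau at *
    constructor
    · have e1 : (1000 - 2 * tau) * N03 n a ≤ (1000 - 2 * tau) * N := Nat.mul_le_mul_left _ hN
      have e2 : (1000 - 2 * tau) * N + 2 * tau * N = 1000 * N := by
        rw [← Nat.add_mul, Nat.sub_add_cancel c3.le]
      have e3 : 2 * (tau * N) = 2 * tau * N := by ring
      omega
    · rcases c2' with c2' | ⟨hn2, ha1⟩
      · have := second hn h1 c2' hw2
        omega
      · have := h21 hn2 ha1
        omega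
  · rw [N03_large (by omega)] at hN
    have hc : c2 n a ≤ 8 * n := by
      unfold c2
      apply max_le <;> omega
    have hN67 : 64 * n ≤ N := by nlinarith
    have h2 : 2 * t ^ 2 < 8 * n * N := ht.trans_le (Nat.mul_le_mul_right _ hc)
    have h3 : 1000 * t ≤ 250 * N := by
      refine le_tau (c := 8 * n) (Nl := N) ?_ le_rfl h2
      omega
    constructor
    · omega
    · have := second hn h3 (by omega) hw2
      omega

end Pool.Agent.BY
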