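import Mathlib
import Pool.Agent.BetaL.Closed

set_option autoImplicit false

namespace Pool.Agent.BY

open Finset Pool.Agent.BetaL

private lemma Ps_two {x L lam : ℝ} (hx : 3 ≤ x) (h : Ps 2 x 1 L lam = 0) :
    6 * (x - 1) * (x - 2) - 6 * (x - 2) * lam + lam * (lam - (L + 1)) = 0 := by
  have h1 : x - 1 ≠ 0 := by linarith
  have h2 : x - 2 ≠ 0 := by linarith
  have h2' : x - 1 - 1 ≠ 0 := by intro h3; apply h2; linarith
  have e : Ps 2 x 1 L lam =
      (6 * (x - 1) * (x - 2) - 6 * (x - 2) * lam + lam * (lam - (L + 1))) / (6 * (x - 1) * (x - 2)) := by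
    unfold Ps
    simp only [Finset.sum_range_succ, Finset.sum_range_zero, dd]
    norm_num
    field_simp
    ring
  rw [e, div_eq_zero_iff] at h
  rcases h with h | h
  · exact h
  · exfalso
    have : 6 * (x - 1) * (x - 2) ≠ 0 := by positivity
    exact this h

/-- The zeros for `n = 2`, `a = 1`. -/
theorem n2a1 {N L t : ℕ} (hN : 27 ≤ N) (hL : L + 1 ≤ N) {x Lr : ℝ} (hx : x = N + 1) (hLr : Lr = L)
    (h : Ps 2 x 1 Lr ((t : ℝ) * (Lr + t)) = 0) : L + t ≤ N + 3 := by
  have hNr : (27 : ℝ) ≤ N := by exact_mod_cast hN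
  have h1 := Ps_two (by rw [hx]; linarith) h
  rw [hx, hLr] at h1
  have key : (6 : ℤ) * N * (N - 1) - 6 * (N - 1) * (t * (L + t)) +
      (t * (L + t)) * ((t * (L + t)) - (L + 1)) = 0 := by
    have h2 : ((6 : ℝ) * N * (N - 1) - 6 * (N - 1) * (t * (L + t)) +
      (t * (L + t)) * ((t * (L + t)) - (L + 1))) = 0 := by
      linear_combination h1
    exact_mod_cast h2
  by_contra hcon
  push Not at hcon
  have hN' : (27 : ℤ) ≤ N := by exact_mod_cast hN
  have hL' : (L : ℤ) + 1 ≤ N := by exact_mod_cast hL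
  have hL0 : (0 : ℤ) ≤ L := by positivity
  have hc : (N : ℤ) + 4 ≤ L + t := by
    have : N + 4 ≤ L + t := by omega
    exact_mod_cast this
  have ht5 : (5 : ℤ) ≤ t := by linarith
  obtain ⟨y, hy⟩ : ∃ y : ℤ, y = (t : ℤ) * (L + t) := ⟨_, rfl⟩
  rw [← hy] at key
  have hy5 : 5 * ((N : ℤ) + 4) ≤ y := by
    rw [hy]
    exact mul_le_mul ht5 hc (by linarith) (by linarith)
  have hyN : (N : ℤ) < y := by linarith
  have e1 : (y - N) * (y - 6 * (N - 1)) = y * ((L + 1) - N) := by linear_combination key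
  have e2 : y * (((L : ℤ) + 1) - N) ≤ 0 := mul_nonpos_of_nonneg_of_nonpos (by linarith) (by linarith)
  have e3 : y ≤ 6 * ((N : ℤ) - 1) := by
    by_contra hcon2
    push Not at hcon2
    have := mul_pos (sub_pos.mpr hyN) (sub_pos.mpr hcon2)
    linarith
  have ht6 : (t : ℤ) < 6 := by
    by_contra hcon2
    push Not at hcon2
    have : 6 * ((N : ℤ) + 4) ≤ y := by
      rw [hy]
      exact mul_le_mul hcon2 hc (by linarith) (by linarith)
    linarith
  have ht : (t : ℤ) = 5 := by omega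
  have hLN : (L : ℤ) + 1 = N := by omega
  have hyv : y = 5 * (N + 4) := by
    rw [hy, ht]
    have : (L : ℤ) = N - 1 := by linarith
    rw [this]
    ring
  have e4 : (y - N) * (y - 6 * (N - 1)) = 0 := by
    rw [e1, hLN]
    ring
  rcases mul_eq_zero.mp e4 with h3 | h3
  · linarith
  · omega

end Pool.Agent.BY
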