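import Mathlib
import Pool.Agent.BX.Defs
import Pool.Agent.BX.RepL
import Pool.Agent.BX.NoSign
import Pool.Agent.BY.KDefs

set_option autoImplicit false

namespace Pool.Agent.BY

open Finset Pool.Agent.BX

/-- the factor in the variables `n`, `N`, `L` -/
private lemma qq_eq {n a N L T j : ℕ} (hn : 1 ≤ n) (hjN : j < N) :
    qq a T (1 / n) (n / N) (n * L / N) j * (((j : ℝ) + 1) * (a + 1 + j) * (N - j)) =
      ((T : ℝ) - j) * (n - j) * (T + L + j) := by
  have hn0 : (n : ℝ) ≠ 0 := by positivity
  have hN0 : (N : ℝ) ≠ 0 := by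
    have : 0 < N := by omega
    positivity
  have h1 : (N : ℝ) - j ≠ 0 := by
    have : (j : ℝ) < N := by exact_mod_cast hjN
    linarith
  have h2 : (j : ℝ) + 1 ≠ 0 := by positivity
  have h3 : (a : ℝ) + 1 + j ≠ 0 := by positivity
  have e1 : (1 : ℝ) / n * (n / N) = 1 / N := by field_simp
  have e2 : 1 - (j : ℝ) * (1 / n * (n / N)) = (N - j) / N := by
    rw [e1]
    field_simp
  unfold qq
  rw [e2]
  field_simp
  ring

/-- one step -/
private lemma lp_succ (n a N L T j u w q : ℕ) : lp n a N L T (j + 1) u w q =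
    lp n a N L T j ((j + 1) * (a + 1 + j) * (N - j) * q + (n - j) * ((T - j) * (T + L + j)) * w)
      ((n - j) * ((T - j) * (T + L + j)) * u) ((j + 1) * (a + 1 + j) * (N - j) * q) := rfl

private lemma lp_zero (n a N L T u w q : ℕ) : lp n a N L T 0 u w q =
    cond (Nat.ble (w + 1) u) 1 (cond (Nat.ble (u + 1) w) 2 0) := rfl

/-- the loop from an index `j` on, if the state is right whenever `j ≤ n` -/
private lemma lp_aux {n a N L T : ℕ} (hn : 1 ≤ n) (hT : T ≤ N) :
    ∀ j ≤ T, ∀ u w q : ℕ, 0 < q →
      (j ≤ n → (u : ℝ) - w = q * tl (qq a T (1 / n) (n / N) (n * L / N)) T j) →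
      lp n a N L T j u w q ≤ 2 ∧
      (lp n a N L T j u w q = 1 → 0 < Psi a T (1 / n) (n / N) (n * L / N)) ∧
      (lp n a N L T j u w q = 2 → Psi a T (1 / n) (n / N) (n * L / N) < 0) := by
  intro j
  induction j with
  | zero =>
    intro _ u w q hq h
    have h0 := h (Nat.zero_le _)
    have hq' : (0 : ℝ) < q := by exact_mod_cast hq
    rw [lp_zero]
    change (u : ℝ) - w = q * Psi a T (1 / n) (n / N) (n * L / N) at h0
    rcases lt_trichotomy u w with h1 | h1 | h1
    · have e1 : Nat.ble (w + 1) u = false := by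
        rw [Bool.eq_false_iff, ne_eq, Nat.ble_eq]; omega
      have e2 : Nat.ble (u + 1) w = true := by rw [Nat.ble_eq]; omega
      rw [e1, e2]
      refine ⟨le_rfl, fun h => by simp at h, fun _ => ?_⟩
      have h2 : (u : ℝ) < w := by exact_mod_cast h1
      by_contra hcon
      push Not at hcon
      have := mul_nonneg hq'.le hcon
      linarith
    · have e1 : Nat.ble (w + 1) u = false := by
        rw [Bool.eq_false_iff, ne_eq, Nat.ble_eq]; omega
      have e2 : Nat.ble (u + 1) w = false := by
        rw [Bool.eq_false_iff, ne_eq, Nat.ble_eq]; omega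
      rw [e1, e2]
      exact ⟨by simp, fun h => by simp at h, fun h => by simp at h⟩
    · have e1 : Nat.ble (w + 1) u = true := by rw [Nat.ble_eq]; omega
      rw [e1]
      refine ⟨by simp, fun _ => ?_, fun h => by simp at h⟩
      have h2 : (w : ℝ) < u := by exact_mod_cast h1
      by_contra hcon
      push Not at hcon
      have := mul_nonneg hq'.le (neg_nonneg.mpr hcon)
      linarith
  | succ j ih =>
    intro hj u w q hq h
    rw [lp_succ]
    have hjN : j < N := by omega
    refine ih (by omega) _ _ _ ?_ ?_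
    · have : 0 < N - j := by omega
      positivity
    · intro hjn
      rw [tl_succ _ (show j < T by omega)]
      have hqq := qq_eq (n := n) (a := a) (N := N) (L := L) (T := T) (j := j) hn hjN
      have c1 : ((N - j : ℕ) : ℝ) = (N : ℝ) - j := Nat.cast_sub hjN.le
      have c2 : ((n - j : ℕ) : ℝ) = (n : ℝ) - j := Nat.cast_sub hjn
      have c3 : ((T - j : ℕ) : ℝ) = (T : ℝ) - j := Nat.cast_sub (by omega)
      push_cast [c1, c2, c3]
      set Q := qq a T (1 / n) (n / N) (n * L / N) j with hQ
      rcases Nat.eq_or_lt_of_le hjn with h1 | h1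
      · -- `j = n`: the factor vanishes
        have e1 : (n : ℝ) - j = 0 := by rw [h1]; ring
        rw [e1] at hqq ⊢
        have h2 : (N : ℝ) - j ≠ 0 := by
          have : (j : ℝ) < N := by exact_mod_cast hjN
          linarith
        have h3 : ((j : ℝ) + 1) * (a + 1 + j) * (N - j) ≠ 0 := by
          refine mul_ne_zero (by positivity) h2
        have h4 : Q = 0 := by
          have h5 : Q * (((j : ℝ) + 1) * (a + 1 + j) * (N - j)) = 0 := by rw [hqq]; ring
          rcases mul_eq_zero.mp h5 with h6 | h6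
          · exact h6
          · exact absurd h6 h3
        rw [h4]
        ring
      · have h0 := h h1
        set X := tl (qq a T (1 / n) (n / N) (n * L / N)) T (j + 1) with hX
        have h2 : (j + 1 : ℝ) * (a + 1 + j) * (N - j) * q * (1 - Q * X) =
            (j + 1 : ℝ) * (a + 1 + j) * (N - j) * q -
              (Q * (((j : ℝ) + 1) * (a + 1 + j) * (N - j))) * (q * X) := by ring
        rw [h2, hqq, ← h0]
        ring

/-- the sign computed by the loop -/
private lemma lp_sound {n a N L T : ℕ} (hn : 1 ≤ n) (hT : T ≤ N) :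
    lp n a N L T T 1 0 1 ≤ 2 ∧
      (lp n a N L T T 1 0 1 = 1 → 0 < Psi a T (1 / n) (n / N) (n * L / N)) ∧
      (lp n a N L T T 1 0 1 = 2 → Psi a T (1 / n) (n / N) (n * L / N) < 0) := by
  refine lp_aux hn hT T le_rfl 1 0 1 (by norm_num) fun _ => ?_
  rw [tl_top]
  norm_num

private lemma srch_succ (n a N L f T s : ℕ) : srch n a N L (f + 1) T s =
    cond (Nat.beq (s * lp n a N L (T + 1) (T + 1) 1 0 1) 2) true
      (srch n a N L f (T + 1) (lp n a N L (T + 1) (T + 1) 1 0 1)) := rfl

/-- **Soundness of the search.** -/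
theorem srch_aux {n a N L : ℕ} (hn : 1 ≤ n) : ∀ f T s : ℕ, T + f ≤ N → s ≤ 2 →
    (s = 1 → 0 < Psi a T (1 / n) (n / N) (n * L / N)) →
    (s = 2 → Psi a T (1 / n) (n / N) (n * L / N) < 0) → srch n a N L f T s = true →
    ∃ T' < N, Psi a T' (1 / n) (n / N) (n * L / N) *
      Psi a (T' + 1) (1 / n) (n / N) (n * L / N) < 0 := by
  intro f
  induction f with
  | zero =>
    intro T s _ _ _ _ h
    exact absurd h Bool.false_ne_true
  | succ f ih =>
    intro T s hTN hs h1 h2 h
    rw [srch_succ] at h
    obtain ⟨q1, q2, q3⟩ := lp_sound (n := n) (a := a) (N := N) (L := L) (T := T + 1) hn (by omega)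
    set s' := lp n a N L (T + 1) (T + 1) 1 0 1 with hs'
    rcases Bool.eq_false_or_eq_true (Nat.beq (s * s') 2) with hb | hb
    · have hb' : s * s' = 2 := Nat.eq_of_beq_eq_true hb
      refine ⟨T, by omega, ?_⟩
      interval_cases s
      · omega
      · have : s' = 2 := by omega
        exact mul_neg_of_pos_of_neg (h1 rfl) (q3 this)
      · have : s' = 1 := by omega
        exact mul_neg_of_neg_of_pos (h2 rfl) (q2 this)
    · rw [hb] at h
      exact ih (T + 1) s' (by omega) q1 q2 q3 h

/-- a successful search from `T = 0` -/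
theorem srch_sound {n a N L f : ℕ} (hn : 1 ≤ n) (hf : f ≤ N) (h : srch n a N L f 0 1 = true) :
    ∃ T < N, Psi a T (1 / n) (n / N) (n * L / N) *
      Psi a (T + 1) (1 / n) (n / N) (n * L / N) < 0 := by
  refine srch_aux hn f 0 1 (by omega) (by norm_num) (fun _ => ?_) (fun h => by omega) h
  unfold Psi
  rw [tl_top]
  norm_num

end Pool.Agent.BY
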