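import Mathlib
import Pool.Agent.BY.D8

set_option autoImplicit false

namespace Pool.Agent.BY

open Finset

private def tabE : Bool :=
  (List.range 9).all fun i => (List.range 2).all fun a => (List.range (N03 (i + 2) a)).all fun N =>
    decide (N < (i + 2) ^ 2 + 4 * (i + 2) + 1) || decide ((N - 2 * (i + 2)) % (i + 2 + 1) ≠ 0) ||
    decide (((N - 2 * (i + 2) + (i + 2) + 2) * (N - 2 * (i + 2) + (i + 2) + 1)) %
      ((i + 2 + 1) * (i + 2 + 2)) ≠ 0) ||
    ((List.range ((1 + a) * N / (i + 2))).all fun L =>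
      decide (L < 2 * a + 1) ||
      decide ((N - 2 * (i + 2) + (L - (2 * a + 1))) % (i + 2 + a + 1) ≠ 0) ||
      decide (((N - 2 * (i + 2) + (L - (2 * a + 1)) + (i + 2 + a) + 2) *
        (N - 2 * (i + 2) + (L - (2 * a + 1)) + (i + 2 + a) + 1)) %
        ((i + 2 + a + 1) * (i + 2 + a + 2)) ≠ 0) ||
      srch (i + 2) a N L (min 24 N) 0 1 ||
      decide (i = 0 ∧ a = 1 ∧ (N = 145 ∧ L = 78 ∨ N = 169 ∧ L = 18)))

set_option maxRecDepth 100000 in
private theorem tabE_true : tabE = true := by decide +kernel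

/-- **The finite check.** -/
theorem srch3_true {n a N L : ℕ} (hn : 2 ≤ n) (ha : a ≤ 1) (hN : n ^ 2 + 4 * n + 1 ≤ N)
    (hN' : N < N03 n a) (h1 : (n + 1) ∣ N - 2 * n)
    (h1' : (n + 1) * (n + 2) ∣ (N - 2 * n + n + 2) * (N - 2 * n + n + 1)) (hL : 2 * a + 1 ≤ L)
    (hL' : n * (L + 1) ≤ (1 + a) * N) (h2 : (n + a + 1) ∣ N - 2 * n + (L - (2 * a + 1)))
    (h2' : (n + a + 1) * (n + a + 2) ∣ (N - 2 * n + (L - (2 * a + 1)) + (n + a) + 2) *
      (N - 2 * n + (L - (2 * a + 1)) + (n + a) + 1)) :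
    srch n a N L (min 24 N) 0 1 = true ∨
      (n = 2 ∧ a = 1 ∧ (N = 145 ∧ L = 78 ∨ N = 169 ∧ L = 18)) := by
  have hn' : n ≤ 10 := by
    by_contra hcon
    have : N03 n a = n ^ 2 + 4 * n + 1 := N03_large (by omega)
    omega
  have t1 := tabE_true
  unfold tabE at t1
  rw [List.all_eq_true] at t1
  have t2 := t1 (n - 2) (List.mem_range.mpr (by omega))
  rw [List.all_eq_true] at t2
  have t3 := t2 a (List.mem_range.mpr (by omega))
  rw [List.all_eq_true] at t3
  have e1 : n - 2 + 2 = n := by omega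
  rw [e1] at t3
  have t4 := t3 N (List.mem_range.mpr (by omega))
  simp only [Bool.or_eq_true, List.all_eq_true, decide_eq_true_eq, List.mem_range] at t4
  rcases t4 with ((t4 | t4) | t4) | t4
  · omega
  · exact absurd (Nat.mod_eq_zero_of_dvd h1) t4
  · exact absurd (Nat.mod_eq_zero_of_dvd h1') t4
  · have hlt : L < (1 + a) * N / n := by
      rw [Nat.lt_iff_add_one_le, Nat.le_div_iff_mul_le (by omega), mul_comm]
      exact hL'
    rcases t4 L hlt with (((t5 | t5) | t5) | t5) | t5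
    · omega
    · exact absurd (Nat.mod_eq_zero_of_dvd h2) t5
    · exact absurd (Nat.mod_eq_zero_of_dvd h2') t5
    · exact Or.inl t5
    · refine Or.inr ⟨by omega, t5.2.1, t5.2.2⟩

end Pool.Agent.BY
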