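import Mathlib
import Pool.Agent.MP_1e96f1_co.Count
import Pool.Agent.BetaL.Cells
import Pool.Agent.BY.Defs

set_option autoImplicit false

namespace Pool.Agent.BY

open Finset Pool.Agent.MP_1e96f1_co Pool.Agent.BetaL

variable {Ω : Type*} [Fintype Ω] [DecidableEq Ω]

/-- Equality in the sphere packing bound.

Proof. Double count the pairs `(X, B)`, `|X| = d + 2 n + 1`, `B ∈ Bs`, `|X \ B| ≤ n`. Each `X` has exactly one
`B` (`beta_exists`, `beta_unique` of `Pool/Agent/BetaL/Cells.lean`). For fixed `B` (`|B| = k`) the number of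
`X` with `|X \ B| = l`, `|X ∩ B| = d + 2 n + 1 - l` is `C(k, d+2n+1-l) C(v-k, l)`: `card_split` of
`Pool/Agent/MP_1e96f1_co/Count.lean` with `T = ∅` (the filters are trivial; `card_powersetCard`,
`|Bᶜ| = v - k`). Sum over `l ≤ n` (`Finset.card_eq_sum_card_fiberwise` or a disjoint union). -/
theorem card_beta {Bs : Finset (Finset Ω)} {v k d n : ℕ} (hD : IsDesign Bs v k d)
    (hB : IsBeta Bs v d (n + 1)) :
    Bs.card * ∑ l ∈ range (n + 1), k.choose (d + 2 * n + 1 - l) * (v - k).choose l =
      v.choose (d + 2 * n + 1) := by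
  have hU : v.choose (d + 2 * n + 1) = ((univ : Finset Ω).powersetCard (d + 2 * n + 1)).card := by
    rw [Finset.card_powersetCard, Finset.card_univ, hD.card_points]
  have h1 : ((univ : Finset Ω).powersetCard (d + 2 * n + 1)).card =
      ∑ X ∈ (univ : Finset Ω).powersetCard (d + 2 * n + 1), (Bs.filter (fun B => (X \ B).card ≤ n)).card := by
    rw [Finset.card_eq_sum_ones]
    refine Finset.sum_congr rfl fun X hX => ?_
    have hXc := (Finset.mem_powersetCard.1 hX).2
    obtain ⟨B, hB1, hB2⟩ := beta_exists hB hXc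
    symm
    rw [Finset.card_eq_one]
    refine ⟨B, ?_⟩
    ext C
    rw [Finset.mem_filter, Finset.mem_singleton]
    constructor
    · rintro ⟨hC1, hC2⟩
      exact beta_unique hB hXc hC1 hB1 hC2 hB2
    · rintro rfl
      exact ⟨hB1, hB2⟩
  have h2 : ∑ X ∈ (univ : Finset Ω).powersetCard (d + 2 * n + 1), (Bs.filter (fun B => (X \ B).card ≤ n)).card =
      ∑ B ∈ Bs, (((univ : Finset Ω).powersetCard (d + 2 * n + 1)).filter (fun X => (X \ B).card ≤ n)).card := by
    simp only [Finset.card_filter]
    exact Finset.sum_comm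
  have h3 : ∀ B ∈ Bs, (((univ : Finset Ω).powersetCard (d + 2 * n + 1)).filter (fun X => (X \ B).card ≤ n)).card =
      ∑ l ∈ range (n + 1), k.choose (d + 2 * n + 1 - l) * (v - k).choose l := by
    intro B hBB
    have hm : ∀ X ∈ ((univ : Finset Ω).powersetCard (d + 2 * n + 1)).filter (fun X => (X \ B).card ≤ n),
        (X \ B).card ∈ range (n + 1) := by
      intro X hX
      rw [Finset.mem_range]
      have := (Finset.mem_filter.1 hX).2
      omega
    rw [Finset.card_eq_sum_card_fiberwise hm]
    refine Finset.sum_congr rfl fun l hl => ?_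
    have hl2 := Finset.mem_range.1 hl
    have h4 : ((((univ : Finset Ω).powersetCard (d + 2 * n + 1)).filter (fun X => (X \ B).card ≤ n)).filter
        (fun X => (X \ B).card = l)) = (univ : Finset (Finset Ω)).filter
          (fun X => ∅ ⊆ X ∧ (X ∩ B).card = d + 2 * n + 1 - l ∧ (X \ B).card = l) := by
      ext X
      have h5 := Finset.card_inter_add_card_sdiff X B
      simp only [Finset.mem_filter, Finset.mem_powersetCard, Finset.mem_univ, true_and, Finset.subset_univ,
        Finset.empty_subset]
      constructor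
      · rintro ⟨⟨h6, h7⟩, h8⟩
        exact ⟨by omega, h8⟩
      · rintro ⟨h6, h7⟩
        exact ⟨⟨by omega, by omega⟩, h7⟩
    rw [h4, card_split, Finset.filter_true_of_mem, Finset.filter_true_of_mem, Finset.card_powersetCard,
      Finset.card_powersetCard, Finset.card_compl, hD.card_points, hD.card_block B hBB]
    · intro S _
      simp
    · intro S _
      simp
  rw [hU, h1, h2, Finset.sum_congr rfl h3, Finset.sum_const, smul_eq_mul]

end Pool.Agent.BY
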