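import Mathlib
import Pool.Agent.MP_1e96f1_co.Count
import Pool.Agent.MP_1e96f1_co.Strength
import Pool.Agent.BY.Defs

set_option autoImplicit false

namespace Pool.Agent.BY

open Finset Pool.Agent.MP_1e96f1_co

variable {Ω : Type*} [Fintype Ω] [DecidableEq Ω]

/-- counting the pairs `(T, B)`, `S ⊆ T ⊆ B`, `|T| = τ` -/
private lemma count_pairs {Bs : Finset (Finset Ω)} {v k τ Λ : ℕ} (hv : Fintype.card Ω = v)
    (hk : ∀ B ∈ Bs, B.card = k) (hΛ : ∀ T : Finset Ω, T.card = τ → nc Bs T = Λ) (S : Finset Ω)
    (hS : S.card ≤ τ) :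
    nc Bs S * (k - S.card).choose (τ - S.card) = (v - S.card).choose (τ - S.card) * Λ := by
  set R : Finset (Finset Ω) := (univ : Finset (Finset Ω)).filter (fun X => S ⊆ X ∧ X.card = τ) with hR
  have h1 := swap_sum R Bs (fun T B => T ⊆ B)
  have h2 : ∑ T ∈ R, (Bs.filter (fun B => T ⊆ B)).card = (v - S.card).choose (τ - S.card) * Λ := by
    have e1 : ∀ T ∈ R, (Bs.filter (fun B => T ⊆ B)).card = Λ := by
      intro T hT
      rw [hR, Finset.mem_filter] at hT
      exact hΛ T hT.2.2
    rw [Finset.sum_congr rfl e1, Finset.sum_const, smul_eq_mul, hR, sup_all S τ hS, hv]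
  have h3 : ∑ B ∈ Bs, (R.filter (fun T => T ⊆ B)).card =
      nc Bs S * (k - S.card).choose (τ - S.card) := by
    have e1 : ∀ B ∈ Bs, (R.filter (fun T => T ⊆ B)).card =
        if S ⊆ B then (k - S.card).choose (τ - S.card) else 0 := by
      intro B hB
      split_ifs with h
      · have e2 := card_supersets h τ hS
        rw [hk B hB] at e2
        rw [← e2]
        congr 1
        ext T
        rw [hR]
        simp only [Finset.mem_filter, Finset.mem_univ, true_and, Finset.mem_powersetCard]
        tauto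
      · rw [Finset.card_eq_zero, Finset.filter_eq_empty_iff]
        intro T hT hTB
        rw [hR, Finset.mem_filter] at hT
        exact h (hT.2.1.trans hTB)
    rw [Finset.sum_congr rfl e1, ← Finset.sum_filter, Finset.sum_const, smul_eq_mul]
    rfl
  rw [← h3, ← h2]
  exact h1.symm

/-- In a `τ`-design the number of blocks containing a set `S`, `|S| ≤ τ`, is `b C(v-s,k-s)/C(v,k)`. -/
theorem nc_formula {Bs : Finset (Finset Ω)} {v k τ : ℕ} (hv : Fintype.card Ω = v)
    (hk : ∀ B ∈ Bs, B.card = k) (hkv : k ≤ v) (hτ : τ ≤ k)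
    (hc : ∀ S S' : Finset Ω, S.card = τ → S'.card = τ → nc Bs S = nc Bs S') (S : Finset Ω)
    (hS : S.card ≤ τ) :
    nc Bs S * v.choose k = Bs.card * (v - S.card).choose (k - S.card) := by
  obtain ⟨T0, -, hT0⟩ := Finset.exists_subset_card_eq (s := (univ : Finset Ω)) (n := τ)
    (by rw [Finset.card_univ, hv]; omega)
  have hΛ : ∀ T : Finset Ω, T.card = τ → nc Bs T = nc Bs T0 := fun T hT => hc T T0 hT hT0
  set Λ := nc Bs T0 with hΛdef
  have h1 := count_pairs hv hk hΛ S hS
  have h2 := count_pairs hv hk hΛ ∅ (by simp)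
  have h0 : nc Bs ∅ = Bs.card := by
    unfold nc
    congr 1
    rw [Finset.filter_eq_self]
    intro B _
    exact Finset.empty_subset B
  rw [h0, Finset.card_empty, Nat.sub_zero, Nat.sub_zero, Nat.sub_zero] at h2
  have h3 : v.choose k * k.choose τ = v.choose τ * (v - τ).choose (k - τ) :=
    Nat.choose_mul hτ
  set s := S.card with hs
  have h4 : (v - s).choose (k - s) * (k - s).choose (τ - s) =
      (v - s).choose (τ - s) * (v - τ).choose (k - τ) := by
    have := Nat.choose_mul (n := v - s) (k := k - s) (s := τ - s) (by omega)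
    rw [this]
    congr 2 <;> omega
  have hpos : 0 < (k - s).choose (τ - s) * v.choose τ :=
    Nat.mul_pos (Nat.choose_pos (by omega)) (Nat.choose_pos (by omega))
  apply Nat.eq_of_mul_eq_mul_right hpos
  calc nc Bs S * v.choose k * ((k - s).choose (τ - s) * v.choose τ)
      = (nc Bs S * (k - s).choose (τ - s)) * (v.choose k * v.choose τ) := by ring
    _ = ((v - s).choose (τ - s) * Λ) * (v.choose k * v.choose τ) := by rw [h1]
    _ = (v.choose τ * Λ) * ((v - s).choose (τ - s) * v.choose k) := by ring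
    _ = (Bs.card * k.choose τ) * ((v - s).choose (τ - s) * v.choose k) := by rw [h2]
    _ = (v.choose k * k.choose τ) * (Bs.card * (v - s).choose (τ - s)) := by ring
    _ = (v.choose τ * (v - τ).choose (k - τ)) * (Bs.card * (v - s).choose (τ - s)) := by rw [h3]
    _ = ((v - s).choose (τ - s) * (v - τ).choose (k - τ)) * (Bs.card * v.choose τ) := by ring
    _ = ((v - s).choose (k - s) * (k - s).choose (τ - s)) * (Bs.card * v.choose τ) := by rw [h4]
    _ = Bs.card * (v - s).choose (k - s) * ((k - s).choose (τ - s) * v.choose τ) := by ring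

end Pool.Agent.BY
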