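import Mathlib
import Pool.Agent.MP_1e96f1_co.Count
import Pool.Agent.MP_1e96f1_co.Strength
import Pool.Agent.BY.Defs
import Pool.Agent.BY.M2

set_option autoImplicit false

namespace Pool.Agent.BY

open Finset Pool.Agent.MP_1e96f1_co

variable {Ω : Type*} [Fintype Ω] [DecidableEq Ω]

omit [Fintype Ω] in
private lemma nb_empty (Bs : Finset (Finset Ω)) (S : Finset Ω) : nb Bs S ∅ = nc Bs S := by
  unfold nb nc
  congr 1
  ext B
  simp

omit [Fintype Ω] in
private lemma nb_split (Bs : Finset (Finset Ω)) (S U : Finset Ω) (y : Ω) :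
    nb Bs S U = nb Bs (insert y S) U + nb Bs S (insert y U) := by
  unfold nb
  rw [← Finset.card_filter_add_card_filter_not (s := Bs.filter (fun B => S ⊆ B ∧ Disjoint U B)) (fun B => y ∈ B),
    Finset.filter_filter, Finset.filter_filter]
  congr 2
  · ext B
    simp only [Finset.mem_filter, Finset.insert_subset_iff]
    tauto
  · ext B
    simp only [Finset.mem_filter, Finset.disjoint_insert_left]
    tauto

/-- The same for blocks containing `S` and disjoint from `U`, `|S| + |U| ≤ τ`.

Proof. Induction on `U` (or on `|U|`) for all `S`. `U = ∅`: `nb Bs S ∅ = nc Bs S`. Step `U = insert y U'`,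
`y ∉ U'`, `y ∉ S`: a block containing `S` and disjoint from `U'` either contains `y` or not, so
`nb Bs S U' = nb Bs (insert y S) U' + nb Bs S U`; with `m = v - s - u'`:
`C(m, k-s) = C(m-1, k-s-1) + C(m-1, k-s)` (Pascal, `s < τ ≤ k`, `m ≥ 1`). -/
theorem nb_formula {Bs : Finset (Finset Ω)} {v k τ : ℕ} (hv : Fintype.card Ω = v)
    (hk : ∀ B ∈ Bs, B.card = k) (hkv : k ≤ v) (hτ : τ ≤ k)
    (hc : ∀ S S' : Finset Ω, S.card = τ → S'.card = τ → nc Bs S = nc Bs S') (U S : Finset Ω)
    (hSU : Disjoint S U) (hcard : S.card + U.card ≤ τ) :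
    nb Bs S U * v.choose k = Bs.card * (v - S.card - U.card).choose (k - S.card) := by
  induction U using Finset.induction_on generalizing S with
  | empty =>
    rw [nb_empty, Finset.card_empty, Nat.sub_zero]
    exact nc_formula hv hk hkv hτ hc S (by simpa using hcard)
  | insert y U' hy ih =>
    rw [Finset.disjoint_insert_right] at hSU
    obtain ⟨hyS, hSU'⟩ := hSU
    rw [Finset.card_insert_of_notMem hy] at hcard ⊢
    have h1 := ih S hSU' (by omega)
    have h2 := ih (insert y S) (by
      rw [Finset.disjoint_insert_left]; exact ⟨hy, hSU'⟩) (by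
      rw [Finset.card_insert_of_notMem hyS]; omega)
    rw [Finset.card_insert_of_notMem hyS] at h2
    rw [nb_split Bs S U' y, add_mul, h2] at h1
    have h3 : (v - S.card - U'.card).choose (k - S.card) =
        (v - (S.card + 1) - U'.card).choose (k - (S.card + 1)) + (v - S.card - (U'.card + 1)).choose (k - S.card) := by
      obtain ⟨m, hm⟩ : ∃ m, v - S.card - U'.card = m + 1 := ⟨v - S.card - U'.card - 1, by omega⟩
      obtain ⟨j, hj⟩ : ∃ j, k - S.card = j + 1 := ⟨k - S.card - 1, by omega⟩
      rw [show v - (S.card + 1) - U'.card = m by omega, show k - (S.card + 1) = j by omega,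
        show v - S.card - (U'.card + 1) = m by omega, hm, hj, Nat.choose_succ_succ]
    rw [h3, mul_add] at h1
    omega

end Pool.Agent.BY
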