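import Mathlib
import Pool.Agent.BY.Defs

set_option autoImplicit false

namespace Pool.Agent.BY

open Finset

/-- Termwise. `a = 0`: `C(x, x-l) = C(x,l)` for `l ≤ x` (`Nat.choose_symm`). `a = 1`:
`(w+1) C(x+1, x-l) C(w,l) = (x+1) C(x,l) C(w+1,l+1)`: `C(x+1,x-l) = C(x+1,l+1)`,
`(l+1) C(x+1,l+1) = (x+1) C(x,l)` and `(l+1) C(w+1,l+1) = (w+1) C(w,l)` (`Nat.add_one_mul_choose_eq`);
multiply both sides by `l + 1` and cancel. (`interval_cases a`.) -/
theorem M_Th {x w a n : ℕ} (ha : a ≤ 1) (hn : n ≤ x) :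
    (w + 1) ^ a * ∑ l ∈ range (n + 1), (x + a).choose (x - l) * w.choose l =
      (x + a) ^ a * Th x w a n := by
  unfold Th
  interval_cases a
  · simp only [pow_zero, one_mul, add_zero]
    refine Finset.sum_congr rfl fun l hl => ?_
    rw [Nat.choose_symm (by rw [Finset.mem_range] at hl; omega)]
  · simp only [pow_one]
    rw [Finset.mul_sum, Finset.mul_sum]
    refine Finset.sum_congr rfl fun l hl => ?_
    rw [Finset.mem_range] at hl
    have hlx : l ≤ x := by omega
    have h1 : (x + 1).choose (x - l) = (x + 1).choose (l + 1) := by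
      rw [← Nat.choose_symm (show l + 1 ≤ x + 1 by omega)]
      congr 1
      omega
    have h2 := Nat.add_one_mul_choose_eq x l
    have h3 := Nat.add_one_mul_choose_eq w l
    rw [h1]
    have h4 : (l + 1) * ((w + 1) * ((x + 1).choose (l + 1) * w.choose l)) =
        (l + 1) * ((x + 1) * (x.choose l * (w + 1).choose (l + 1))) := by
      calc (l + 1) * ((w + 1) * ((x + 1).choose (l + 1) * w.choose l))
          = ((x + 1).choose (l + 1) * (l + 1)) * ((w + 1) * w.choose l) := by ring
        _ = ((x + 1) * x.choose l) * ((w + 1).choose (l + 1) * (l + 1)) := by rw [← h2, h3]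
        _ = (l + 1) * ((x + 1) * (x.choose l * (w + 1).choose (l + 1))) := by ring
    exact Nat.eq_of_mul_eq_mul_left (Nat.succ_pos l) h4

/-- `a = 0`: trivial. `a = 1`, `v = x + 1 + w`: `C(v, x+1) (x+1) = C(v, x) (v - x)`, `v - x = w + 1`
(`Nat.choose_succ_right_eq`). -/
theorem choose_a {x w a : ℕ} (ha : a ≤ 1) :
    (x + a + w).choose (x + a) * (x + a) ^ a = (x + a + w).choose x * (w + 1) ^ a := by
  interval_cases a
  · simp
  · have h := Nat.choose_succ_right_eq (x + 1 + w) x
    rw [show x + 1 + w - x = w + 1 by omega] at h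
    simpa using h

/-- `Θ > 0` (the term `l = 0` is `C(w + a, a) ≥ 1`). -/
theorem Th_pos (x w a n : ℕ) : 0 < Th x w a n := by
  unfold Th
  refine lt_of_lt_of_le ?_ (Finset.single_le_sum (f := fun l => x.choose l * (w + a).choose (l + a))
    (fun _ _ => Nat.zero_le _) (Finset.mem_range.2 (Nat.succ_pos n)))
  have : 0 < (w + a).choose a := Nat.choose_pos (by omega)
  simpa using this

end Pool.Agent.BY
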