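import Mathlib
import Pool.Agent.MP_1e96f1_co.Main
import Pool.Agent.BY.M1
import Pool.Agent.BY.M3
import Pool.Agent.BY.M4

set_option autoImplicit false

namespace Pool.Agent.BY

open Finset Pool.Agent.MP_1e96f1_co

variable {Ω : Type*} [Fintype Ω] [DecidableEq Ω]

/-- **The basic divisibility:** `Θ ∣ C(w + t + 1 + a, α)` for `t + 1 + a ≤ α ≤ k`. -/
theorem th_dvd {Bs : Finset (Finset Ω)} {v k d n a t : ℕ} (hD : IsDesign Bs v k d)
    (hB : IsBeta Bs v d (n + 1)) (ha : a ≤ 1) (hk : k = d + 2 * n + 1 + a) (ht : t ≤ d + 2 * n)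
    (hc : ∀ S S' : Finset Ω, S.card = d + 2 * n - t → S'.card = d + 2 * n - t → nc Bs S = nc Bs S')
    {α : ℕ} (h1 : t + 1 + a ≤ α) (h2 : α ≤ k) :
    Th (d + 2 * n + 1) (v - k) a n ∣ (v - k + (t + 1 + a)).choose α := by
  obtain ⟨hdk, hkv⟩ := design_facts hD
  have hkv' : k ≤ v := by
    obtain ⟨B, hB, -⟩ := hD.inter_eq
    rw [← hD.card_block B hB, ← hD.card_points]
    exact Finset.card_le_univ B
  set τ : ℕ := d + 2 * n - t with hτ
  have hsτ : k - α ≤ τ := by omega
  -- the two disjoint sets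
  obtain ⟨R, -, hR⟩ := Finset.exists_subset_card_eq (s := (univ : Finset Ω)) (n := τ)
    (by rw [Finset.card_univ, hD.card_points]; omega)
  obtain ⟨S, hSR, hS⟩ := Finset.exists_subset_card_eq (s := R) (n := k - α) (by omega)
  have hU : (R \ S).card = τ - (k - α) := by
    rw [Finset.card_sdiff_of_subset hSR, hR, hS]
  have hform := nb_formula hD.card_points hD.card_block hkv' (by omega : τ ≤ k) hc (R \ S) S
    Finset.disjoint_sdiff (by rw [hS, hU]; omega)
  rw [hS, hU] at hform
  have e1 : v - (k - α) - (τ - (k - α)) = v - k + (t + 1 + a) := by omega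
  have e2 : k - (k - α) = α := by omega
  rw [e1, e2] at hform
  set w : ℕ := v - k with hw
  set x : ℕ := d + 2 * n + 1 with hx
  have hb := card_beta hD hB
  rw [← hx, ← hw] at hb
  have hkx : k = x + a := hk
  have hMT := M_Th (x := x) (w := w) (n := n) ha (by omega)
  have hca := choose_a (x := x) (w := w) ha
  have hv : x + a + w = v := by omega
  rw [hv] at hca
  rw [← hkx] at hMT hca
  set M : ℕ := ∑ l ∈ range (n + 1), k.choose (x - l) * w.choose l with hM
  set Θ : ℕ := Th x w a n with hΘ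
  set C : ℕ := (w + (t + 1 + a)).choose α with hC
  have hpos : 0 < v.choose k * k ^ a := Nat.mul_pos (Nat.choose_pos hkv') (by
    apply Nat.pow_pos
    omega)
  refine ⟨nb Bs S (R \ S), ?_⟩
  apply Nat.eq_of_mul_eq_mul_right hpos
  calc C * (v.choose k * k ^ a) = C * (v.choose x * (w + 1) ^ a) := by rw [hca]
    _ = C * (Bs.card * M * (w + 1) ^ a) := by rw [hb]
    _ = (Bs.card * C) * ((w + 1) ^ a * M) := by ring
    _ = (nb Bs S (R \ S) * v.choose k) * (k ^ a * Θ) := by rw [hMT, hform]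
    _ = Θ * nb Bs S (R \ S) * (v.choose k * k ^ a) := by ring

end Pool.Agent.BY
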