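import Mathlib
import Pool.Agent.BetaL.Closed

set_option autoImplicit false

namespace Pool.Agent.BY

open Finset Pool.Agent.BetaL

open Polynomial in
private noncomputable def P2D (x a L : ℝ) : ℕ → ℝ[X]
  | 0 => 1
  | (j + 1) => C ((-1) / ((a + 1 + j) * (x - 1 - j))) * (P2D x a L j * (X - C ((j : ℝ) * (j + L))))

open Polynomial in
private lemma P2D_eval (x a L lam : ℝ) (j : ℕ) : (P2D x a L j).eval lam = dd x a L lam j := by
  induction j with
  | zero => simp [P2D, dd]
  | succ j ih =>
    simp only [P2D, dd, eval_mul, eval_sub, eval_C, eval_X, ih]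
    ring

open Polynomial in
private lemma P2D_deg (x a L : ℝ) (j : ℕ) : (P2D x a L j).natDegree ≤ j ∧
    (P2D x a L j).coeff j = ∏ r ∈ range j, (-1 / ((a + 1 + r) * (x - 1 - r))) := by
  induction j with
  | zero => simp [P2D]
  | succ j ih =>
    obtain ⟨h1, h2⟩ := ih
    have h3 : (P2D x a L j * (X - C ((j : ℝ) * (j + L)))).natDegree ≤ j + 1 := by
      refine natDegree_mul_le.trans ?_
      have := natDegree_X_sub_C ((j : ℝ) * (j + L))
      omega
    constructor
    · simp only [P2D]
      exact (natDegree_C_mul_le _ _).trans h3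
    · simp only [P2D]
      have e : (P2D x a L j * (X - C ((j : ℝ) * (j + L)))).coeff (j + 1) = (P2D x a L j).coeff j := by
        rw [mul_sub, coeff_sub, coeff_mul_X, coeff_mul_C,
          coeff_eq_zero_of_natDegree_lt (by omega : (P2D x a L j).natDegree < j + 1)]
        ring
      rw [coeff_C_mul, Finset.prod_range_succ, ← h2, e]
      ring

/-- `Ps n x a L` is a polynomial in `lam` of degree `≤ n` with leading coefficient
`∏_{r<n} (-1/((a+1+r)(x-1-r)))`, so `n` distinct zeros determine it (no hypothesis on the denominators is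
needed: Lean's division by `0` is harmless here).

Proof. Let `D j : ℝ[X]`, `D 0 = 1`, `D (j+1) = - D j * (X - C (j (j + L))) * C ((a + 1 + j)(x - 1 - j))⁻¹`.
Then `(D j).eval lam = dd x a L lam j`, `natDegree (D j) ≤ j`, `(D j).coeff j = ∏_{r<j} (-1/((a+1+r)(x-1-r)))`
(induction). `Q = ∑_{j ≤ n} C (n.choose j) * D j` has `eval lam = Ps n x a L lam`, degree `≤ n` and
`coeff n = c := ∏_{r<n} …`. `P = C c * ∏ j, (X - C (y j))` has degree `≤ n` and the same coefficient at `n`
(the product is monic of degree `n`). `Q - P` has degree `< n` and vanishes at the `n` distinct points `y j`,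
so it is `0` (`Polynomial.eq_zero_of_degree_lt_of_eval_index_eq_zero` or
`Polynomial.eq_zero_of_natDegree_lt_card_of_eval_eq_zero`); for `n = 0` both sides are `1`. -/
theorem Ps_eq_prod {n : ℕ} {x a L : ℝ} (y : Fin n → ℝ) (hy : Function.Injective y)
    (h0 : ∀ j, Ps n x a L (y j) = 0) (lam : ℝ) :
    Ps n x a L lam = (∏ r ∈ range n, (-1 / ((a + 1 + r) * (x - 1 - r)))) * ∏ j, (lam - y j) := by
  classical
  set c := ∏ r ∈ range n, (-1 / ((a + 1 + (r : ℝ)) * (x - 1 - r))) with hc
  let Q : Polynomial ℝ := ∑ j ∈ range (n + 1), Polynomial.C (n.choose j : ℝ) * P2D x a L j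
  let P : Polynomial ℝ := Polynomial.C c * ∏ j : Fin n, (Polynomial.X - Polynomial.C (y j))
  have hQe : ∀ t, Q.eval t = Ps n x a L t := by
    intro t
    simp only [Q, Ps, Polynomial.eval_finsetSum, Polynomial.eval_mul, Polynomial.eval_C, P2D_eval]
  have hPe : ∀ t, P.eval t = c * ∏ j, (t - y j) := by
    intro t
    simp only [P, Polynomial.eval_mul, Polynomial.eval_C, Polynomial.eval_prod, Polynomial.eval_sub,
      Polynomial.eval_X]
  have hmon : (∏ j : Fin n, (Polynomial.X - Polynomial.C (y j))).Monic :=
    Polynomial.monic_prod_of_monic _ _ fun j _ => Polynomial.monic_X_sub_C (y j)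
  have hdeg : (∏ j : Fin n, (Polynomial.X - Polynomial.C (y j))).natDegree = n := by
    rw [Polynomial.natDegree_prod_of_monic _ _ fun j _ => Polynomial.monic_X_sub_C (y j)]
    simp
  have hPn : P.natDegree ≤ n := (Polynomial.natDegree_C_mul_le _ _).trans hdeg.le
  have hPc : P.coeff n = c := by
    have h1 : (∏ j : Fin n, (Polynomial.X - Polynomial.C (y j))).coeff n = 1 := by
      have := hmon.coeff_natDegree
      rwa [hdeg] at this
    simp only [P]
    rw [Polynomial.coeff_C_mul, h1, mul_one]
  have hQn : Q.natDegree ≤ n := by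
    refine Polynomial.natDegree_sum_le_of_forall_le _ _ fun j hj => ?_
    rw [Finset.mem_range] at hj
    exact (Polynomial.natDegree_C_mul_le _ _).trans ((P2D_deg x a L j).1.trans (by omega))
  have hQc : Q.coeff n = c := by
    simp only [Q]
    rw [Polynomial.finsetSum_coeff, Finset.sum_range_succ, Polynomial.coeff_C_mul, (P2D_deg x a L n).2,
      Nat.choose_self, Finset.sum_eq_zero, zero_add, hc]
    · simp
    · intro j hj
      rw [Finset.mem_range] at hj
      rw [Polynomial.coeff_C_mul, Polynomial.coeff_eq_zero_of_natDegree_lt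
        (lt_of_le_of_lt (P2D_deg x a L j).1 hj), mul_zero]
  have hlt : (Q - P).degree < n := by
    rw [Polynomial.degree_lt_iff_coeff_zero]
    intro m hm
    rcases hm.lt_or_eq with h | h
    · rw [Polynomial.coeff_sub, Polynomial.coeff_eq_zero_of_natDegree_lt (lt_of_le_of_lt hQn h),
        Polynomial.coeff_eq_zero_of_natDegree_lt (lt_of_le_of_lt hPn h), sub_zero]
    · rw [← h, Polynomial.coeff_sub, hQc, hPc, sub_self]
  have hz : Q - P = 0 := by
    apply Polynomial.eq_zero_of_degree_lt_of_eval_index_eq_zero (s := (univ : Finset (Fin n))) (v := y)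
    · exact hy.injOn
    · simpa using hlt
    · intro j _
      rw [Polynomial.eval_sub, hQe, hPe, h0 j, Finset.prod_eq_zero (Finset.mem_univ j) (sub_self _)]
      simp
  have := congrArg (fun p : Polynomial ℝ => p.eval lam) hz
  simp only [Polynomial.eval_sub, Polynomial.eval_zero, hQe, hPe] at this
  linarith

end Pool.Agent.BY
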