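import Mathlib
import Pool.Agent.BetaL.Closed

set_option autoImplicit false

namespace Pool.Agent.BY

open Finset Pool.Agent.BetaL

/-- Chu-Vandermonde.

Proof. Induction on `m` for all `a ≥ 0`. Let `V m a` be the left side. Pascal (`pascal_sum` of
`Pool/Agent/BetaL/Closed.lean` with `u j = (-1)^j ∏_{r<j} …`):
`V (m+1) a = V m a - ∑_j (-1)^j C(m,j) ∏_{r<j+1} (w+a+1+r)/(a+1+r) = V m a - (w+a+1)/(a+1) * V m (a+1)`
(`Finset.prod_range_succ'`: split off `r = 0`; `w + (a+1) + 1 + r = w + a + 1 + (r+1)`). By induction, with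
`W = ∏_{r<m} (w - r)`, `A = ∏_{r<m} (a+1+r)`: `V m a = (-1)^m W / A` and `V m (a+1) = (-1)^m W / A'`,
`A' = ∏_{r<m} (a+2+r)`, `(a+1) A' = A (a+1+m)`; so `V (m+1) a = (-1)^m (W / A) (1 - (w+a+1)/(a+1+m))
= (-1)^(m+1) (W/A) (w - m)/(a+1+m)`. -/
theorem chu (w : ℝ) (m : ℕ) : ∀ (a : ℝ), 0 ≤ a →
    ∑ j ∈ range (m + 1), (m.choose j : ℝ) * ((-1) ^ j * ∏ r ∈ range j, ((w + a + 1 + r) / (a + 1 + r))) =
      (-1) ^ m * ∏ r ∈ range m, ((w - r) / (a + 1 + r)) := by
  induction m with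
  | zero => intro a ha; simp
  | succ m ih =>
    intro a ha
    rw [show m + 1 + 1 = m + 2 from rfl, pascal_sum, ih a ha]
    have h1 : ∑ j ∈ range (m + 1), (m.choose j : ℝ) * ((-1) ^ (j + 1) *
        ∏ r ∈ range (j + 1), ((w + a + 1 + r) / (a + 1 + r))) =
        -((w + a + 1) / (a + 1)) * ∑ j ∈ range (m + 1), (m.choose j : ℝ) * ((-1) ^ j *
          ∏ r ∈ range j, ((w + (a + 1) + 1 + r) / ((a + 1) + 1 + r))) := by
      rw [Finset.mul_sum]
      refine Finset.sum_congr rfl fun j _ => ?_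
      rw [Finset.prod_range_succ']
      have h2 : ∏ r ∈ range j, ((w + a + 1 + ((r + 1 : ℕ) : ℝ)) / (a + 1 + ((r + 1 : ℕ) : ℝ))) =
          ∏ r ∈ range j, ((w + (a + 1) + 1 + r) / ((a + 1) + 1 + r)) := by
        refine Finset.prod_congr rfl fun r _ => ?_
        push_cast
        congr 1 <;> ring
      rw [h2, Nat.cast_zero, add_zero, add_zero, pow_succ]
      ring
    rw [h1, ih (a + 1) (by linarith)]
    have h3 : ∀ n : ℕ, (∏ r ∈ range n, ((w - r) / (a + 1 + 1 + r))) * (a + 1 + n) =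
        (∏ r ∈ range n, ((w - r) / (a + 1 + r))) * (a + 1) := by
      intro n
      induction n with
      | zero => simp
      | succ n ihn =>
        rw [Finset.prod_range_succ, Finset.prod_range_succ]
        have hn : (a + 1 + (n : ℝ)) ≠ 0 := by positivity
        have hn2 : (a + 1 + 1 + (n : ℝ)) ≠ 0 := by positivity
        push_cast
        have e1 : (∏ r ∈ range n, ((w - r) / (a + 1 + 1 + r))) =
            (∏ r ∈ range n, ((w - r) / (a + 1 + r))) * (a + 1) / (a + 1 + n) := by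
          rw [eq_div_iff hn, ihn]
        rw [e1]
        field_simp
        ring
    have hm : (a + 1 + (m : ℝ)) ≠ 0 := by positivity
    have ha1 : a + 1 ≠ 0 := by positivity
    have e1 : (∏ r ∈ range m, ((w - r) / (a + 1 + 1 + r))) =
        (∏ r ∈ range m, ((w - r) / (a + 1 + r))) * (a + 1) / (a + 1 + m) := by
      rw [eq_div_iff hm, h3 m]
    rw [e1, Finset.prod_range_succ, pow_succ]
    field_simp
    ring

end Pool.Agent.BY
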