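import Mathlib
import Pool.Agent.BetaL.Closed
import Pool.Agent.BY.P3

set_option autoImplicit false

namespace Pool.Agent.BY

open Finset Pool.Agent.BetaL

private theorem p4_dd {x w a : ℝ} (ha : 0 ≤ a) (j : ℕ) (hj : (j : ℝ) < x) :
    (x - j) * dd x a (w + a + 1 - x) (x * (w + a + 1)) j =
      x * ((-1) ^ j * ∏ r ∈ range j, ((w + a + 1 + r) / (a + 1 + r))) := by
  induction j with
  | zero => simp [dd]
  | succ j ih =>
    push_cast at hj
    have h1 := ih (by linarith)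
    have hj0 : (0 : ℝ) ≤ j := by positivity
    have hx1 : x - 1 - j ≠ 0 := by
      have : 0 < x - 1 - j := by linarith
      exact this.ne'
    have ha2 : a + 1 + j ≠ 0 := by positivity
    rw [Finset.prod_range_succ]
    simp only [dd]
    have h2 : x * (w + a + 1) - j * (j + (w + a + 1 - x)) = (x - j) * (w + a + 1 + j) := by ring
    rw [h2]
    have h3 : x - ((j + 1 : ℕ) : ℝ) = x - 1 - j := by
      push_cast
      ring
    rw [h3]
    have h4 : (x - 1 - j) * -(dd x a (w + a + 1 - x) (x * (w + a + 1)) j * ((x - j) * (w + a + 1 + j)) /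
        ((a + 1 + j) * (x - 1 - j))) = -(((x - j) * dd x a (w + a + 1 - x) (x * (w + a + 1)) j) *
        ((w + a + 1 + j) / (a + 1 + j))) := by
      field_simp
    rw [h4, h1, pow_succ]
    ring

private theorem p4_rel {x w a : ℝ} (ha : 0 ≤ a) (n : ℕ) (hn : (n : ℝ) + 1 < x) :
    (x - 1 - n) * Ps (n + 1) x a (w + a + 1 - x) (x * (w + a + 1)) +
      (n + 1) * Ps n x a (w + a + 1 - x) (x * (w + a + 1)) =
      x * ((-1) ^ (n + 1) * ∏ r ∈ range (n + 1), ((w - r) / (a + 1 + r))) := by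
  rw [← chu w (n + 1) a ha, Ps, Ps, ← sum_range_succ_choose n, Finset.mul_sum, Finset.mul_sum, Finset.mul_sum,
    ← Finset.sum_add_distrib]
  refine Finset.sum_congr rfl fun j hj => ?_
  have hj2 := Finset.mem_range.mp hj
  have hj3 : (j : ℝ) ≤ n + 1 := by exact_mod_cast (by omega : j ≤ n + 1)
  have h := choose_cast n j (by omega)
  have h2 := p4_dd (w := w) ha j (by linarith)
  linear_combination ((n + 1).choose j : ℝ) * h2 + (dd x a (w + a + 1 - x) (x * (w + a + 1)) j) * h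

/-- The value of `Ps` at `x (w + a + 1)`.

Proof. Let `L = w + a + 1 - x`, `lam = x (w + a + 1) = x (x + L)`. For `j ≤ n` (`j < x`):
`(x - j) dd_j = x (-1)^j ∏_{r<j} (w+a+1+r)/(a+1+r)` by induction: `lam - j (j + L) = (x - j)(x + L + j)`,
`dd_{j+1} = - dd_j (x - j)(w + a + 1 + j)/((a+1+j)(x-1-j))`.
Let `F n = Ps n x a L lam = ∑_{j ≤ n} C(n,j) dd_j`. Then
`(x - 1 - n) F (n+1) + (n+1) F n = ∑_{j ≤ n+1} C(n+1,j) (x - j) dd_j`, because
`(n+1) C(n,j) = (n+1-j) C(n+1,j)` (`choose_cast` of `Closed.lean`), and this is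
`x (-1)^(n+1) ∏_{r<n+1} (w-r)/(a+1+r)` by `chu`.
Claim by induction: `F n = (-1)^n n! / ∏_{r<n} (x-1-r) * S n`, `S n = ∑_{l ≤ n} ∏_{r<l} s r`,
`s r = (x-r)(w-r)/((r+1)(a+1+r))`. `F 0 = 1 = S 0`. Step: `S (n+1) - S n = ∏_{r<n+1} s r`, and
`(-1)^(n+1) (n+1)! / ∏_{r<n} (x-1-r) * ∏_{r<n+1} s r = x (-1)^(n+1) ∏_{r<n+1} (w-r)/(a+1+r)`, because
`∏_{r<n+1} (x-r) = x ∏_{r<n} (x-1-r)` and `∏_{r<n+1} (r+1) = (n+1)!`; so
`(x-1-n) F (n+1) = - (n+1) F n + (-1)^(n+1) (n+1)!/∏_{r<n}(x-1-r) (S (n+1) - S n)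
= (-1)^(n+1) (n+1)!/∏_{r<n}(x-1-r) S (n+1)`. All `x - 1 - r`, `r ≤ n`, are positive. -/
theorem Ps_at {x w a : ℝ} (ha : 0 ≤ a) (n : ℕ) (hn : (n : ℝ) < x) :
    Ps n x a (w + a + 1 - x) (x * (w + a + 1)) =
      (-1) ^ n * (n.factorial : ℝ) / (∏ r ∈ range n, (x - 1 - r)) *
        ∑ l ∈ range (n + 1), ∏ r ∈ range l, ((x - r) * (w - r) / ((r + 1) * (a + 1 + r))) := by
  induction n with
  | zero => simp [Ps, dd]
  | succ n ih =>
    push_cast at hn
    have h1 := ih (by linarith)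
    have h2 := p4_rel (w := w) ha n hn
    have hn0 : (0 : ℝ) ≤ n := by positivity
    have hx1 : x - 1 - n ≠ 0 := by
      have : 0 < x - 1 - n := by linarith
      exact this.ne'
    obtain ⟨P, hP⟩ : ∃ P : ℝ, P = ∏ r ∈ range n, (x - 1 - (r : ℝ)) := ⟨_, rfl⟩
    have hP0 : P ≠ 0 := by
      rw [hP, Finset.prod_ne_zero_iff]
      intro r hr
      have h3 : (r : ℝ) < n := by exact_mod_cast Finset.mem_range.1 hr
      have : 0 < x - 1 - r := by linarith
      exact this.ne'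
    have h5 : ∏ r ∈ range (n + 1), ((x - (r : ℝ)) * (w - r) / ((r + 1) * (a + 1 + r))) =
        x * P / ((n + 1).factorial : ℝ) * ∏ r ∈ range (n + 1), ((w - r) / (a + 1 + r)) := by
      have h6 : ∏ r ∈ range (n + 1), (x - (r : ℝ)) = x * P := by
        rw [Finset.prod_range_succ', hP, Nat.cast_zero, sub_zero, mul_comm]
        congr 1
        refine Finset.prod_congr rfl fun r _ => ?_
        push_cast
        ring
      have h7 : ((n + 1).factorial : ℝ) = ∏ r ∈ range (n + 1), ((r : ℝ) + 1) := by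
        rw [← Finset.prod_range_add_one_eq_factorial]
        push_cast
        rfl
      rw [← h6, h7, ← Finset.prod_div_distrib, ← Finset.prod_mul_distrib]
      refine Finset.prod_congr rfl fun r _ => ?_
      have h8 : ((r : ℝ) + 1) ≠ 0 := by positivity
      have h9 : a + 1 + r ≠ 0 := by positivity
      field_simp
    rw [Finset.sum_range_succ, h5, Finset.prod_range_succ, ← hP]
    rw [← hP] at h1
    rw [h1] at h2
    have hf : ((n.factorial : ℕ) : ℝ) ≠ 0 := by exact_mod_cast Nat.factorial_ne_zero n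
    have hf2 : (((n + 1).factorial : ℕ) : ℝ) = (n + 1) * (n.factorial : ℝ) := by
      rw [Nat.factorial_succ]
      push_cast
      ring
    have hn1 : (n : ℝ) + 1 ≠ 0 := by positivity
    rw [hf2]
    generalize ∑ l ∈ range (n + 1), ∏ r ∈ range l, ((x - (r : ℝ)) * (w - r) / ((r + 1) * (a + 1 + r))) = S at h2 ⊢
    generalize ∏ r ∈ range (n + 1), ((w - (r : ℝ)) / (a + 1 + r)) = W at h2 ⊢
    generalize Ps (n + 1) x a (w + a + 1 - x) (x * (w + a + 1)) = F at h2 ⊢
    have h10 : (x - 1 - n) * F = x * ((-1) ^ (n + 1) * W) - (n + 1) * ((-1) ^ n * (n.factorial : ℝ) / P * S) := by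
      linear_combination h2
    apply mul_left_cancel₀ hx1
    rw [h10, pow_succ]
    field_simp
    ring

end Pool.Agent.BY
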