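import Mathlib
import Pool.Agent.BY.Defs
import Pool.Agent.BY.P2
import Pool.Agent.BY.P4

set_option autoImplicit false

namespace Pool.Agent.BY

open Finset Pool.Agent.BetaL

private theorem p5_choose (x l : ℕ) : ((x.choose (l + 1) : ℕ) : ℝ) * ((l : ℝ) + 1) = (x.choose l : ℕ) * ((x : ℝ) - l) := by
  rcases Nat.lt_or_ge x l with h | h
  · rw [Nat.choose_eq_zero_of_lt h, Nat.choose_eq_zero_of_lt (by omega)]
    simp
  · have h1 := Nat.choose_succ_right_eq x l
    have h2 : ((x.choose (l + 1) * (l + 1) : ℕ) : ℝ) = ((x.choose l * (x - l) : ℕ) : ℝ) := by rw [h1]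
    push_cast [Nat.cast_sub h] at h2
    exact h2

private theorem p5_ch1 (x l : ℕ) : ∏ r ∈ range l, (((x : ℝ) - r) / (r + 1)) = (x.choose l : ℕ) := by
  induction l with
  | zero => simp
  | succ l ih =>
    rw [prod_range_succ, ih, mul_div_assoc', div_eq_iff (by positivity)]
    exact (p5_choose x l).symm

private theorem p5_ch2 (w l : ℕ) : ((w : ℝ) + 1) * ∏ r ∈ range l, (((w : ℝ) - r) / (1 + 1 + r)) =
    ((w + 1).choose (l + 1) : ℕ) := by
  induction l with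
  | zero => simp
  | succ l ih =>
    rw [prod_range_succ, ← mul_assoc, ih, mul_div_assoc', div_eq_iff (by positivity)]
    have h := p5_choose (w + 1) (l + 1)
    push_cast at h
    linear_combination -h

private theorem p5_fact0 (n : ℕ) : ∏ r ∈ range n, ((0 : ℝ) + 1 + r) = (n.factorial : ℕ) := by
  induction n with
  | zero => simp
  | succ n ih =>
    rw [prod_range_succ, ih, Nat.factorial_succ]
    push_cast
    ring

private theorem p5_fact1 (n : ℕ) : ∏ r ∈ range n, ((1 : ℝ) + 1 + r) = ((n + 1).factorial : ℕ) := by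
  induction n with
  | zero => simp
  | succ n ih =>
    rw [prod_range_succ, ih, Nat.factorial_succ (n + 1)]
    push_cast
    ring

private theorem p5_fact {n a : ℕ} (ha : a ≤ 1) : ∏ r ∈ range n, ((a : ℝ) + 1 + r) = ((n + a).factorial : ℕ) := by
  rcases Nat.le_one_iff_eq_zero_or_eq_one.1 ha with rfl | rfl
  · rw [Nat.cast_zero]
    exact p5_fact0 n
  · rw [Nat.cast_one]
    exact p5_fact1 n

/-- `(w+1)^a * ∑_{l ≤ n} ∏_{r<l} (x-r)(w-r)/((r+1)(a+1+r)) = Θ` for `a ∈ {0, 1}`.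

Proof. Termwise. `C(x,l) = ∏_{r<l} (x-r)/(r+1)` in `ℝ` (for all `x : ℕ`; induction with
`Nat.choose_succ_right_eq`, both sides `0` for `l > x`). `a = 0`: `∏_{r<l} (w-r)/(0+1+r) = C(w,l)`.
`a = 1`: `(w+1) ∏_{r<l} (w-r)/(1+1+r) = C(w+1,l+1)` (induction: `C(w+1,l+2)(l+2) = C(w+1,l+1)(w+1-(l+1))`). -/
theorem Th_cast {x w a : ℕ} (ha : a ≤ 1) (n : ℕ) :
    ((w : ℝ) + 1) ^ a * ∑ l ∈ range (n + 1),
      ∏ r ∈ range l, (((x : ℝ) - r) * ((w : ℝ) - r) / ((r + 1) * ((a : ℝ) + 1 + r))) =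
      (Th x w a n : ℝ) := by
  unfold Th
  push_cast
  rw [mul_sum]
  refine sum_congr rfl fun l _ => ?_
  rcases Nat.le_one_iff_eq_zero_or_eq_one.1 ha with rfl | rfl
  · have h1 := p5_ch1 x l
    have h2 := p5_ch1 w l
    rw [pow_zero, one_mul, add_zero, add_zero, ← h1, ← h2, ← prod_mul_distrib]
    refine prod_congr rfl fun r _ => ?_
    have h3 : (r : ℝ) + 1 ≠ 0 := by positivity
    rw [Nat.cast_zero, zero_add, div_mul_div_comm, add_comm (1 : ℝ) (r : ℝ)]
  · have h1 := p5_ch1 x l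
    have h2 := p5_ch2 w l
    rw [pow_one, ← h1, ← h2, mul_left_comm, ← prod_mul_distrib]
    congr 1
    refine prod_congr rfl fun r _ => ?_
    rw [Nat.cast_one, div_mul_div_comm]

/-- **Product formula.**

Proof. In `ℝ`, with `L = w + a + 1 - x ≥ 0`, `y j = t j (L + t j)` (injective: `t ↦ t (L + t)` is strictly
increasing on the naturals), `lam = x (w + a + 1)`: `lam - y j = (x - t j)(w + a + 1 + t j)`
(`L + x = w + a + 1`). `Ps_eq_prod` and `Ps_at`:
`(∏_{r<n} (-1/((a+1+r)(x-1-r)))) ∏_j (x - t j)(w+a+1+t j) = (-1)^n n!/∏_{r<n}(x-1-r) * S`, where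
`S = ∑_{l≤n} ∏ …`. The first product is `(-1)^n / (∏_{r<n} (a+1+r) * ∏_{r<n} (x-1-r))` and
`∏_{r<n} (a+1+r) = (n+a)!` for `a ≤ 1` (`a = 0`: `n!`; `a = 1`: `∏_{r<n} (r+2) = (n+1)!`; induction).
So `∏_j (x - t j)(w+a+1+t j) = n! (n+a)! S`; multiply by `(w+1)^a` and use `Th_cast`; cast back to `ℕ`
(`x - t j` as a natural number subtraction, `t j < x`). -/
theorem prod_formula {x w a n : ℕ} (ha : a ≤ 1) (hn : n < x) (hL : x ≤ w + a + 1) {t : Fin n → ℕ}
    (ht : Function.Injective t) (htx : ∀ j, t j < x)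
    (h0 : ∀ j, Ps n x a ((w : ℝ) + a + 1 - x) ((t j : ℝ) * (((w : ℝ) + a + 1 - x) + t j)) = 0) :
    (w + 1) ^ a * ((∏ j, (x - t j)) * ∏ j, (w + a + 1 + t j)) =
      n.factorial * (n + a).factorial * Th x w a n := by
  obtain ⟨L, hLd⟩ : ∃ L : ℝ, L = (w : ℝ) + a + 1 - x := ⟨_, rfl⟩
  have hL0 : 0 ≤ L := by
    have h1 : (x : ℝ) ≤ ((w + a + 1 : ℕ) : ℝ) := by exact_mod_cast hL
    push_cast at h1
    rw [hLd]
    linarith
  have hmono : ∀ s u : ℕ, s < u → (s : ℝ) * (L + s) < (u : ℝ) * (L + u) := by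
    intro s u hsu
    have h1 : (s : ℝ) < u := by exact_mod_cast hsu
    have h2 : (0 : ℝ) ≤ s := Nat.cast_nonneg s
    nlinarith
  have hy : Function.Injective (fun j : Fin n => (t j : ℝ) * (L + t j)) := by
    intro i j hij
    apply ht
    have hij' : (t i : ℝ) * (L + t i) = (t j : ℝ) * (L + t j) := hij
    rcases lt_trichotomy (t i) (t j) with h | h | h
    · exact absurd hij' (hmono _ _ h).ne
    · exact h
    · exact absurd hij' (hmono _ _ h).ne'
  have h1 := Ps_eq_prod (x := (x : ℝ)) (a := (a : ℝ)) (L := L) (fun j : Fin n => (t j : ℝ) * (L + t j)) hy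
    (fun j => by rw [hLd]; exact h0 j) ((x : ℝ) * (w + a + 1))
  have h2 := Ps_at (x := (x : ℝ)) (w := (w : ℝ)) (a := (a : ℝ)) (Nat.cast_nonneg a) n (by exact_mod_cast hn)
  rw [← hLd, h1] at h2
  have hP : ∏ r ∈ range n, ((x : ℝ) - 1 - r) ≠ 0 := by
    rw [prod_ne_zero_iff]
    intro r hr
    have hr' : r < n := mem_range.1 hr
    have h3 : ((r + 1 : ℕ) : ℝ) < x := by
      have : r + 1 < x := by omega
      exact_mod_cast this
    push_cast at h3
    have h4 : 0 < (x : ℝ) - 1 - r := by linarith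
    exact h4.ne'
  have hF : ((n + a).factorial : ℝ) ≠ 0 := Nat.cast_ne_zero.2 (Nat.factorial_ne_zero _)
  have hc : ∏ r ∈ range n, (-1 / (((a : ℝ) + 1 + r) * ((x : ℝ) - 1 - r))) =
      (-1) ^ n / (((n + a).factorial : ℝ) * ∏ r ∈ range n, ((x : ℝ) - 1 - r)) := by
    rw [prod_div_distrib, prod_mul_distrib, p5_fact ha, prod_const, card_range]
  have hlam : ∏ j : Fin n, ((x : ℝ) * (w + a + 1) - (t j : ℝ) * (L + t j)) =
      ((∏ j, (x - t j) : ℕ) : ℝ) * ((∏ j, (w + a + 1 + t j) : ℕ) : ℝ) := by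
    push_cast
    rw [← prod_mul_distrib]
    refine prod_congr rfl fun j _ => ?_
    rw [Nat.cast_sub (htx j).le, hLd]
    ring
  rw [hc, hlam] at h2
  have hneg : ((-1 : ℝ)) ^ n ≠ 0 := pow_ne_zero _ (by norm_num)
  have h3 : ((∏ j, (x - t j) : ℕ) : ℝ) * ((∏ j, (w + a + 1 + t j) : ℕ) : ℝ) =
      (n.factorial : ℝ) * ((n + a).factorial : ℝ) *
        ∑ l ∈ range (n + 1), ∏ r ∈ range l, (((x : ℝ) - r) * ((w : ℝ) - r) / ((r + 1) * ((a : ℝ) + 1 + r))) := by
    generalize (∑ l ∈ range (n + 1), ∏ r ∈ range l, (((x : ℝ) - r) * ((w : ℝ) - r) / ((r + 1) * ((a : ℝ) + 1 + r)))) = S at h2 ⊢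
    generalize (((∏ j, (x - t j) : ℕ) : ℝ) * ((∏ j, (w + a + 1 + t j) : ℕ) : ℝ)) = Q at h2 ⊢
    generalize (∏ r ∈ range n, ((x : ℝ) - 1 - r)) = P at h2 hP
    generalize ((n + a).factorial : ℝ) = F1 at h2 hF ⊢
    generalize (n.factorial : ℝ) = F2 at h2 ⊢
    generalize ((-1 : ℝ)) ^ n = e at h2 hneg
    have h4 : e / (F1 * P) * Q = (e / P) * (Q / F1) := by
      field_simp
    have h5 : e * F2 / P * S = (e / P) * (F2 * S) := by
      ring
    rw [h4, h5] at h2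
    have h6 : Q / F1 = F2 * S := mul_left_cancel₀ (div_ne_zero hneg hP) h2
    rw [div_eq_iff hF] at h6
    rw [h6]
    ring
  have h7 := Th_cast (x := x) (w := w) ha n
  have h8 : (((w + 1) ^ a * ((∏ j, (x - t j)) * ∏ j, (w + a + 1 + t j)) : ℕ) : ℝ) =
      ((n.factorial * (n + a).factorial * Th x w a n : ℕ) : ℝ) := by
    rw [Nat.cast_mul, Nat.cast_mul, h3, Nat.cast_mul, Nat.cast_mul, ← h7]
    push_cast
    ring
  exact_mod_cast h8

end Pool.Agent.BY
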