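import Mathlib

set_option autoImplicit false

namespace Pool.Agent.BY

open Finset

private lemma v1_val {p σ α g e : ℕ} (hp : p.Prime) (hg : Nat.log p σ < g + 1) (hα : α ≤ σ)
    (he : p ^ e ∣ α) : padicValNat p (σ.choose α) ≤ g - e := by
  have : Fact p.Prime := ⟨hp⟩
  rw [padicValNat_choose hα hg]
  have hsub : (Finset.Ico 1 (g + 1)).filter (fun i => p ^ i ≤ α % p ^ i + (σ - α) % p ^ i) ⊆
      Finset.Ico (e + 1) (g + 1) := by
    intro i hi
    rw [Finset.mem_filter, Finset.mem_Ico] at hi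
    rw [Finset.mem_Ico]
    refine ⟨?_, hi.1.2⟩
    by_contra hcon
    have h1 : i ≤ e := by omega
    have h2 : α % p ^ i = 0 := Nat.mod_eq_zero_of_dvd ((pow_dvd_pow p h1).trans he)
    have h3 : (σ - α) % p ^ i < p ^ i := Nat.mod_lt _ (pow_pos hp.pos i)
    have h4 := hi.2
    rw [h2] at h4
    omega
  calc _ ≤ (Finset.Ico (e + 1) (g + 1)).card := Finset.card_le_card hsub
    _ = g - e := by rw [Nat.card_Ico]; omega

private lemma v1_floor {k q : ℕ} (hq : 0 < q) (hqk : q ≤ k) : k / q * q ≤ k ∧ k < 2 * (k / q * q) := by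
  refine ⟨Nat.div_mul_le_self k q, ?_⟩
  have h1 : k < (k / q + 1) * q := by
    have := Nat.lt_mul_div_succ k hq
    rwa [mul_comm] at this
  have h2 : 1 ≤ k / q := (Nat.one_le_div_iff hq).2 hqk
  have h3 : q ≤ k / q * q := Nat.le_mul_of_pos_left q h2
  rw [add_mul, one_mul] at h1
  omega

/-- **The arithmetic of the window** `[w + 1, w + A]`.

Proof. Let `σ = w + A`, `g = Nat.log p σ`, so `p ^ g ≤ σ < p ^ (g + 1)` and `g ≥ 1` (`p ≤ k ≤ σ`).
Kummer (`padicValNat_choose` with the bound `g + 1`; needs `Fact p.Prime`): for `α ≤ σ`,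
`padicValNat p (C(σ,α)) = #{i ∈ [1, g] : p^i ≤ α % p^i + (σ - α) % p^i}`.
(a) If `α = c p^g` (`α ≤ σ`): for `i ≤ g`, `α % p^i = 0` and `(σ-α) % p^i < p^i`, so the valuation is `0`.
(b) If `σ - α = c p^g`: the same, valuation `0`.
(c) If `α = c p^(g-1)`: only `i = g` can occur, so the valuation is `≤ 1`.
Case 1, `p^g ≤ k`: `α = (k / p^g) p^g` satisfies `α ≤ k` and `2 α > k` (`k < (c+1) p^g ≤ 2 c p^g`, `c ≥ 1`), so
`A ≤ α` (`2 A ≤ k`); `p ∣ Θ ∣ C(σ,α)` contradicts (a).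
Case 2, `k < p^g ≤ w`: `α = σ - p^g` satisfies `A ≤ α` and `α ≤ k` (`p^g ≥ k + 1`, `σ ≤ 2 k`); contradiction
with (b).
Case 3, `w < p^g`: then `w + 1 ≤ p^g ≤ w + A`, and `g ≥ 2` because `p ≤ k ≤ w < p^g`. Let
`c = k / p^(g-1)`; `p^(g-1) ≤ p^g / 2 ≤ σ / 2 ≤ k`, so `c ≥ 1`, and `α = c p^(g-1)` satisfies `A ≤ α ≤ k` as in
case 1; (c) shows `¬ p^2 ∣ C(σ,α)` (`padicValNat_dvd_iff_le`, `C(σ,α) ≠ 0`), hence `¬ p^2 ∣ Θ`. -/
theorem padic {k w A Θ p : ℕ} (hp : p.Prime) (hA2 : 2 * A ≤ k) (hkw : k ≤ w)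
    (hw : w + A ≤ 2 * k) (hpk : p ≤ k) (hdvd : ∀ α, A ≤ α → α ≤ k → Θ ∣ (w + A).choose α)
    (hpΘ : p ∣ Θ) : ¬ p ^ 2 ∣ Θ ∧ ∃ g, 2 ≤ g ∧ w + 1 ≤ p ^ g ∧ p ^ g ≤ w + A := by
  have : Fact p.Prime := ⟨hp⟩
  set σ := w + A with hσ
  have hp2 := hp.two_le
  have hσ0 : σ ≠ 0 := by omega
  set g := Nat.log p σ with hg
  have hg1 : p ^ g ≤ σ := Nat.pow_log_le_self p hσ0
  have hglt : Nat.log p σ < g + 1 := Nat.lt_succ_self _
  have hpos : 0 < p ^ g := pow_pos hp.pos g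
  have hno : ∀ α, A ≤ α → α ≤ k → padicValNat p (σ.choose α) = 0 → False := by
    intro α h1 h2 h3
    have h4 : p ∣ σ.choose α := hpΘ.trans (hdvd α h1 h2)
    have h5 : σ.choose α ≠ 0 := (Nat.choose_pos (by omega)).ne'
    have h6 := one_le_padicValNat_of_dvd h5 h4
    omega
  -- case 1
  have hc1 : k < p ^ g := by
    by_contra hcon
    obtain ⟨h1, h2⟩ := v1_floor hpos (not_lt.1 hcon)
    have h3 := v1_val (α := k / p ^ g * p ^ g) (e := g) hp hglt (by omega) (Dvd.intro_left _ rfl)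
    exact hno _ (by omega) h1 (by omega)
  -- case 2
  have hc2 : w < p ^ g := by
    by_contra hcon
    have h3 := v1_val (α := p ^ g) (e := g) hp hglt hg1 dvd_rfl
    have h4 : σ.choose (σ - p ^ g) = σ.choose (p ^ g) := Nat.choose_symm hg1
    refine hno (σ - p ^ g) (by omega) (by omega) ?_
    rw [h4]
    omega
  have hg2 : 2 ≤ g := by
    by_contra hcon
    have h1 : p ^ g ≤ p ^ 1 := Nat.pow_le_pow_right hp.pos (by omega)
    rw [pow_one] at h1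
    omega
  refine ⟨?_, g, hg2, by omega, hg1⟩
  intro hsq
  have hq : p ^ g = p * p ^ (g - 1) := by
    rw [← pow_succ']
    congr 1
    omega
  have hqpos : 0 < p ^ (g - 1) := pow_pos hp.pos _
  have hqk : p ^ (g - 1) ≤ k := by
    have : 2 * p ^ (g - 1) ≤ p * p ^ (g - 1) := Nat.mul_le_mul_right _ hp2
    omega
  obtain ⟨h1, h2⟩ := v1_floor hqpos hqk
  have h3 := v1_val (α := k / p ^ (g - 1) * p ^ (g - 1)) (e := g - 1) hp hglt (by omega) (Dvd.intro_left _ rfl)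
  have h4 : p ^ 2 ∣ σ.choose (k / p ^ (g - 1) * p ^ (g - 1)) := hsq.trans (hdvd _ (by omega) h1)
  have h5 : σ.choose (k / p ^ (g - 1) * p ^ (g - 1)) ≠ 0 := (Nat.choose_pos (by omega)).ne'
  have h6 := (padicValNat_dvd_iff_le h5).1 h4
  omega

end Pool.Agent.BY
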