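import Mathlib

set_option autoImplicit false

namespace Pool.Agent.BY

open Finset

/-- Compare the factorizations.

Proof. `P ≠ 0` (it divides `M * Θ ≠ 0`). `Nat.factorization_prime_le_iff_dvd`: for a prime `p`, if `p ∤ P` then
`v_p(P) = 0`. If `p ∣ P` then `p ≤ k`, and `v_p(P) ≤ v_p(M) + v_p(Θ)`; if `p ∤ Θ` this is `v_p(M)`; if
`p ∣ Θ` then `v_p(Θ) = 1` by `hsq` and `p` is in the index set, so `p ∣ ∏ …` and `1 ≤ v_p(∏ …)`. -/
theorem dvd_prod_G {k M Θ P : ℕ} (hM : 0 < M) (hΘ : 0 < Θ) (hP : P ∣ M * Θ)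
    (hsm : ∀ p, p.Prime → p ∣ P → p ≤ k) (hsq : ∀ p, p.Prime → p ≤ k → p ∣ Θ → ¬ p ^ 2 ∣ Θ) :
    P ∣ M * ∏ p ∈ (range (k + 1)).filter (fun p => p.Prime ∧ p ∣ Θ), p := by
  have hP0 : P ≠ 0 := by
    rintro rfl
    have := Nat.eq_zero_of_zero_dvd hP
    exact absurd this (Nat.mul_ne_zero hM.ne' hΘ.ne')
  obtain ⟨G, hG⟩ : ∃ G, G = ∏ p ∈ (range (k + 1)).filter (fun p => p.Prime ∧ p ∣ Θ), p := ⟨_, rfl⟩
  have hG0 : G ≠ 0 := by
    rw [hG, Finset.prod_ne_zero_iff]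
    intro p hp
    exact (Finset.mem_filter.1 hp).2.1.ne_zero
  rw [← hG, ← Nat.factorization_prime_le_iff_dvd hP0 (Nat.mul_ne_zero hM.ne' hG0)]
  intro p hp
  by_cases hpP : p ∣ P
  · have hpk := hsm p hp hpP
    have h1 := (Nat.factorization_prime_le_iff_dvd hP0 (Nat.mul_ne_zero hM.ne' hΘ.ne')).2 hP p hp
    rw [Nat.factorization_mul hM.ne' hΘ.ne', Finsupp.add_apply] at h1
    rw [Nat.factorization_mul hM.ne' hG0, Finsupp.add_apply]
    by_cases hpΘ : p ∣ Θ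
    · have h2 : Θ.factorization p < 2 := by
        by_contra h3
        push Not at h3
        exact hsq p hp hpk hpΘ ((hp.pow_dvd_iff_le_factorization hΘ.ne').2 h3)
      have h4 : p ∣ G := by
        rw [hG]
        exact Finset.dvd_prod_of_mem (fun p => p)
          (Finset.mem_filter.2 ⟨Finset.mem_range.2 (by omega), hp, hpΘ⟩)
      have h5 : 1 ≤ G.factorization p := (hp.dvd_iff_one_le_factorization hG0).1 h4
      omega
    · have h2 : Θ.factorization p = 0 := Nat.factorization_eq_zero_of_not_dvd hpΘ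
      omega
  · rw [Nat.factorization_eq_zero_of_not_dvd hpP]
    exact Nat.zero_le _

end Pool.Agent.BY
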