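import Mathlib
import Pool.Agent.BetaF.T2
import Pool.Agent.BX.NoSign
import Pool.Agent.BX.D2
import Pool.Agent.BY.A6
import Pool.Agent.BY.P5
import Pool.Agent.BY.M5
import Pool.Agent.BY.V1
import Pool.Agent.BY.V2
import Pool.Agent.BY.E1
import Pool.Agent.BY.E3
import Pool.Agent.BY.D10
import Pool.Agent.BY.D11
import Pool.Agent.BY.D12
import Pool.Agent.BY.Big3

set_option autoImplicit false

namespace Pool.Agent.BY

open Finset Pool.Agent.BetaL Pool.Agent.MP_1e96f1_co Pool.Agent.BX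

variable {Ω : Type*} [Fintype Ω] [DecidableEq Ω]

/-- the largest zero `T`, and the arithmetic of `Θ` -/
private lemma setup {Bs : Finset (Finset Ω)} {v k d n a x w : ℕ} (hD : IsDesign Bs v k d)
    (hB : IsBeta Bs v d (n + 1)) (ha : a ≤ 1) (hk : k = d + 2 * n + 1 + a)
    (hv : 2 * k ≤ v) (hn : 2 ≤ n) (hx : x = d + 2 * n + 1) (hw : w = v - k)
    (hN : n ^ 2 + 4 * n + 1 ≤ d + 2 * n) :
    ∃ T : ℕ, T ≤ d + 2 * n ∧ 2 * T ^ 2 < c2 n a * (d + 2 * n) ∧
      Ps n (x : ℝ) a ((v : ℝ) - 2 * (x : ℝ) + 1)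
        ((T : ℝ) * (((v : ℝ) - 2 * (x : ℝ) + 1) + T)) = 0 ∧
      (2 * (T + 1 + a) ≤ k → w + (T + 1 + a) ≤ 2 * k →
        (∀ p, p.Prime → p ≤ k → p ∣ Th x w a n → ¬ p ^ 2 ∣ Th x w a n ∧
          ∃ g, 2 ≤ g ∧ w + 1 ≤ p ^ g ∧ p ^ g ≤ w + (T + 1 + a)) ∧
        ∃ G : Finset ℕ, (∀ p ∈ G, p.Prime ∧ ∃ g, 2 ≤ g ∧ w + 1 ≤ p ^ g ∧ p ^ g ≤ w + (T + 1 + a)) ∧
          (x - T) ^ n ≤ n.factorial * (n + a).factorial * ∏ p ∈ G, p) := by
  obtain ⟨hdk, hkv⟩ := design_facts hD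
  set L : ℝ := (v : ℝ) - 2 * (x : ℝ) + 1 with hL
  have hvw : v = x + a + w := by omega
  have hLw : L = (w : ℝ) + a + 1 - x := by
    rw [hL, hvw]; push_cast; ring
  have hkx : k = x + a := by omega
  have hwk : x + a ≤ w := by omega
  have hwk' : (x : ℝ) + a ≤ w := by exact_mod_cast hwk
  have haL : (a : ℝ) ≤ L := by
    have : (0 : ℝ) ≤ a := by positivity
    rw [hLw]; linarith
  have ha0 : (0 : ℝ) ≤ a := by positivity
  obtain ⟨t, htinj, htb, hz, hstr⟩ := zeros hD hB (by omega) (by omega) (x := (x : ℝ)) (a := (a : ℝ))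
    (L := L) (by rw [hx]) (by rw [hkx]; push_cast; ring) hL (by linarith)
  -- the largest zero
  have hne : (Finset.univ : Finset (Fin n)).Nonempty := by
    rw [Finset.univ_nonempty_iff]
    exact ⟨⟨0, by omega⟩⟩
  obtain ⟨jm, -, hjm⟩ := Finset.exists_max_image Finset.univ t hne
  set T : ℕ := t jm with hTdef
  have hTle : ∀ j, t j ≤ T := fun j => hjm j (Finset.mem_univ j)
  have hTN : T ≤ d + 2 * n := (htb jm).2
  have hxN : (x : ℝ) - 1 = ((d + 2 * n : ℕ) : ℝ) := by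
    rw [hx]; push_cast; ring
  have hTsq : 2 * T ^ 2 < c2 n a * (d + 2 * n) := by
    have hNr : (n : ℝ) ^ 2 + 4 * n + 1 ≤ x - 1 := by
      rw [hxN]
      exact_mod_cast hN
    have h1 := zero_bound3 hn ha0 haL hNr (hz jm)
    rw [hxN] at h1
    have h2 : max (6 * (n : ℝ) + 3 * a - 4) (8 * n + 4 * a - 12) ≤ (c2 n a : ℝ) := by
      unfold c2
      have e1 : ((6 * n + 3 * a - 4 : ℕ) : ℝ) = 6 * (n : ℝ) + 3 * a - 4 := by
        rw [Nat.cast_sub (by omega)]; push_cast; ring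
      have e2 : ((8 * n + 4 * a - 12 : ℕ) : ℝ) = 8 * (n : ℝ) + 4 * a - 12 := by
        rw [Nat.cast_sub (by omega)]; push_cast; ring
      rw [Nat.cast_max, e1, e2]
    have h3 : max (6 * (n : ℝ) + 3 * a - 4) (8 * n + 4 * a - 12) * ((d + 2 * n : ℕ) : ℝ) ≤
        (c2 n a : ℝ) * ((d + 2 * n : ℕ) : ℝ) := mul_le_mul_of_nonneg_right h2 (by positivity)
    have h4 : 2 * (T : ℝ) ^ 2 < (c2 n a : ℝ) * ((d + 2 * n : ℕ) : ℝ) := lt_of_lt_of_le h1 h3
    exact_mod_cast h4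
  refine ⟨T, hTN, hTsq, hz jm, fun hA2 hwA => ?_⟩
  -- the basic divisibility
  have hdvd : ∀ α, T + 1 + a ≤ α → α ≤ k → Th x w a n ∣ (w + (T + 1 + a)).choose α := by
    intro α h1 h2
    have h3 := th_dvd (t := T) hD hB ha hk hTN (by
      intro S S' hS hS'
      refine hstr (d + 2 * n - T) ?_ S S' hS hS'
      intro j
      have := hTle j
      omega) h1 h2
    rw [hx, hw]
    exact h3
  have hkw : k ≤ w := by omega
  have hpad : ∀ p, p.Prime → p ≤ k → p ∣ Th x w a n → ¬ p ^ 2 ∣ Th x w a n ∧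
      ∃ g, 2 ≤ g ∧ w + 1 ≤ p ^ g ∧ p ^ g ≤ w + (T + 1 + a) := fun p hp hpk hpd =>
    padic hp hA2 hkw hwA hpk hdvd hpd
  refine ⟨hpad, ?_⟩
  -- the product formula
  have hprod := prod_formula (x := x) (w := w) (a := a) (n := n) ha (by omega) (by omega) htinj
    (fun j => by have := (htb j).2; omega) (by rw [← hLw]; exact hz)
  have hPd : (∏ j, (x - t j)) ∣ n.factorial * (n + a).factorial * Th x w a n := by
    rw [← hprod]
    exact Dvd.dvd.mul_left (Dvd.intro _ rfl) _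
  set G : Finset ℕ := (range (k + 1)).filter (fun p => p.Prime ∧ p ∣ Th x w a n) with hG
  have hM : 0 < n.factorial * (n + a).factorial := Nat.mul_pos (Nat.factorial_pos _) (Nat.factorial_pos _)
  have hle : (∏ j, (x - t j)) ∣ n.factorial * (n + a).factorial * ∏ p ∈ G, p := by
    refine dvd_prod_G hM (Th_pos x w a n) hPd ?_ (fun p hp hpk hpd => (hpad p hp hpk hpd).1)
    intro p hp hpP
    obtain ⟨j, -, hj⟩ := (Prime.dvd_finsetProd_iff hp.prime _).mp hpP
    have h1 := Nat.le_of_dvd (by have := (htb j).2; omega) hj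
    omega
  have hGpos : 0 < ∏ p ∈ G, p := by
    refine Finset.prod_pos fun p hp => ?_
    rw [hG, Finset.mem_filter] at hp
    exact hp.2.1.pos
  refine ⟨G, fun p hp => ?_, ?_⟩
  · rw [hG, Finset.mem_filter, Finset.mem_range] at hp
    exact ⟨hp.2.1, (hpad p hp.2.1 (by omega) hp.2.2).2⟩
  · refine le_trans ?_ (Nat.le_of_dvd (Nat.mul_pos hM hGpos) hle)
    calc (x - T) ^ n = ∏ _j : Fin n, (x - T) := by simp
      _ ≤ ∏ j, (x - t j) := Finset.prod_le_prod' fun j _ => by have := hTle j; omega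

/-- logarithms -/
private lemma log_part {x T n M N : ℕ} {G : Finset ℕ} (hM : 0 < M) (hx : x = N + 1) (hT : T ≤ N)
    (hG : ∀ p ∈ G, p.Prime) (hpow : (x - T) ^ n ≤ M * ∏ p ∈ G, p) :
    (n : ℝ) * Real.log ((N : ℝ) + 1 - T) ≤ Real.log (M : ℝ) + ∑ p ∈ G, Real.log p := by
  have hxT : ((x - T : ℕ) : ℝ) = (N : ℝ) + 1 - T := by
    rw [Nat.cast_sub (by omega), hx]
    push_cast
    ring
  rw [← hxT, ← Real.log_pow]
  have e1 : ((M * ∏ p ∈ G, p : ℕ) : ℝ) = (M : ℝ) * ∏ p ∈ G, (p : ℝ) := by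
    push_cast; ring
  have e2 : Real.log ((M : ℝ) * ∏ p ∈ G, (p : ℝ)) = Real.log (M : ℝ) + ∑ p ∈ G, Real.log p := by
    rw [Real.log_mul, Real.log_prod]
    · intro p hp
      exact_mod_cast (hG p hp).pos.ne'
    · exact_mod_cast hM.ne'
    · refine Finset.prod_ne_zero_iff.mpr fun p hp => ?_
      exact_mod_cast (hG p hp).pos.ne'
  rw [← e2, ← e1]
  refine Real.log_le_log ?_ (by exact_mod_cast hpow)
  have : 0 < x - T := by omega
  positivity

set_option maxRecDepth 100000 in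
private lemma th_vals : 137 ∣ Th 146 222 1 2 ∧ 149 ∣ Th 170 186 1 2 := by
  constructor <;> decide +kernel

/-- small parameters are excluded by a finite check -/
private lemma small_case3 {Bs : Finset (Finset Ω)} {v k d n a : ℕ} (hD : IsDesign Bs v k d)
    (hB : IsBeta Bs v d (n + 1)) (ha : a ≤ 1) (hk : k = d + 2 * n + 1 + a)
    (hv : 2 * k ≤ v) (hn : 2 ≤ n) (hN : n ^ 2 + 4 * n + 1 ≤ d + 2 * n)
    (hup : n * v ≤ (d + 2 * n) * (2 * n + 1 + a)) (hN0 : d + 2 * n < N03 n a) : False := by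
  obtain ⟨hdk, hkv⟩ := design_facts hD
  obtain ⟨L, hL⟩ : ∃ L, v = 2 * (d + 2 * n) + 1 + L := ⟨v - (2 * (d + 2 * n) + 1), by omega⟩
  -- divisibility conditions
  obtain ⟨hdiv1, hdiv1'⟩ := div_block hD hB (by omega) (by omega)
  have hD' := design_co hD
  have hkd : k - d - (n + 1) + 1 = (n + a) + 1 := by omega
  have hB' := beta_co hD (by omega) hB
  rw [hkd] at hB'
  obtain ⟨hdiv2, hdiv2'⟩ := div_block hD' hB' (by omega) (by omega)
  have hL1 : 2 * a + 1 ≤ L := by omega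
  have hL2 : n * (L + 1) ≤ (1 + a) * (d + 2 * n) := by
    rw [hL] at hup
    have e1 : n * (2 * (d + 2 * n) + 1 + L) = 2 * n * (d + 2 * n) + n * (L + 1) := by ring
    have e2 : (d + 2 * n) * (2 * n + 1 + a) = 2 * n * (d + 2 * n) + (1 + a) * (d + 2 * n) := by ring
    rw [e1, e2] at hup
    omega
  have e0 : d + 2 * n - 2 * n = d := by omega
  have e1 : v + d - 2 * k = d + 2 * n - 2 * n + (L - (2 * a + 1)) := by omega
  have e2 : n + a + 1 = (n + a) + 1 := by ring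
  have hs := srch3_true (N := d + 2 * n) (L := L) hn ha hN hN0 (by rw [e0]; exact hdiv1)
    (by rw [e0]; exact hdiv1') hL1 hL2 (by rw [← e1]; exact hdiv2) (by rw [← e1]; exact hdiv2')
  rcases hs with hs | ⟨hn2, ha1, hs⟩
  · obtain ⟨T, hT, hneg⟩ := srch_sound (by omega) (min_le_right 24 _) hs
    subst hk
    exact no_sign (N := ((d + 2 * n : ℕ) : ℝ)) (L := (L : ℝ)) hD hB (by omega) (by omega)
      (by push_cast; ring) (by rw [hL]; push_cast; ring) T (by exact_mod_cast hT) hneg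
  · -- two exceptional parameter sets
    subst hn2 ha1
    obtain ⟨T, hTN, hTsq, -, hrest⟩ := setup (x := d + 2 * 2 + 1) (w := v - k) hD hB ha hk hv hn rfl
      rfl hN
    have hc : c2 2 1 = 11 := rfl
    rw [hc] at hTsq
    obtain ⟨t1, t2⟩ := th_vals
    rcases hs with ⟨h1, h2⟩ | ⟨h1, h2⟩
    · have hT28 : T ≤ 28 := by
        by_contra hcon
        push Not at hcon
        have : 29 ^ 2 ≤ T ^ 2 := Nat.pow_le_pow_left hcon 2
        rw [h1] at hTsq
        omega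
      obtain ⟨hpad, -⟩ := hrest (by omega) (by omega)
      have e3 : d + 2 * 2 + 1 = 146 := by omega
      have e4 : v - k = 222 := by omega
      rw [e3, e4] at hpad
      obtain ⟨-, g, hg, -, hg2⟩ := hpad 137 (by norm_num) (by omega) t1
      have h5 : 137 ^ 2 ≤ 137 ^ g := Nat.pow_le_pow_right (by norm_num) hg
      omega
    · have hT30 : T ≤ 30 := by
        by_contra hcon
        push Not at hcon
        have : 31 ^ 2 ≤ T ^ 2 := Nat.pow_le_pow_left hcon 2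
        rw [h1] at hTsq
        omega
      obtain ⟨hpad, -⟩ := hrest (by omega) (by omega)
      have e3 : d + 2 * 2 + 1 = 170 := by omega
      have e4 : v - k = 186 := by omega
      rw [e3, e4] at hpad
      obtain ⟨-, g, hg, -, hg2⟩ := hpad 149 (by norm_num) (by omega) t2
      have h5 : 149 ^ 2 ≤ 149 ^ g := Nat.pow_le_pow_right (by norm_num) hg
      omega

/-- The oriented case. -/
theorem side3 {Bs : Finset (Finset Ω)} {v k d n a : ℕ} (hD : IsDesign Bs v k d) (hd : 0 < d)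
    (hB : IsBeta Bs v d (n + 1)) (ha : a ≤ 1) (hk : k = d + 2 * n + 1 + a) (hv : 2 * k ≤ v)
    (hn : 2 ≤ n) (hc : v < 2 ^ (2 ^ (2 ^ (n + 1)))) : False := by
  obtain ⟨hdk, hkv⟩ := design_facts hD
  have hT := Pool.Agent.BetaF.tits hD hd hB (by omega) (by omega)
  have hup := noda_upper hD hB (by omega) (by omega)
  have hkd : k - d = 2 * n + 1 + a := by omega
  rw [hkd] at hup
  have hN : n ^ 2 + 4 * n + 1 ≤ d + 2 * n := by nlinarith
  rcases Nat.lt_or_ge (d + 2 * n) (N03 n a) with hlt | hge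
  · exact small_case3 hD hB ha hk hv hn hN hup hlt
  obtain ⟨T, hTN, hTsq, hz, hrest⟩ := setup (x := d + 2 * n + 1) (w := v - k) hD hB ha hk hv hn rfl
    rfl hN
  obtain ⟨w, hw⟩ : ∃ w, w = v - k := ⟨_, rfl⟩
  rw [← hw] at hrest
  have hw2 : n * (w + (d + 2 * n + 1 + a)) ≤ (d + 2 * n) * (2 * n + 1 + a) := by
    have e1 : w + (d + 2 * n + 1 + a) = v := by omega
    rw [e1]
    exact hup
  have h21 : n = 2 → a = 1 → w + T ≤ 2 * (d + 2 * n) + 2 := by
    intro h2 h1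
    subst h2 h1
    have hge' : 227 ≤ d + 2 * 2 := hge
    obtain ⟨L, hL⟩ : ∃ L, v = 2 * (d + 2 * 2) + 1 + L := ⟨v - (2 * (d + 2 * 2) + 1), by omega⟩
    have hL2 : L + 1 ≤ d + 2 * 2 := by omega
    have := n2a1 (N := d + 2 * 2) (L := L) (t := T) (x := ((d + 2 * 2 + 1 : ℕ) : ℝ))
      (Lr := (v : ℝ) - 2 * ((d + 2 * 2 + 1 : ℕ) : ℝ) + 1) (by omega) hL2 (by push_cast; ring)
      (by rw [hL]; push_cast; ring) (by
        have h3 : ((1 : ℕ) : ℝ) = 1 := Nat.cast_one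
        rw [h3] at hz
        exact hz)
    omega
  obtain ⟨hs1, hs2⟩ := sizes3 hn ha hge hTsq hw2 h21
  obtain ⟨-, G, hG, hpow⟩ := hrest (by omega) (by omega)
  have hfin := big_ineq3 (n := n) (N := d + 2 * n) (a := a) (t := T) (w := w) hn ha hge hTsq (by omega)
    hw2 hs2 (by omega) G hG
  have hlog := log_part (x := d + 2 * n + 1) (N := d + 2 * n)
    (Nat.mul_pos (Nat.factorial_pos n) (Nat.factorial_pos (n + a))) rfl hTN (fun p hp => (hG p hp).1)
    hpow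
  linarith

end Pool.Agent.BY
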