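import Mathlib
import Pool.Agent.BX.Fin
import Pool.Agent.BY.Side3

set_option autoImplicit false

namespace Pool.Agent.BY

open Finset Pool.Agent.BetaL Pool.Agent.MP_1e96f1_co

variable {Ω : Type*} [Fintype Ω] [DecidableEq Ω]

/-- the case `k - d = 2 (n + 1)` -/
private lemma even_case3 {Bs : Finset (Finset Ω)} {v k d n : ℕ} (hD : IsDesign Bs v k d) (hd : 0 < d)
    (hB : IsBeta Bs v d (n + 1)) (hk : k - d = 2 * (n + 1))
    (hn : 2 ≤ n) (hc : v < 2 ^ (2 ^ (2 ^ (n + 1)))) : False := by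
  obtain ⟨hdk, hkv⟩ := design_facts hD
  have hlow := noda_lower hD hB (by omega)
  rw [hk] at hlow
  have h1 : (n + 1) * (2 * (d + 2 * n + 2)) ≤ (n + 1) * v := by
    calc (n + 1) * (2 * (d + 2 * n + 2)) = (d + 2 * n + 2) * (2 * (n + 1)) := by ring
      _ ≤ _ := hlow
  have h2 := Nat.le_of_mul_le_mul_left h1 (by omega)
  exact side3 hD hd hB (a := 1) le_rfl (by omega) (by omega) hn hc

/-- `v - 2 k + d > 0` -/
private lemma co_pos3 {Bs : Finset (Finset Ω)} {v k d i : ℕ} (hD : IsDesign Bs v k d) (hd : 0 < d)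
    (hB : IsBeta Bs v d i) (hi : 1 < i) (hi' : i < k - d) : 0 < v + d - 2 * k := by
  obtain ⟨hdk, hkv⟩ := design_facts hD
  rcases Nat.eq_zero_or_pos (v + d - 2 * k) with h0 | h0
  · exfalso
    obtain ⟨n, rfl⟩ : ∃ n, i = n + 1 := ⟨i - 1, by omega⟩
    have hlow := noda_lower hD hB (by omega)
    obtain ⟨q, hq⟩ : ∃ q, k = d + q := ⟨k - d, by omega⟩
    have e1 : k - d = q := by omega
    have e2 : v = d + 2 * q := by omega
    have e3 : n + 2 ≤ q := by omega
    rw [e1] at hlow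
    rw [e2] at hlow
    obtain ⟨r, hr⟩ : ∃ r, q = n + 2 + r := ⟨q - (n + 2), by omega⟩
    rw [hr] at hlow
    nlinarith
  · exact h0

/-- **Main theorem**: an explicit triple exponential lower bound for the number of points. -/
theorem main3 {Bs : Finset (Finset Ω)} {v k d i : ℕ} (hD : IsDesign Bs v k d) (hd : 0 < d)
    (hB : IsBeta Bs v d i) (hi' : i < k - d) (h3 : 3 ≤ min i (k - d + 1 - i)) :
    2 ^ (2 ^ (2 ^ min i (k - d + 1 - i))) ≤ v := by
  by_contra hcon
  push Not at hcon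
  obtain ⟨hdk, hkv⟩ := design_facts hD
  have hi : 1 < i := by
    have := min_le_left i (k - d + 1 - i)
    omega
  obtain ⟨hm1, hm2⟩ := Pool.Agent.BX.main hD hd hB hi hi'
  have hd' := co_pos3 hD hd hB hi hi'
  obtain ⟨n, rfl⟩ : ∃ n, i = n + 1 := ⟨i - 1, by omega⟩
  have hB' := beta_co hD (by omega) hB
  have hD' := design_co hD
  have hkd' : v - k - (v + d - 2 * k) = k - d := by omega
  rcases (by omega : k - d = 2 * (n + 1) ∨ k - d = 2 * n + 1 ∨ k - d = 2 * n) with h | h | h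
  · have e : min (n + 1) (k - d + 1 - (n + 1)) = n + 1 := by omega
    rw [e] at h3 hcon
    exact even_case3 hD hd hB h (by omega) hcon
  · have e : min (n + 1) (k - d + 1 - (n + 1)) = n + 1 := by omega
    rw [e] at h3 hcon
    rcases Nat.lt_or_ge v (2 * k) with h2 | h2
    · have e1 : k - d - (n + 1) + 1 = n + 1 := by omega
      rw [e1] at hB'
      exact side3 hD' hd' hB' (a := 0) (by omega) (by omega) (by omega) (by omega) hcon
    · exact side3 hD hd hB (a := 0) (by omega) (by omega) h2 (by omega) hcon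
  · obtain ⟨m, rfl⟩ : ∃ m, n = m + 1 := ⟨n - 1, by omega⟩
    have e : min (m + 1 + 1) (k - d + 1 - (m + 1 + 1)) = m + 1 := by omega
    rw [e] at h3 hcon
    have e1 : k - d - (m + 1 + 1) + 1 = m + 1 := by omega
    rw [e1] at hB'
    exact even_case3 hD' hd' hB' (by omega) (by omega) hcon

end Pool.Agent.BY
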